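import Pool.Agent.H134Z.DcpDefs

set_option autoImplicit false

namespace Pool.Agent.H134Z.Dcp
open Finset

lemma adj_iff (p q : ℤ × ℤ) : Adj p q ↔ (q.1 = p.1 + 1 ∧ q.2 = p.2) ∨ (q.1 = p.1 ∧ q.2 = p.2 + 1) ∨
    (p.1 = q.1 + 1 ∧ q.2 = p.2) ∨ (q.1 = p.1 ∧ p.2 = q.2 + 1) := by
  unfold Adj
  rcases abs_cases (p.1 - q.1) with h | h <;> rcases abs_cases (p.2 - q.2) with h' | h' <;> omega

def Reach (S : Finset (ℤ × ℤ)) (p q : ℤ × ℤ) : Prop :=
  Relation.ReflTransGen (fun u v => u ∈ S ∧ v ∈ S ∧ Adj u v) p q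

lemma Reach.symm {S : Finset (ℤ × ℤ)} {p q : ℤ × ℤ} (h : Reach S p q) : Reach S q p := by
  induction h with
  | refl => exact Relation.ReflTransGen.refl
  | tail _ h2 ih =>
    refine Relation.ReflTransGen.head ⟨h2.2.1, h2.1, ?_⟩ ih
    have := h2.2.2
    rw [adj_iff] at this ⊢; omega

lemma Reach.mono {S T : Finset (ℤ × ℤ)} (hST : S ⊆ T) {p q : ℤ × ℤ} (h : Reach S p q) :
    Reach T p q := by
  induction h with
  | refl => exact Relation.ReflTransGen.refl
  | tail _ h ih => exact Relation.ReflTransGen.tail ih ⟨hST h.1, hST h.2.1, h.2.2⟩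

lemma Reach.step {S : Finset (ℤ × ℤ)} {p q : ℤ × ℤ} (hp : p ∈ S) (hq : q ∈ S) (h : Adj p q) :
    Reach S p q := Relation.ReflTransGen.single ⟨hp, hq, h⟩

lemma Reach.tr {S : Finset (ℤ × ℤ)} {p q r : ℤ × ℤ} (h : Reach S p q) (h' : Reach S q r) :
    Reach S p r := Relation.ReflTransGen.trans h h'

noncomputable def seg (k a b : ℤ) : Finset (ℤ × ℤ) := (Ico a b).image fun x => (x, k - x)

lemma mem_seg {k a b : ℤ} {p : ℤ × ℤ} : p ∈ seg k a b ↔ p.1 + p.2 = k ∧ a ≤ p.1 ∧ p.1 < b := by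
  simp only [seg, mem_image, mem_Ico]
  constructor
  · rintro ⟨x, h, rfl⟩; simp only; omega
  · rintro ⟨h1, h2⟩
    exact ⟨p.1, h2, Prod.ext rfl (by simp only; omega)⟩

lemma card_seg (k a b : ℤ) : (seg k a b).card = (b - a).toNat := by
  rw [seg, card_image_of_injective _ fun x y h => (Prod.ext_iff.1 h).1, Int.card_Ico]

/-- completions of a partial polyomino whose last piece is `[A, A+m]` on the diagonal `k` -/
structure Cp (k A : ℤ) (m : ℕ) (f g : Bool) (S : Finset (ℤ × ℤ)) : Prop where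
  conv : DConv S
  low : ∀ p ∈ S, k ≤ p.1 + p.2
  base : ∀ x, A ≤ x → x ≤ A + m → (x, k - x) ∈ S
  left : ∀ p ∈ S, p.1 + p.2 = k → p.1 < A → f = true
  right : ∀ p ∈ S, p.1 + p.2 = k → A + m < p.1 → g = true
  conn : ∀ p ∈ S, ∃ x, A ≤ x ∧ x ≤ A + m ∧ Reach S p (x, k - x)

lemma Cp_seg (k A : ℤ) (m : ℕ) (f g : Bool) : Cp k A m f g (seg k A (A + m + 1)) where
  conv p hp q hq _ x h1 h2 := by rw [mem_seg] at hp hq ⊢; simp only; omega
  low p hp := (mem_seg.1 hp).1.ge
  base x h1 h2 := by rw [mem_seg]; simp only; omega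
  left p hp _ h := by have := mem_seg.1 hp; omega
  right p hp _ h := by have := mem_seg.1 hp; omega
  conn p hp := by
    have := mem_seg.1 hp
    refine ⟨p.1, by omega, by omega, ?_⟩
    rw [show (p.1, k - p.1) = p from Prod.ext rfl (by simp only; omega)]
    exact Relation.ReflTransGen.refl

/-- side condition: gap `l`, offset `e` -/
def ok (f : Bool) (m l e : ℕ) : Prop := (l = 0 ∧ e ≤ m + 1) ∨ (1 ≤ l ∧ f = true ∧ e ≤ 1)

lemma zigzag {S : Finset (ℤ × ℤ)} {k a b : ℤ}
    (h1 : ∀ x, a ≤ x → x ≤ b → (x, k + 1 - x) ∈ S)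
    (h2 : ∀ x, a ≤ x → x < b → (x, k - x) ∈ S) :
    ∀ (n : ℕ), a + n ≤ b → Reach S (a, k + 1 - a) (a + n, k + 1 - (a + n)) := by
  intro n
  induction n with
  | zero => intro _; simp only [Nat.cast_zero, add_zero]; exact Relation.ReflTransGen.refl
  | succ n ih =>
    intro h
    push_cast at h ⊢
    refine ((ih (by omega)).tr (Reach.step (h1 _ (by omega) (by omega))
      (h2 (a + n) (by omega) (by omega)) ?_)).tr
      (Reach.step (h2 _ (by omega) (by omega)) (h1 _ (by omega) (by omega)) ?_)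
    · rw [adj_iff]; dsimp only; omega
    · rw [adj_iff]; dsimp only; omega

lemma Cp_join {k A : ℤ} {m l e r e' m' : ℕ} {f g : Bool} {S : Finset (ℤ × ℤ)}
    (h1 : ok f m l e) (h2 : ok g m r e') (hm : m' + e + e' = m + 1 + l + r)
    (hS : Cp (k + 1) (A - l + e) m' (decide (e = 0)) (decide (e' = 0)) S) :
    Cp k A m f g (seg k (A - l) (A + m + 1 + r) ∪ S) := by
  set T := seg k (A - l) (A + m + 1 + r) ∪ S with hT
  have hseg : ∀ x, A - l ≤ x → x ≤ A + m + r → (x, k - x) ∈ T := fun x e1 e2 =>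
    mem_union_left _ (by rw [mem_seg]; simp only; omega)
  have hup : ∀ x, A - l + e ≤ x → x ≤ A - l + e + m' → (x, k + 1 - x) ∈ T := fun x e1 e2 =>
    mem_union_right _ (hS.base x e1 e2)
  have hz : ∀ x, A - l + e ≤ x → x ≤ A - l + e + m' →
      Reach T (A - l + e, k + 1 - (A - l + e)) (x, k + 1 - x) := by
    intro x e1 e2
    have := zigzag hup (fun x e3 e4 => hseg x (by omega) (by omega)) (x - (A - l + e)).toNat
      (by omega)
    rwa [show A - l + e + ((x - (A - l + e)).toNat : ℤ) = x by omega] at this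
  have hz2 : ∀ x, A - l ≤ x → x ≤ A + m + r → A - l + e - 1 ≤ x → x ≤ A - l + e + m' →
      Reach T (A - l + e, k + 1 - (A - l + e)) (x, k - x) := by
    intro x e1 e2 e3 e4
    by_cases e5 : A - l + e ≤ x
    · exact (hz x e5 e4).tr (Reach.step (hup x e5 e4) (hseg x e1 e2)
        (by rw [adj_iff]; dsimp only; omega))
    · exact Reach.step (hup _ le_rfl (by omega)) (hseg x e1 e2)
        (by rw [adj_iff]; dsimp only; omega)
  have hx0 : ∃ x, A ≤ x ∧ x ≤ A + m ∧ Reach T (A - l + e, k + 1 - (A - l + e)) (x, k - x) := by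
    unfold ok at h1 h2
    by_cases e5 : A ≤ A - l + e - 1
    · exact ⟨A - l + e - 1, e5, by omega, hz2 _ (by omega) (by omega) le_rfl (by omega)⟩
    · exact ⟨A, le_rfl, by omega, hz2 _ (by omega) (by omega) (by omega) (by omega)⟩
  obtain ⟨x0, e1, e2, e3⟩ := hx0
  constructor
  · intro p hp q hq hpq x e4 e5
    rcases mem_union.1 hp with hp | hp <;> rcases mem_union.1 hq with hq | hq
    · rw [mem_seg] at hp hq
      rw [hp.1]; exact hseg x (by omega) (by omega)
    · have := hS.low q hq; rw [mem_seg] at hp; omega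
    · have := hS.low p hp; rw [mem_seg] at hq; omega
    · exact mem_union_right _ (hS.conv p hp q hq hpq x e4 e5)
  · intro p hp
    rcases mem_union.1 hp with hp | hp
    · exact (mem_seg.1 hp).1.ge
    · have := hS.low p hp; omega
  · intro x e4 e5; exact hseg x (by omega) (by omega)
  · intro p hp e4 e5
    rcases mem_union.1 hp with hp | hp
    · have := mem_seg.1 hp
      rcases h1 with h | h
      · omega
      · exact h.2.1
    · have := hS.low p hp; omega
  · intro p hp e4 e5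
    rcases mem_union.1 hp with hp | hp
    · have := mem_seg.1 hp
      rcases h2 with h | h
      · omega
      · exact h.2.1
    · have := hS.low p hp; omega
  · intro p hp
    rcases mem_union.1 hp with hp | hp
    · have h3 := mem_seg.1 hp
      have e6 : p = (p.1, k - p.1) := Prod.ext rfl (by simp only; omega)
      by_cases e4 : A ≤ p.1 ∧ p.1 ≤ A + m
      · exact ⟨p.1, e4.1, e4.2, e6 ▸ Relation.ReflTransGen.refl⟩
      · unfold ok at h1 h2
        refine ⟨x0, e1, e2, Reach.tr ?_ e3⟩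
        rw [e6]
        exact (hz2 p.1 (by omega) (by omega) (by omega) (by omega)).symm
    · obtain ⟨x, e4, e5, e6⟩ := hS.conn p hp
      exact ⟨x0, e1, e2, ((e6.mono subset_union_right).tr (hz x e4 e5).symm).tr e3⟩

lemma diag_interval {S : Finset (ℤ × ℤ)} (hc : DConv S) {k x0 : ℤ} (h0 : (x0, k - x0) ∈ S) :
    ∃ a b, a ≤ x0 ∧ x0 ≤ b ∧ ∀ x, (x, k - x) ∈ S ↔ a ≤ x ∧ x ≤ b := by
  have hne : (S.filter fun p => p.1 + p.2 = k).Nonempty := ⟨_, mem_filter.2 ⟨h0, by simp⟩⟩
  obtain ⟨p, hp, hp'⟩ := exists_min_image _ Prod.fst hne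
  obtain ⟨q, hq, hq'⟩ := exists_max_image _ Prod.fst hne
  rw [mem_filter] at hp hq
  have key : ∀ x, (x, k - x) ∈ S → p.1 ≤ x ∧ x ≤ q.1 := fun x hx =>
    ⟨hp' _ (mem_filter.2 ⟨hx, by simp⟩), hq' _ (mem_filter.2 ⟨hx, by simp⟩)⟩
  refine ⟨p.1, q.1, (key _ h0).1, (key _ h0).2, fun x => ⟨key x, fun h => ?_⟩⟩
  have := hc p hp.1 q hq.1 (by omega) x h.1 h.2
  rwa [hp.2] at this

lemma Cp_split {k A : ℤ} {m : ℕ} {f g : Bool} {S : Finset (ℤ × ℤ)} (hS : Cp k A m f g S)
    (hne : S ≠ seg k A (A + m + 1)) :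
    ∃ (l e r e' m' : ℕ) (S' : Finset (ℤ × ℤ)), ok f m l e ∧ ok g m r e' ∧
      m' + e + e' = m + 1 + l + r ∧
      Cp (k + 1) (A - l + e) m' (decide (e = 0)) (decide (e' = 0)) S' ∧
      S = seg k (A - l) (A + m + 1 + r) ∪ S' := by
  obtain ⟨a, b, ha, hb, hab⟩ := diag_interval hS.conv (hS.base A le_rfl (by omega))
  have hb' := ((hab _).1 (hS.base (A + m) (by omega) le_rfl)).2
  have hmem : ∀ p : ℤ × ℤ, p ∈ S → p.1 + p.2 = k → a ≤ p.1 ∧ p.1 ≤ b := fun p hp h =>
    (hab p.1).1 (by rwa [show (p.1, k - p.1) = p from Prod.ext rfl (by simp only; omega)])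
  -- a cell of the base has an upper neighbour
  have h1 : ∀ p : ℤ × ℤ, ∀ x, A ≤ x → x ≤ A + m → Reach S p (x, k - x) →
      (p.1 + p.2 = k ∧ A ≤ p.1 ∧ p.1 ≤ A + m) ∨ ∃ y, A ≤ y ∧ y ≤ A + m + 1 ∧ (y, k + 1 - y) ∈ S := by
    intro p x e1 e2 h
    induction h using Relation.ReflTransGen.head_induction_on with
    | refl => left; simp only; omega
    | @head u v h2 _ ih =>
      rcases ih with ih | ih
      · have e3 := h2.2.2
        have e4 := hS.low u h2.1
        rw [adj_iff] at e3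
        refine Or.inr ⟨u.1, by omega, by omega, ?_⟩
        rw [show (u.1, k + 1 - u.1) = u from Prod.ext rfl (by simp only; omega)]
        exact h2.1
      · exact Or.inr ih
  have h2 : ∃ y, A ≤ y ∧ y ≤ A + m + 1 ∧ (y, k + 1 - y) ∈ S := by
    by_contra hcon
    refine hne (Subset.antisymm (fun p hp => ?_) fun p hp => ?_)
    · obtain ⟨x, e1, e2, e3⟩ := hS.conn p hp
      have := (h1 p x e1 e2 e3).resolve_right hcon
      rw [mem_seg]; omega
    · have := mem_seg.1 hp
      rw [← show (p.1, k - p.1) = p from Prod.ext rfl (by simp only; omega)]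
      exact hS.base _ (by omega) (by omega)
  obtain ⟨y0, e1, e2, e3⟩ := h2
  obtain ⟨a', b', ha', hb'', hab'⟩ := diag_interval hS.conv e3
  have hmem' : ∀ p : ℤ × ℤ, p ∈ S → p.1 + p.2 = k + 1 → a' ≤ p.1 ∧ p.1 ≤ b' := fun p hp h =>
    (hab' p.1).1 (by rwa [show (p.1, k + 1 - p.1) = p from Prod.ext rfl (by simp only; omega)])
  have hgap : ∀ x, a ≤ x → x ≤ b → (x < A ∨ A + m < x) → a' ≤ x + 1 ∧ x ≤ b' := by
    intro x e4 e5 e6
    obtain ⟨x', e7, e8, e9⟩ := hS.conn _ ((hab x).2 ⟨e4, e5⟩)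
    rcases Relation.ReflTransGen.cases_head e9 with h | ⟨v, h, -⟩
    · have := (Prod.ext_iff.1 h).1; simp only at this; omega
    · have e10 := h.2.2
      have e11 := hS.low v h.2.1
      rw [adj_iff] at e10
      simp only at e10
      have := hmem' v h.2.1 (by omega)
      omega
  have hga := hgap a le_rfl (by omega)
  have hgb := hgap b (by omega) le_rfl
  have hfa := hS.left _ ((hab a).2 ⟨le_rfl, by omega⟩) (by simp)
  have hgb' := hS.right _ ((hab b).2 ⟨by omega, le_rfl⟩) (by simp)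
  simp only at hfa hgb'
  refine ⟨(A - a).toNat, (max a a' - a).toNat, (b - (A + m)).toNat,
    (b + 1 - min (b + 1) b').toNat, (min (b + 1) b' - max a a').toNat,
    S.filter fun p => k < p.1 + p.2, ?_, ?_, by omega, ?_, ?_⟩
  · by_cases h : a < A
    · exact Or.inr ⟨by omega, hfa h, by omega⟩
    · exact Or.inl ⟨by omega, by omega⟩
  · by_cases h : A + m < b
    · exact Or.inr ⟨by omega, hgb' h, by omega⟩
    · exact Or.inl ⟨by omega, by omega⟩
  · constructor
    · intro p hp q hq hpq x e4 e5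
      rw [mem_filter] at hp hq ⊢
      exact ⟨hS.conv p hp.1 q hq.1 hpq x e4 e5, by simp only; omega⟩
    · intro p hp; exact (mem_filter.1 hp).2
    · intro x e4 e5
      exact mem_filter.2 ⟨(hab' x).2 (by omega), by simp⟩
    · intro p hp e4 e5
      have := hmem' p (mem_filter.1 hp).1 e4
      simp only [decide_eq_true_eq]; omega
    · intro p hp e4 e5
      have := hmem' p (mem_filter.1 hp).1 e4
      simp only [decide_eq_true_eq]; omega
    · intro p hp
      rw [mem_filter] at hp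
      obtain ⟨x, -, -, e9⟩ := hS.conn p hp.1
      have hp2 := hp.2
      clear hp
      induction e9 using Relation.ReflTransGen.head_induction_on with
      | refl => simp at hp2
      | @head u v h2 _ ih =>
        by_cases hv : k < v.1 + v.2
        · obtain ⟨y, e4, e5, e6⟩ := ih hv
          exact ⟨y, e4, e5, (Reach.step (mem_filter.2 ⟨h2.1, hp2⟩) (mem_filter.2 ⟨h2.2.1, hv⟩)
            h2.2.2).tr e6⟩
        · have e3 := h2.2.2
          have e4 := hS.low v h2.2.1
          rw [adj_iff] at e3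
          have e5 := hmem v h2.2.1 (by omega)
          have e6 := hmem' u h2.1 (by omega)
          refine ⟨u.1, by omega, by omega, ?_⟩
          rw [show (u.1, k + 1 - u.1) = u from Prod.ext rfl (by simp only; omega)]
          exact Relation.ReflTransGen.refl
  · ext p
    rw [mem_union, mem_seg, mem_filter]
    constructor
    · intro hp
      rcases (hS.low p hp).eq_or_lt with h | h
      · have := hmem p hp h.symm
        left; omega
      · exact Or.inr ⟨hp, h⟩
    · rintro (h | h)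
      · rw [← show (p.1, k - p.1) = p from Prod.ext rfl (by simp only; omega)]
        exact (hab _).2 (by omega)
      · exact h.1

lemma join_inj {k A : ℤ} {m l e r e' m' l2 e2 r2 e2' m2' : ℕ} {S S2 : Finset (ℤ × ℤ)}
    (hm : m' + e + e' = m + 1 + l + r) (hm2 : m2' + e2 + e2' = m + 1 + l2 + r2)
    (hS : Cp (k + 1) (A - l + e) m' (decide (e = 0)) (decide (e' = 0)) S)
    (hS2 : Cp (k + 1) (A - l2 + e2) m2' (decide (e2 = 0)) (decide (e2' = 0)) S2)
    (h : seg k (A - l) (A + m + 1 + r) ∪ S = seg k (A - l2) (A + m + 1 + r2) ∪ S2) :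
    l = l2 ∧ e = e2 ∧ r = r2 ∧ e' = e2' ∧ S = S2 := by
  have hp : ∀ p : ℤ × ℤ, (p.1 + p.2 = k ∧ A - l ≤ p.1 ∧ p.1 < A + m + 1 + r) ∨ p ∈ S ↔
      (p.1 + p.2 = k ∧ A - l2 ≤ p.1 ∧ p.1 < A + m + 1 + r2) ∨ p ∈ S2 := by
    intro p; rw [← mem_seg, ← mem_seg, ← mem_union, ← mem_union, h]
  have hk : ∀ x : ℤ, (A - l ≤ x ∧ x < A + m + 1 + r) ↔ (A - l2 ≤ x ∧ x < A + m + 1 + r2) := by
    intro x
    have := hp (x, k - x)
    have e1 : (x, k - x) ∉ S := fun h => by have := hS.low _ h; simp at this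
    have e2 : (x, k - x) ∉ S2 := fun h => by have := hS2.low _ h; simp at this
    simpa [e1, e2] using this
  have hl : l = l2 := by have := hk (A - l); have := hk (A - l2); omega
  have hr : r = r2 := by have := hk (A + m + r); have := hk (A + m + r2); omega
  subst hl hr
  have hSS : S = S2 := by
    ext p
    have := hp p
    constructor
    · intro h1
      exact (this.1 (Or.inr h1)).resolve_left (by have := hS.low p h1; omega)
    · intro h1
      exact (this.2 (Or.inr h1)).resolve_left (by have := hS2.low p h1; omega)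
  subst hSS
  have a1 := hS2.left _ (hS.base _ le_rfl (by omega)) (by simp)
  have a2 := hS.left _ (hS2.base _ le_rfl (by omega)) (by simp)
  have a3 := hS2.right _ (hS.base _ (by omega) le_rfl) (by simp)
  have a4 := hS.right _ (hS2.base _ (by omega) le_rfl) (by simp)
  simp only [decide_eq_true_eq] at a1 a2 a3 a4
  have he : e = e2 := by omega
  subst he
  exact ⟨rfl, rfl, rfl, by omega, rfl⟩

lemma join_card {k A : ℤ} {m l r m' : ℕ} {A' : ℤ} {f g : Bool} {S : Finset (ℤ × ℤ)}
    (hS : Cp (k + 1) A' m' f g S) :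
    (seg k (A - l) (A + m + 1 + r) ∪ S).card = m + 1 + l + r + S.card := by
  rw [card_union_of_disjoint, card_seg]
  · omega
  · rw [disjoint_left]
    intro p hp hp'
    have := hS.low p hp'
    have := mem_seg.1 hp
    omega

lemma Cp.card_ge {k A : ℤ} {m : ℕ} {f g : Bool} {S : Finset (ℤ × ℤ)} (hS : Cp k A m f g S) :
    m + 1 ≤ S.card := by
  have : seg k A (A + m + 1) ⊆ S := by
    intro p hp
    have := mem_seg.1 hp
    rw [← show (p.1, k - p.1) = p from Prod.ext rfl (by simp only; omega)]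
    exact hS.base _ (by omega) (by omega)
  have := card_le_card this
  rw [card_seg] at this; omega

end Pool.Agent.H134Z.Dcp
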