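import Pool.Agent.H134Z.DcpA

set_option autoImplicit false

namespace Pool.Agent.H134Z.Dcp
open Finset

instance (f : Bool) (m l e : ℕ) : Decidable (ok f m l e) := by unfold ok; infer_instance

def Opt (N : ℕ) (f : Bool) (m : ℕ) : Finset (ℕ × ℕ) :=
  (range (N + 1) ×ˢ range (m + 2)).filter fun o => ok f m o.1 o.2

lemma mem_Opt {N m : ℕ} {f : Bool} {o : ℕ × ℕ} : o ∈ Opt N f m ↔ o.1 ≤ N ∧ ok f m o.1 o.2 := by
  simp only [Opt, mem_filter, mem_product, mem_range]
  constructor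
  · rintro ⟨⟨h1, -⟩, h2⟩; exact ⟨by omega, h2⟩
  · rintro ⟨h1, h2⟩; exact ⟨⟨by omega, by unfold ok at h2; omega⟩, h2⟩

lemma sum_Opt {V : Type} [AddCommMonoid V] (N m : ℕ) (f : Bool) (F : ℕ × ℕ → V) :
    ∑ o ∈ Opt N f m, F o = F (0, 0) + ∑ e ∈ range (m + 1), F (0, e + 1) +
      if f then ∑ l ∈ range N, (F (l + 1, 0) + F (l + 1, 1)) else 0 := by
  rw [Opt, sum_filter, sum_product, sum_range_succ', add_comm]
  congr 1
  · rw [add_comm (F (0, 0)), ← sum_range_succ' fun e => F (0, e)]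
    refine sum_congr rfl fun e he => if_pos (Or.inl ⟨rfl, ?_⟩)
    have := mem_range.1 he; simp only; omega
  · cases f
    · simp [ok]
    · rw [if_pos rfl]
      refine sum_congr rfl fun l _ => ?_
      rw [sum_range_succ', sum_range_succ']
      simp [ok, add_comm]

def CS (k A : ℤ) (m : ℕ) (f g : Bool) (n : ℕ) : Set (Finset (ℤ × ℤ)) :=
  {S | Cp k A m f g S ∧ S.card = n + m + 1}

def nm (m : ℕ) (i : (ℕ × ℕ) × ℕ × ℕ) : ℕ := m + 1 + i.1.1 + i.2.1 - i.1.2 - i.2.2
def wt (m : ℕ) (i : (ℕ × ℕ) × ℕ × ℕ) : ℕ := i.1.1 + i.2.1 + nm m i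
def adm (m : ℕ) (i : (ℕ × ℕ) × ℕ × ℕ) : Prop := i.1.2 + i.2.2 ≤ m + 1 + i.1.1 + i.2.1

instance (m : ℕ) (i : (ℕ × ℕ) × ℕ × ℕ) : Decidable (adm m i) := by unfold adm; infer_instance

def Idx (N m : ℕ) (f g : Bool) (n : ℕ) : Finset ((ℕ × ℕ) × ℕ × ℕ) :=
  (Opt N f m ×ˢ Opt N g m).filter fun i => adm m i ∧ wt m i ≤ n

lemma CS_zero (k A : ℤ) (m : ℕ) (f g : Bool) : CS k A m f g 0 = {seg k A (A + m + 1)} := by
  ext S
  constructor
  · rintro ⟨h1, h2⟩
    by_contra h
    obtain ⟨l, e, r, e', m', S', -, -, -, h3, rfl⟩ := Cp_split h1 h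
    have := h3.card_ge
    rw [join_card h3] at h2
    omega
  · rintro rfl
    exact ⟨Cp_seg .., by rw [card_seg]; omega⟩

lemma CS_succ (k A : ℤ) (m : ℕ) (f g : Bool) {n N : ℕ} (hn : n ≤ N) :
    CS k A m f g (n + 1) = ⋃ i ∈ (Idx N m f g n : Set ((ℕ × ℕ) × ℕ × ℕ)),
      (fun S => seg k (A - i.1.1) (A + m + 1 + i.2.1) ∪ S) ''
        CS (k + 1) (A - i.1.1 + i.1.2) (nm m i) (decide (i.1.2 = 0)) (decide (i.2.2 = 0))
          (n - wt m i) := by
  ext S
  simp only [Set.mem_iUnion, Set.mem_image, mem_coe, Idx, mem_filter, mem_product, mem_Opt]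
  constructor
  · rintro ⟨h1, h2⟩
    obtain ⟨l, e, r, e', m', S', h4, h5, h6, h3, rfl⟩ := Cp_split h1 (by
      rintro rfl
      rw [card_seg] at h2; omega)
    have := h3.card_ge
    rw [join_card h3] at h2
    have h7 : nm m ((l, e), r, e') = m' := by simp only [nm]; omega
    refine ⟨((l, e), r, e'), ⟨⟨⟨by simp only; omega, h4⟩, by simp only; omega, h5⟩, ?_, ?_⟩, S',
      ⟨h7 ▸ h3, ?_⟩, rfl⟩
    · simp only [adm]; omega
    · simp only [wt, h7]; omega
    · simp only [wt, h7]; omega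
  · rintro ⟨⟨⟨l, e⟩, r, e'⟩, ⟨⟨⟨-, h4⟩, -, h5⟩, h6, h7⟩, S', ⟨h3, h2⟩, rfl⟩
    simp only [adm] at h6
    refine ⟨Cp_join h4 h5 (by simp only [nm]; omega) h3, ?_⟩
    rw [join_card h3]
    simp only [wt] at h2 h7
    dsimp only
    omega

lemma CS_finite (n : ℕ) : ∀ (k A : ℤ) (m : ℕ) (f g : Bool), (CS k A m f g n).Finite := by
  induction n using Nat.strong_induction_on with
  | _ n ih =>
    intro k A m f g
    cases n with
    | zero => rw [CS_zero]; exact Set.finite_singleton _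
    | succ n =>
      rw [CS_succ k A m f g le_rfl]
      exact (finite_toSet _).biUnion fun i _ => (ih _ (by omega) _ _ _ _ _).image _

lemma CS_card (k A : ℤ) (m : ℕ) (f g : Bool) {n N : ℕ} (hn : n ≤ N) :
    (CS k A m f g (n + 1)).ncard = ∑ i ∈ Idx N m f g n,
      (CS (k + 1) (A - i.1.1 + i.1.2) (nm m i) (decide (i.1.2 = 0)) (decide (i.2.2 = 0))
          (n - wt m i)).ncard := by
  have hadm : ∀ i ∈ Idx N m f g n, nm m i + i.1.2 + i.2.2 = m + 1 + i.1.1 + i.2.1 := by
    intro i hi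
    have := (mem_filter.1 hi).2.1
    simp only [adm, nm] at this ⊢; omega
  rw [CS_succ k A m f g hn, (finite_toSet _).ncard_biUnion
    (fun i _ => (CS_finite _ _ _ _ _ _).image _), finsum_mem_coe_finset]
  · refine sum_congr rfl fun i hi => Set.ncard_image_of_injOn ?_
    intro S hS S' hS' h
    exact (join_inj (hadm i hi) (hadm i hi) hS.1 hS'.1 h).2.2.2.2
  · intro i hi j hj hij
    rw [Function.onFun, Set.disjoint_left]
    rintro _ ⟨S, hS, rfl⟩ ⟨S', hS', h⟩
    obtain ⟨e1, e2, e3, e4, -⟩ := join_inj (hadm j hj) (hadm i hi) hS'.1 hS.1 h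
    exact hij (Prod.ext (Prod.ext e1.symm e2.symm) (Prod.ext e3.symm e4.symm))

noncomputable def cc (n m : ℕ) (f g : Bool) : ℕ := (CS 0 0 m f g n).ncard

lemma CS_transl (n : ℕ) : ∀ (k A : ℤ) (m : ℕ) (f g : Bool),
    (CS k A m f g n).ncard = cc n m f g := by
  induction n using Nat.strong_induction_on with
  | _ n ih =>
    intro k A m f g
    cases n with
    | zero => simp [cc, CS_zero]
    | succ n =>
      rw [cc, CS_card k A m f g le_rfl, CS_card 0 0 m f g le_rfl]
      refine sum_congr rfl fun i _ => ?_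
      rw [ih _ (by omega), ih _ (by omega)]

lemma cc_zero (m : ℕ) (f g : Bool) : cc 0 m f g = 1 := by simp [cc, CS_zero]

lemma cc_succ (m : ℕ) (f g : Bool) {n N : ℕ} (hn : n ≤ N) :
    cc (n + 1) m f g = ∑ i ∈ Idx N m f g n,
      cc (n - wt m i) (nm m i) (decide (i.1.2 = 0)) (decide (i.2.2 = 0)) := by
  rw [cc, CS_card 0 0 m f g hn]
  exact sum_congr rfl fun i _ => CS_transl ..

lemma mem_tr {A : Finset (ℤ × ℤ)} {v p : ℤ × ℤ} : p ∈ A.image (· + v) ↔ p - v ∈ A := by
  rw [mem_image]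
  exact ⟨by rintro ⟨q, hq, rfl⟩; simpa using hq, fun h => ⟨_, h, by simp⟩⟩

lemma dcp_zero : dcp 0 = 0 := by
  rw [dcp, Set.eq_empty_of_forall_notMem (s := {C | _}), Set.ncard_empty]
  rintro C ⟨A, h1, h2, -⟩
  have := h1.card_pos; omega

lemma dcp_succ (n : ℕ) : dcp (n + 1) = cc n 0 false true := by
  have h0 : ∀ S ∈ CS 0 0 0 false true n, ((0 : ℤ), (0 : ℤ)) ∈ S := fun S hS => by
    simpa using hS.1.base 0 le_rfl (by simp)
  rw [dcp, cc, ← Set.ncard_image_of_injOn (f := cls)]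
  · congr 1
    ext C
    constructor
    · rintro ⟨A, h1, h2, h3, h4, rfl⟩
      obtain ⟨p1, hp1, hm1⟩ := exists_min_image A (fun p => p.1 + p.2) h1
      obtain ⟨p, hp, hm⟩ := exists_min_image (A.filter fun p => p.1 + p.2 = p1.1 + p1.2) Prod.fst
        ⟨p1, mem_filter.2 ⟨hp1, rfl⟩⟩
      rw [mem_filter] at hp
      refine ⟨A.image (· + -p), ⟨⟨?_, ?_, ?_, ?_, fun _ _ _ _ => rfl, ?_⟩, ?_⟩, ?_⟩
      · intro u hu v hv huv x e1 e2
        rw [mem_tr] at hu hv ⊢
        have := h4 _ hu _ hv (by simp; omega) (x + p.1) (by simp; omega) (by simp; omega)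
        convert this using 1
        ext <;> simp; omega
      · intro u hu
        have := hm1 _ (mem_tr.1 hu)
        simp at this; omega
      · intro x e1 e2
        rw [mem_tr]
        convert hp.1 using 1
        ext <;> simp <;> omega
      · intro u hu e1 e2
        have := hm _ (mem_filter.2 ⟨mem_tr.1 hu, by simp; omega⟩)
        simp at this; omega
      · intro u hu
        refine ⟨0, le_rfl, by simp, ?_⟩
        obtain ⟨w, hw, rfl⟩ := mem_image.1 hu
        have := h3 w hw p hp.1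
        rw [show ((0 : ℤ), (0 : ℤ) - 0) = p + -p by simp [Prod.ext_iff]]
        clear hu hw
        induction this using Relation.ReflTransGen.head_induction_on with
        | refl => exact Relation.ReflTransGen.refl
        | head h _ ih =>
          refine Relation.ReflTransGen.head ⟨mem_image_of_mem _ h.1, mem_image_of_mem _ h.2.1, ?_⟩ ih
          have := h.2.2
          rw [adj_iff] at this ⊢
          simp only [Prod.fst_add, Prod.snd_add]; omega
      · rw [card_image_of_injective _ (add_left_injective _), h2]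
      · ext B
        constructor
        · rintro ⟨v, rfl⟩
          exact ⟨-p + v, by rw [image_image]; congr 1; ext1 x; simp [add_assoc]⟩
        · rintro ⟨v, rfl⟩
          exact ⟨p + v, by rw [image_image]; congr 1; ext1 x; simp [add_assoc]⟩
    · rintro ⟨S, hS, rfl⟩
      refine ⟨S, ⟨_, h0 S hS⟩, hS.2, fun p hp q hq => ?_, hS.1.conv, rfl⟩
      obtain ⟨x, e1, e2, e3⟩ := hS.1.conn p hp
      obtain ⟨y, e4, e5, e6⟩ := hS.1.conn q hq
      obtain rfl : x = y := by omega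
      exact e3.tr e6.symm
  · intro S hS S' hS' h
    have : S' ∈ cls S := h ▸ ⟨0, by simp⟩
    obtain ⟨v, rfl⟩ := this
    have e1 := mem_tr.1 (h0 _ hS')
    have e2 : v ∈ S.image (· + v) := mem_tr.2 (by rw [sub_self]; exact h0 _ hS)
    have e3 := hS.1.low _ e1
    have e4 := hS'.1.low _ e2
    have e5 := hS.1.left _ e1
    have e6 := hS'.1.left _ e2
    simp at e3 e5 e6
    have : v = 0 := Prod.ext (by simp only [Prod.fst_zero]; omega) (by simp only [Prod.snd_zero]; omega)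
    simp [this]

end Pool.Agent.H134Z.Dcp
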