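import Mathlib

set_option autoImplicit false

namespace Pool.Agent.H134Z.Mac
open Finset

section geo
variable {A : Type} [Ring A]

def geo (N : ℕ) (a : A) : A := ∑ j ∈ range (N + 1), a ^ j

lemma geo_left {N : ℕ} {a : A} (h : a ^ (N + 1) = 0) : geo N a = 1 + a * geo N a := by
  have := mul_neg_geom_sum a (N + 1)
  rw [h, sub_zero, sub_mul, one_mul] at this
  unfold geo
  rw [← this]; abel

lemma geo_comm {N : ℕ} {a b : A} (h : Commute b a) : Commute b (geo N a) :=
  Commute.sum_right _ _ _ fun j _ => h.pow_right j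
end geo

variable {R : Type} [CommRing R] {t : R} {N : ℕ}

section solve
variable {V : Type} [AddCommGroup V] [Module R V]

lemma nil_smul (ht : t ^ (N + 1) = 0) (A : Module.End R V) : (t • A) ^ (N + 1) = 0 := by
  rw [smul_pow, ht, zero_smul]

lemma geo_apply (ht : t ^ (N + 1) = 0) (A : Module.End R V) (F : V) :
    geo N (t • A) F = F + t • A (geo N (t • A) F) := by
  conv_lhs => rw [geo_left (nil_smul ht A)]
  simp

lemma uniq (ht : t ^ (N + 1) = 0) (A : Module.End R V) {F G F0 : V}
    (hF : F = F0 + t • A F) (hG : G = F0 + t • A G) : F = G := by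
  have h1 : F - G = (t • A) (F - G) := by
    rw [LinearMap.smul_apply, map_sub, smul_sub]
    conv_lhs => rw [hF, hG]
    abel
  have h2 : ∀ n : ℕ, F - G = ((t • A) ^ n) (F - G) := by
    intro n
    induction n with
    | zero => simp
    | succ n ih => rw [pow_succ, Module.End.mul_apply, ← h1, ← ih]
  have := h2 (N + 1)
  rw [nil_smul ht A] at this
  exact sub_eq_zero.1 this
end solve

variable {M : Type} [AddCommGroup M] [Module R M]

/-- partial sums -/
def K1 (R M : Type) [CommRing R] [AddCommGroup M] [Module R M] : Module.End R (ℕ → M) where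
  toFun f g := ∑ j ∈ range (g + 1), f j
  map_add' f f' := by ext g; simp [sum_add_distrib]
  map_smul' r f := by ext g; simp [smul_sum]

def L1 (R M : Type) [CommRing R] [AddCommGroup M] [Module R M] : Module.End R (ℕ → M) where
  toFun f g := Nat.casesOn g 0 f
  map_add' f f' := by ext g; cases g <;> simp
  map_smul' r f := by ext g; cases g <;> simp

lemma K1_apply (f : ℕ → M) (g : ℕ) : K1 R M f g = ∑ j ∈ range (g + 1), f j := rfl
@[simp] lemma L1_zero (f : ℕ → M) : L1 R M f 0 = 0 := rfl
@[simp] lemma L1_succ (f : ℕ → M) (g : ℕ) : L1 R M f (g + 1) = f g := rfl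

lemma KL_comm : Commute (L1 R M) (K1 R M) := by
  ext1 f; ext g
  cases g with
  | zero => simp [K1_apply]
  | succ g => simp [K1_apply, sum_range_succ' _ (g + 1)]

noncomputable def D1 (M : Type) [AddCommGroup M] [Module R M] (t : R) (N : ℕ) :
    Module.End R (ℕ → M) := geo N (t • K1 R M)

lemma D1_eq (ht : t ^ (N + 1) = 0) (f : ℕ → M) : D1 M t N f = f + t • K1 R M (D1 M t N f) :=
  geo_apply ht _ f

lemma D1_comm {A : Module.End R (ℕ → M)} (h : Commute A (K1 R M)) : Commute A (D1 M t N) :=
  geo_comm (h.smul_right t)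

/-- `y = 1/(1-t)` -/
def yy (t : R) (N : ℕ) : R := geo N t

lemma yy_eq (ht : t ^ (N + 1) = 0) : yy t N = 1 + t * yy t N := geo_left ht

lemma D1_zero (ht : t ^ (N + 1) = 0) (f : ℕ → M) : D1 M t N f 0 = yy t N • f 0 := by
  have h1 := congrFun (D1_eq ht f) 0
  simp only [Pi.add_apply, Pi.smul_apply, K1_apply, zero_add, sum_range_one] at h1
  refine uniq ht (1 : Module.End R M) (F0 := f 0) (by simpa using h1) ?_
  conv_lhs => rw [yy_eq ht]
  simp [add_smul, mul_smul]

/-- naturality of `D1` -/
lemma D1_nat (ht : t ^ (N + 1) = 0) {M' : Type} [AddCommGroup M'] [Module R M'] (l : M →ₗ[R] M')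
    (f : ℕ → M) : (fun g => l (D1 M t N f g)) = D1 M' t N (fun g => l (f g)) := by
  refine uniq ht (K1 R M') (F0 := fun g => l (f g)) ?_ (D1_eq ht _)
  ext g
  conv_lhs => rw [D1_eq ht f]
  simp [K1_apply]

abbrev F2 (M : Type) := ℕ → ℕ → M

/-- row-wise action -/
def row (A : Module.End R (ℕ → M)) : Module.End R (F2 M) := A.compLeft ℕ
/-- value-wise action -/
def val (w : Module.End R M) : Module.End R (F2 M) := row (w.compLeft ℕ)

@[simp] lemma row_apply (A : Module.End R (ℕ → M)) (F : F2 M) (c : ℕ) : row A F c = A (F c) := rfl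
@[simp] lemma val_apply (w : Module.End R M) (F : F2 M) (c g : ℕ) : val w F c g = w (F c g) := rfl

def aa (R M : Type) [CommRing R] [AddCommGroup M] [Module R M] : Module.End R (F2 M) where
  toFun F c := F (c + 1)
  map_add' _ _ := rfl
  map_smul' _ _ := rfl

def MM (R M : Type) [CommRing R] [AddCommGroup M] [Module R M] : Module.End R (F2 M) where
  toFun F c g := ∑ j ∈ range (c + 1), F (c - j) (g + j)
  map_add' f f' := by ext c g; simp [sum_add_distrib]
  map_smul' r f := by ext c g; simp [smul_sum]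

def Ec (R M : Type) [CommRing R] [AddCommGroup M] [Module R M] : Module.End R (F2 M) where
  toFun F c := Nat.casesOn c (F 0) fun _ => 0
  map_add' f f' := by ext c g; cases c <;> simp
  map_smul' r f := by ext c g; cases c <;> simp

def Eg (R M : Type) [CommRing R] [AddCommGroup M] [Module R M] : Module.End R (F2 M) where
  toFun F c g := Nat.casesOn g (F c 0) fun _ => 0
  map_add' f f' := by ext c g; cases g <;> simp
  map_smul' r f := by ext c g; cases g <;> simp

def NN (R M : Type) [CommRing R] [AddCommGroup M] [Module R M] : Module.End R (F2 M) where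
  toFun F c g := Nat.casesOn c 0 fun c => F c (g + 1)
  map_add' f f' := by ext c g; cases c <;> simp
  map_smul' r f := by ext c g; cases c <;> simp

@[simp] lemma aa_apply (F : F2 M) (c : ℕ) : aa R M F c = F (c + 1) := rfl
lemma MM_apply (F : F2 M) (c g : ℕ) :
    MM R M F c g = ∑ j ∈ range (c + 1), F (c - j) (g + j) := rfl
@[simp] lemma Ec_zero (F : F2 M) : Ec R M F 0 = F 0 := rfl
@[simp] lemma Ec_succ (F : F2 M) (c : ℕ) : Ec R M F (c + 1) = 0 := rfl
@[simp] lemma Eg_zero (F : F2 M) (c : ℕ) : Eg R M F c 0 = F c 0 := rfl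
@[simp] lemma Eg_succ (F : F2 M) (c g : ℕ) : Eg R M F c (g + 1) = 0 := rfl
@[simp] lemma NN_zero (F : F2 M) (g : ℕ) : NN R M F 0 g = 0 := rfl
@[simp] lemma NN_succ (F : F2 M) (c g : ℕ) : NN R M F (c + 1) g = F c (g + 1) := rfl

lemma MM_zero (F : F2 M) (g : ℕ) : MM R M F 0 g = F 0 g := by simp [MM_apply]
lemma MM_succ (F : F2 M) (c g : ℕ) : MM R M F (c + 1) g = F (c + 1) g + MM R M F c (g + 1) := by
  rw [MM_apply, MM_apply, sum_range_succ' _ (c + 1), add_comm]
  congr 1
  refine sum_congr rfl fun j _ => ?_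
  rw [Nat.add_sub_add_right, show g + (j + 1) = g + 1 + j by omega]

lemma MM_NN (F : F2 M) : MM R M (NN R M F) = MM R M F - F := by
  ext c g
  induction c generalizing g with
  | zero => simp [MM_zero]
  | succ c ih =>
    simp only [Pi.sub_apply] at ih ⊢
    rw [MM_succ, ih, MM_succ, NN_succ]; abel

lemma NN_aa_MM (F : F2 M) : NN R M (aa R M (MM R M F)) =
    (aa R M (MM R M F) - aa R M F) - Ec R M (aa R M (MM R M F) - aa R M F) := by
  ext c g
  cases c with
  | zero => simp
  | succ c => simp [MM_succ F (c + 1)]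

lemma NN_aa (F : F2 M) : NN R M (aa R M F) = aa R M (NN R M F) - Ec R M (aa R M (NN R M F)) := by
  ext c g
  cases c <;> simp

lemma aa_Ec (F : F2 M) : aa R M (Ec R M F) = 0 := rfl
lemma Ec_NN (F : F2 M) : Ec R M (NN R M F) = 0 := by
  ext c g; cases c <;> simp
lemma MM_Eg (F : F2 M) : MM R M (Eg R M F) = Eg R M F := by
  ext c g
  induction c generalizing g with
  | zero => simp [MM_zero]
  | succ c ih =>
    rw [MM_succ, ih]; simp

lemma MM_tel (F : F2 M) : MM R M (aa R M (row (L1 R M) F)) =
    MM R M F - MM R M (Ec R M F) + aa R M (row (L1 R M) F) := by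
  ext c g
  induction c generalizing g with
  | zero => simp [MM_zero]
  | succ c ih =>
    simp only [Pi.sub_apply, Pi.add_apply] at ih ⊢
    rw [MM_succ, ih, MM_succ F, MM_succ (Ec R M F)]
    simp; abel

lemma J_aa_MM (F : F2 M) : aa R M (MM R M F) - Eg R M (aa R M (MM R M F)) -
    aa R M (row (L1 R M) (aa R M (MM R M F))) =
    - aa R M (aa R M (row (L1 R M) F)) + Eg R M (0 : F2 M) := by
  ext c g
  cases g with
  | zero => simp
  | succ g => simp [MM_succ F (c + 1)]

lemma val_MM (w : Module.End R M) (F : F2 M) : MM R M (val w F) = val w (MM R M F) := by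
  ext c g; simp [MM_apply]
lemma val_aa (w : Module.End R M) (F : F2 M) : aa R M (val w F) = val w (aa R M F) := rfl
lemma val_Ec (w : Module.End R M) (F : F2 M) : Ec R M (val w F) = val w (Ec R M F) := by
  ext c g; cases c <;> simp
lemma val_Eg (w : Module.End R M) (F : F2 M) : Eg R M (val w F) = val w (Eg R M F) := by
  ext c g; cases g <;> simp
lemma val_L (w : Module.End R M) (F : F2 M) :
    row (L1 R M) (val w F) = val w (row (L1 R M) F) := by
  ext c g; cases g <;> simp
lemma val_K (w : Module.End R M) (F : F2 M) :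
    row (K1 R M) (val w F) = val w (row (K1 R M) F) := by
  ext c g; simp [K1_apply]
lemma val_D (ht : t ^ (N + 1) = 0) (w : Module.End R M) (F : F2 M) :
    row (D1 M t N) (val w F) = val w (row (D1 M t N) F) := by
  ext c g
  exact (congrFun (D1_nat ht w (F c)) g).symm
lemma row_aa (A : Module.End R (ℕ → M)) (F : F2 M) : row A (aa R M F) = aa R M (row A F) := rfl
lemma row_Ec (A : Module.End R (ℕ → M)) (F : F2 M) : row A (Ec R M F) = Ec R M (row A F) := by
  ext c g; cases c <;> simp
lemma Eg_aa (F : F2 M) : Eg R M (aa R M F) = aa R M (Eg R M F) := rfl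
lemma row_D (ht : t ^ (N + 1) = 0) (F : F2 M) :
    row (D1 M t N) F = F + t • row (K1 R M) (row (D1 M t N) F) := by
  ext1 c; exact D1_eq ht (F c)
lemma D_L (F : F2 M) :
    row (D1 M t N) (row (L1 R M) F) = row (L1 R M) (row (D1 M t N) F) := by
  ext1 c; exact (congrArg (fun A : Module.End R (ℕ → M) => A (F c)) (D1_comm KL_comm).eq).symm
lemma K_L (F : F2 M) :
    row (K1 R M) (row (L1 R M) F) = row (L1 R M) (row (K1 R M) F) := by
  ext1 c; exact (congrArg (fun A : Module.End R (ℕ → M) => A (F c)) (KL_comm (R := R)).eq).symm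
lemma D_K (F : F2 M) :
    row (D1 M t N) (row (K1 R M) F) = row (K1 R M) (row (D1 M t N) F) := by
  ext1 c
  exact (congrArg (fun A : Module.End R (ℕ → M) => A (F c))
    (D1_comm (Commute.refl (K1 R M))).eq).symm

end Pool.Agent.H134Z.Mac
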