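import Pool.Agent.H134Z.DcpB
import Pool.Agent.H134Z.MacAlg

set_option autoImplicit false

namespace Pool.Agent.H134Z.Dcp
open Finset Pool.Agent.H134Z.Mac

variable {R : Type} [CommRing R] {t : R} {N : ℕ}

def T1 (t : R) (N : ℕ) : Module.End R (ℕ → Bool → Bool → R) where
  toFun φ m f g := ∑ i ∈ (Opt N f m ×ˢ Opt N g m).filter (adm m),
    t ^ wt m i * φ (nm m i) (decide (i.1.2 = 0)) (decide (i.2.2 = 0))
  map_add' φ ψ := by ext m f g; simp [mul_add, sum_add_distrib]
  map_smul' r φ := by
    ext m f g; simp only [Pi.smul_apply, smul_eq_mul, RingHom.id_apply, mul_sum]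
    exact sum_congr rfl fun _ _ => by ring

lemma T1_apply (φ : ℕ → Bool → Bool → R) (m : ℕ) (f g : Bool) :
    T1 t N φ m f g = ∑ i ∈ (Opt N f m ×ˢ Opt N g m).filter (adm m),
      t ^ wt m i * φ (nm m i) (decide (i.1.2 = 0)) (decide (i.2.2 = 0)) := rfl

lemma sum_shift {V : Type} [AddCommMonoid V] (f : ℕ → V) (h : f (N + 1) = 0) :
    ∑ e ∈ range (N + 1), f e = f 0 + ∑ e ∈ range (N + 1), f (e + 1) := by
  have h1 := sum_range_succ f (N + 1)
  rw [h, add_zero] at h1
  rw [← h1, sum_range_succ', add_comm]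

lemma shift_sum (ht : t ^ (N + 1) = 0) (c : ℕ → R) (w : ℕ) :
    ∑ n ∈ range N, t ^ (n + 1) * (if w ≤ n then c (n - w) else 0) =
      t * (t ^ w * ∑ n ∈ range (N + 1), t ^ n * c n) := by
  have hz : ∀ n, N ≤ n → t ^ (n + 1) = 0 := fun n hn => pow_eq_zero_of_le (by omega) ht
  have h1 : ∑ n ∈ range N, t ^ (n + 1) * (if w ≤ n then c (n - w) else 0) =
      ∑ n ∈ range (w + (N + 1)), t ^ (n + 1) * (if w ≤ n then c (n - w) else 0) := by
    refine sum_subset (range_subset_range.2 (by omega)) fun n _ hn => ?_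
    rw [hz n (by simpa using hn), zero_mul]
  rw [h1, sum_range_add, sum_eq_zero, zero_add, mul_sum, mul_sum]
  · refine sum_congr rfl fun n _ => ?_
    rw [if_pos (by omega), Nat.add_sub_cancel_left]; ring
  · intro n hn
    rw [if_neg (by simpa using hn), mul_zero]

noncomputable def GG (t : R) (N : ℕ) : ℕ → Bool → Bool → R :=
  fun m f g => ∑ n ∈ range (N + 1), t ^ n * (cc n m f g : R)

lemma GG_eq (ht : t ^ (N + 1) = 0) : GG t N = (fun _ _ _ => 1) + t • T1 t N (GG t N) := by
  ext m f g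
  simp only [Pi.add_apply, Pi.smul_apply, smul_eq_mul, T1_apply]
  rw [GG, sum_range_succ', cc_zero, add_comm, mul_sum]
  congr 1
  · simp
  · simp only [GG, ← shift_sum ht]
    rw [sum_comm]
    refine sum_congr rfl fun n hn => ?_
    rw [cc_succ m f g (mem_range.1 hn).le, Idx, ← filter_filter, sum_filter (p := fun i => wt m i ≤ n)]
    push_cast
    rw [mul_sum]

noncomputable def Lam (t : R) (N : ℕ) : (ℕ → Bool → Bool → R) →ₗ[R] R where
  toFun φ := t * geo N (t • T1 t N) φ 0 false true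
  map_add' φ ψ := by simp [mul_add]
  map_smul' r φ := by simp; ring

lemma Lam_eq (ht : t ^ (N + 1) = 0) (φ : ℕ → Bool → Bool → R) :
    Lam t N φ = t * φ 0 false true + Lam t N (t • T1 t N φ) := by
  have h : geo N (t • T1 t N) (φ - t • T1 t N φ) = φ :=
    uniq ht _ (geo_apply ht _ _) (by abel)
  have h2 : Lam t N (φ - t • T1 t N φ) = t * φ 0 false true := by
    change t * _ = _
    rw [h]
  rw [← h2, map_sub]; abel

lemma Lam_one (ht : t ^ (N + 1) = 0) :
    Lam t N (fun _ _ _ => 1) = ∑ n ∈ range (N + 1), t ^ n * (dcp n : R) := by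
  have h := uniq ht _ (geo_apply ht (T1 t N) _) (GG_eq ht)
  change t * _ = _
  rw [h, sum_shift _ (by rw [ht, zero_mul]), GG, mul_sum, dcp_zero]
  simp only [dcp_succ, Nat.cast_zero, mul_zero, zero_add]
  exact sum_congr rfl fun _ _ => by ring

def bv (x1 x0 : R) (f : Bool) : R := if f then x1 else x0

def tf (s : R) (x y : Bool → R) : ℕ → Bool → Bool → R := fun m f g => s ^ (m + 1) * x f * y g

def nx (t z : R) (N : ℕ) (x : Bool → R) (f : Bool) : R := x true +
  if f then ∑ l ∈ range N, (t ^ (l + 1) * z ^ (l + 1) * x true + t ^ (l + 1) * z ^ l * x false)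
  else 0

def Gam (z : R) (j : ℕ) : R := ∑ e ∈ range j, z ^ (j - e)

lemma Gam_eq (z : R) (j : ℕ) : (1 - z) * Gam z j = z - z ^ (j + 1) := by
  induction j with
  | zero => simp [Gam]
  | succ j ih =>
    have : Gam z (j + 1) = Gam z j + z ^ (j + 1) := by
      simp only [Gam, sum_range_succ', Nat.add_sub_add_right, Nat.sub_zero]
    rw [this]; linear_combination ih

lemma T1_tf (s : R) (x y : Bool → R) (m : ℕ) (f g : Bool) :
    t * T1 t N (tf s x y) m f g = (t * s) ^ (m + 2) * nx t (t * s) N x f * nx t (t * s) N y g +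
      Gam (t * s) (m + 1) * (nx t (t * s) N x f * y false + x false * nx t (t * s) N y g) +
      (∑ e ∈ range (m + 1), Gam (t * s) (m - e)) * x false * y false := by
  set z := t * s with hz
  let H : ℕ × ℕ → ℕ × ℕ → R := fun o o' => if adm m (o, o') then
    t ^ (o.1 + o'.1) * z ^ (nm m (o, o') + 1) * x (decide (o.2 = 0)) * y (decide (o'.2 = 0)) else 0
  have h0 : t * T1 t N (tf s x y) m f g = ∑ o ∈ Opt N f m, ∑ o' ∈ Opt N g m, H o o' := by
    rw [T1_apply, sum_filter, sum_product, mul_sum]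
    refine sum_congr rfl fun o _ => ?_
    rw [mul_sum]
    refine sum_congr rfl fun o' _ => ?_
    simp only [H]
    split_ifs
    · simp only [tf, wt, hz, mul_pow]; ring
    · simp
  have hH : ∀ (l e r e' j : ℕ), j + e + e' = m + 1 + l + r → H (l, e) (r, e') =
      t ^ (l + r) * z ^ (j + 1) * x (decide (e = 0)) * y (decide (e' = 0)) := by
    intro l e r e' j h
    simp only [H]
    rw [if_pos (by simp only [adm]; omega), show nm m ((l, e), r, e') = j by simp only [nm]; omega]
  have hin : ∀ (l e j : ℕ), j + e = m + 1 + l → ∑ o' ∈ Opt N g m, H (l, e) o' =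
      t ^ l * x (decide (e = 0)) * z ^ (j + 1) * nx t z N y g +
        ∑ e' ∈ range (m + 1), H (l, e) (0, e' + 1) := by
    intro l e j h
    rw [sum_Opt, add_right_comm, hH l e 0 0 j (by omega), nx]
    congr 1
    cases g
    · simp; ring
    · simp only [if_true, mul_add, mul_sum]
      congr 1
      · simp; ring
      · refine sum_congr rfl fun r _ => ?_
        rw [hH l e (r + 1) 0 (j + (r + 1)) (by omega), hH l e (r + 1) 1 (j + r) (by omega)]
        simp; ring
  have hneg : ∀ (e d : ℕ), ∑ o' ∈ Opt N g m, H (e + d, e) o' =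
      t ^ (e + d) * z ^ d * x (decide (e = 0)) *
        (z ^ (m + 2) * nx t z N y g + Gam z (m + 1) * y false) := by
    intro e d
    rw [hin (e + d) e (m + 1 + d) (by omega), mul_add, Gam, sum_mul, mul_sum]
    congr 1
    · ring
    · refine sum_congr rfl fun e' he' => ?_
      have := mem_range.1 he'
      rw [hH (e + d) e 0 (e' + 1) (d + (m - e')) (by omega),
        show m + 1 - e' = m - e' + 1 by omega]
      simp; ring
  have hpos : ∀ e ∈ range (m + 1), ∑ o' ∈ Opt N g m, H (0, e + 1) o' =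
      x false * (z ^ (m + 1 - e) * nx t z N y g + Gam z (m - e) * y false) := by
    intro e he
    have := mem_range.1 he
    rw [hin 0 (e + 1) (m - e) (by omega), mul_add, show m + 1 - e = m - e + 1 by omega]
    congr 1
    · simp; ring
    · rw [Gam, sum_mul, mul_sum]
      symm
      refine sum_subset_zero_on_sdiff (range_subset_range.2 (by omega)) (fun e' he' => ?_)
        fun e' he' => ?_
      · rw [mem_sdiff, mem_range, mem_range] at he'
        exact if_neg (by simp only [adm]; omega)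
      · have := mem_range.1 he'
        rw [hH 0 (e + 1) 0 (e' + 1) (m - e - e' - 1) (by omega),
          show m - e - e' - 1 + 1 = m - e - e' by omega]
        simp; ring
  have a0 := hneg 0 0
  have a1 : ∀ l, ∑ o' ∈ Opt N g m, H (l + 1, 0) o' = _ := fun l => by
    simpa only [zero_add] using hneg 0 (l + 1)
  have a2 : ∀ l, ∑ o' ∈ Opt N g m, H (l + 1, 1) o' = _ := fun l => by
    simpa only [add_comm 1 l] using hneg 1 l
  rw [h0, sum_Opt, sum_congr rfl hpos, a0]
  simp only [a1, a2]
  rw [← mul_sum, sum_add_distrib, ← sum_mul, ← sum_mul]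
  change _ + x false * (Gam z (m + 1) * _ + _) + _ = _
  generalize nx t z N y g = Y
  rw [nx]
  cases f
  · simp; ring
  · simp only [if_true, ← add_mul, ← sum_mul]
    simp; ring

lemma nx_eq (ht : t ^ (N + 1) = 0) {z i' : R} (hi' : (1 - t * z) * i' = 1) (x1 x0 : R) :
    nx t z N (bv x1 x0) = bv ((x1 + t * x0) * i') x1 := by
  have h1 : ∑ l ∈ range N, t ^ (l + 1) * z ^ l = t * i' := by
    have h2 := mul_neg_geom_sum (t * z) N
    have h3 : ∑ l ∈ range N, t ^ (l + 1) * z ^ l = t * ∑ l ∈ range N, (t * z) ^ l := by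
      rw [mul_sum]; exact sum_congr rfl fun _ _ => by ring
    have h4 : t * (t * z) ^ N = 0 := by
      rw [mul_pow, ← mul_assoc, ← pow_succ', ht, zero_mul]
    rw [h3]
    linear_combination t * i' * h2 - i' * h4 - t * (∑ l ∈ range N, (t * z) ^ l) * hi'
  ext f
  cases f
  · simp [nx, bv]
  · have : ∑ l ∈ range N, (t ^ (l + 1) * z ^ (l + 1) * x1 + t ^ (l + 1) * z ^ l * x0) =
        (∑ l ∈ range N, t ^ (l + 1) * z ^ l) * (z * x1 + x0) := by
      rw [sum_mul]; exact sum_congr rfl fun _ _ => by ring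
    simp only [nx, bv, if_true, Bool.false_eq_true, if_false, this, h1]
    linear_combination (-x1) * hi'

noncomputable def BB (t : R) (N : ℕ) (s x1 x0 y1 y0 : R) : R :=
  Lam t N (tf s (bv x1 x0) (bv y1 y0))

noncomputable def Ap (t : R) (N : ℕ) : R := Lam t N fun m _ _ => (m : R) + 1

lemma BB_lin (s x1 x0 y1 y0 : R) : BB t N s x1 x0 y1 y0 =
    x1 * y1 * BB t N s 1 0 1 0 + x1 * y0 * BB t N s 1 0 0 1 + x0 * y1 * BB t N s 0 1 1 0 +
      x0 * y0 * BB t N s 0 1 0 1 := by
  simp only [BB, ← smul_eq_mul, ← map_smul, ← map_add]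
  congr 1
  ext m f g
  cases f <;> cases g <;> simp [tf, bv] <;> ring

lemma master (ht : t ^ (N + 1) = 0) {s i i' : R} (hi : (1 - t * s) * i = 1)
    (hi' : (1 - t * (t * s)) * i' = 1) (x1 x0 y1 y0 : R) :
    BB t N s x1 x0 y1 y0 = t * s * x0 * y1 +
      t * s * BB t N (t * s) ((x1 + t * x0) * i' - i * x0) (x1 - i * x0)
        ((y1 + t * y0) * i' - i * y0) (y1 - i * y0) +
      t * s * i * y0 * BB t N 1 ((x1 + t * x0) * i') x1 1 1 +
      t * s * i * x0 * BB t N 1 1 1 ((y1 + t * y0) * i') y1 -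
      x0 * y0 * (t * s) * i ^ 2 * BB t N 1 1 1 1 1 + x0 * y0 * (t * s) * i * Ap t N := by
  have hG : ∀ j, Gam (t * s) j = (t * s - (t * s) ^ (j + 1)) * i := fun j => by
    linear_combination i * Gam_eq (t * s) j - Gam (t * s) j * hi
  have hD : ∀ m : ℕ, ∑ e ∈ range (m + 1), Gam (t * s) (m - e) =
      ((m + 1) * (t * s) - Gam (t * s) (m + 1)) * i := by
    intro m
    simp only [hG (m - _), ← sum_mul, sum_sub_distrib, sum_const, card_range, nsmul_eq_mul]
    congr 2
    · push_cast; ring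
    · refine sum_congr rfl fun e he => ?_
      rw [show m - e + 1 = m + 1 - e by have := mem_range.1 he; omega]
  rw [BB, Lam_eq ht, add_sub_assoc, add_assoc, add_assoc, add_assoc]
  congr 1
  · simp [tf, bv]; ring
  · simp only [BB, Ap, ← smul_eq_mul, ← map_smul (Lam t N), ← map_add, ← map_sub]
    congr 1
    ext m f g
    simp only [Pi.smul_apply, Pi.add_apply, Pi.sub_apply, smul_eq_mul, T1_tf, nx_eq ht hi', hD]
    simp only [hG]
    cases f <;> cases g <;> simp [tf, bv] <;> ring

end Pool.Agent.H134Z.Dcp
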