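import Pool.Agent.H134Z.DcpC

set_option autoImplicit false

namespace Pool.Agent.H134Z.Dcp
open Finset Pool.Agent.H134Z.Mac

variable {R : Type} [CommRing R] {t : R} {N : ℕ}

noncomputable def AA (t : R) (N : ℕ) : R := BB t N 1 1 1 1 1
noncomputable def WW (t : R) (N : ℕ) : R := BB t N 1 1 0 1 1 + BB t N 1 1 1 1 0
noncomputable def al (t : R) (N : ℕ) (s i : R) : R := BB t N s ((1 - t) * i) 1 ((1 - t) * i) 1
noncomputable def sg (t : R) (N : ℕ) (s i : R) : R :=
  BB t N s 0 1 ((1 - t) * i) 1 + BB t N s ((1 - t) * i) 1 0 1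

section eqs
variable (ht : t ^ (N + 1) = 0) {s i i' : R} (hi : (1 - t * s) * i = 1)
  (hi' : (1 - t * (t * s)) * i' = 1)
include hi hi'

lemma aux1 : ((1 - t) * i + t * 1) * i' = i := by
  linear_combination i * hi' - t * i' * hi
lemma aux2 : (0 + t * 1) * i' - i * 1 = -i * ((1 - t) * i') := by
  linear_combination i * hi' - t * i' * hi

include ht

lemma eq_al : al t N s i = t ^ 2 * (t * s) * i ^ 2 * BB t N (t * s) 0 1 0 1 +
    t * s * (1 - t) * i + t * s * i ^ 2 * ((1 - 2 * t) * AA t N + t * WW t N) +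
    t * s * i * Ap t N := by
  rw [al, master ht hi hi', aux1 hi hi', AA, WW, BB_lin (t * s), BB_lin 1 i, BB_lin 1 1 1 i,
    BB_lin 1 1 1 1 1, BB_lin 1 1 0 1 1, BB_lin 1 1 1 1 0]
  ring

lemma eq_be : BB t N s 0 1 0 1 = t * s * i ^ 2 * al t N (t * s) i' +
    t * s * i * (t * i') * WW t N - t * s * i ^ 2 * AA t N + t * s * i * Ap t N := by
  rw [master ht hi hi', aux2 hi hi', al, AA, WW, BB_lin (t * s), BB_lin (t * s) ((1 - t) * i'),
    BB_lin 1 ((0 + t * 1) * i'), BB_lin 1 1 1 ((0 + t * 1) * i'),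
    BB_lin 1 1 0 1 1, BB_lin 1 1 1 1 0]
  ring

lemma eq_sg : sg t N s i = t * (t * s) * i ^ 2 * sg t N (t * s) i' + t * s * (1 - t) * i -
    t * (t * s) * i ^ 2 * (2 * AA t N - WW t N) + t * s * i * (t * i') * WW t N +
    2 * (t * s) * i * Ap t N := by
  rw [sg, master ht hi hi', master ht hi hi' ((1 - t) * i), aux1 hi hi', aux2 hi hi', sg, AA, WW,
    BB_lin (t * s) (-i * ((1 - t) * i')), BB_lin (t * s) (i - i * 1),
    BB_lin (t * s) 0 1 ((1 - t) * i'), BB_lin (t * s) ((1 - t) * i') 1 0 1,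
    BB_lin 1 ((0 + t * 1) * i'), BB_lin 1 1 1 ((0 + t * 1) * i'), BB_lin 1 i, BB_lin 1 1 1 i,
    BB_lin 1 1 1 1 1, BB_lin 1 1 0 1 1, BB_lin 1 1 1 1 0]
  ring
end eqs

noncomputable def xi (t : R) (N : ℕ) (s i : R) : R :=
  al t N s i + Ap t N * (1 - s) - AA t N + t * WW t N - WW t N * (1 - t) * (t * s) * i

noncomputable def ze (t : R) (N : ℕ) (s i : R) : R :=
  sg t N s i - 2 * AA t N + WW t N + (1 - s) * i * WW t N

lemma stepI (ht : t ^ (N + 1) = 0) {s i0 i1 i2 : R} (h0 : (1 - t * s) * i0 = 1)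
    (h1 : (1 - t * (t * s)) * i1 = 1) (h2 : (1 - t * (t * (t * s))) * i2 = 1) :
    xi t N s i0 - t * (t * s) * i0 ^ 2 * (t * (t * (t * s)) * i1 ^ 2) * xi t N (t * (t * s)) i2 =
      s * i0 ^ 2 * (t * ((1 - 2 * t) * AA t N + t * WW t N +
        (1 - t * s) * (Ap t N + (1 - t) * (1 - WW t N)))) +
      (Ap t N * (1 - s) - AA t N + t * WW t N) := by
  have e1 := eq_al ht h0 h1
  have e2 := eq_be ht h1 h2
  have e3 := aux2 h1 h2
  unfold xi
  linear_combination e1 + t ^ 2 * (t * s) * i0 ^ 2 * e2 -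
    t * s * i0 * (Ap t N + (1 - t) * (1 - WW t N)) * h0 -
    t ^ 2 * (t * s) * i0 ^ 2 * (t * (t * s)) * i1 * Ap t N * h1 +
    t ^ 2 * (t * s) * i0 ^ 2 * (t * (t * s)) * i1 * t * WW t N * (i1 * h2 - i2 * h1)

lemma stepIII (ht : t ^ (N + 1) = 0) {s i i' : R} (h0 : (1 - t * s) * i = 1)
    (h1 : (1 - t * (t * s)) * i' = 1) :
    ze t N s i - t * (t * s) * i ^ 2 * ze t N (t * s) i' = -2 * (AA t N - WW t N) +
      s * i * (2 * t * Ap t N + t * (1 - t) - (1 - t) * WW t N) := by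
  have e1 := eq_sg ht h0 h1
  unfold ze
  linear_combination e1 - t * (t * s) * i * i' * WW t N * h0 + WW t N * h0

lemma tele (u ξ r I : ℕ → R) (hu : ∀ k, u (k + 1) = u k * r k)
    (h : ∀ k, ξ k - r k * ξ (k + 1) = I k) (K : ℕ) :
    ∑ k ∈ range K, u k * I k = u 0 * ξ 0 - u K * ξ K := by
  induction K with
  | zero => simp
  | succ K ih => rw [sum_range_succ, ih, hu, ← h]; ring

def kap (t s : R) (iv : ℕ → R) (n : ℕ) : R := ∏ j ∈ range n, (t * (t * (t ^ j * s)) * iv j ^ 2)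

lemma kap_succ (s : R) (iv : ℕ → R) (n : ℕ) :
    kap t s iv (n + 1) = kap t s iv n * (t * (t * (t ^ n * s)) * iv n ^ 2) := prod_range_succ _ _

lemma kap_zero (ht : t ^ (N + 1) = 0) (s : R) (iv : ℕ → R) {n : ℕ} (hn : N + 1 ≤ n) :
    kap t s iv n = 0 := by
  have : kap t s iv n = t ^ n * ∏ j ∈ range n, ((t * (t ^ j * s)) * iv j ^ 2) := by
    simp only [kap, mul_assoc t, prod_mul_distrib (f := fun _ => t), prod_const, card_range]
  rw [this, pow_eq_zero_of_le hn ht, zero_mul]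

lemma sumI (ht : t ^ (N + 1) = 0) (s : R) (iv : ℕ → R)
    (hiv : ∀ j, (1 - t * (t ^ j * s)) * iv j = 1) :
    ∑ k ∈ range (N + 1), kap t s iv (2 * k) *
      (t ^ (2 * k) * s * iv (2 * k) ^ 2 * (t * ((1 - 2 * t) * AA t N + t * WW t N +
        (1 - t * (t ^ (2 * k) * s)) * (Ap t N + (1 - t) * (1 - WW t N)))) +
      (Ap t N * (1 - t ^ (2 * k) * s) - AA t N + t * WW t N)) = xi t N s (iv 0) := by
  rw [tele (fun k => kap t s iv (2 * k)) (fun k => xi t N (t ^ (2 * k) * s) (iv (2 * k)))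
    (fun k => t * (t * (t ^ (2 * k) * s)) * iv (2 * k) ^ 2 *
      (t * (t * (t * (t ^ (2 * k) * s))) * iv (2 * k + 1) ^ 2))]
  · rw [kap_zero ht s iv (show N + 1 ≤ 2 * (N + 1) by omega)]
    simp [kap]
  · intro k
    rw [show 2 * (k + 1) = 2 * k + 1 + 1 by omega, kap_succ, kap_succ]; ring
  · intro k
    have e1 := hiv (2 * k + 1)
    have e2 := hiv (2 * (k + 1))
    have e3 : t ^ (2 * (k + 1)) * s = t * (t * (t ^ (2 * k) * s)) := by ring
    rw [show t ^ (2 * k + 1) * s = t * (t ^ (2 * k) * s) by ring] at e1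
    rw [e3] at e2 ⊢
    exact stepI ht (hiv _) e1 e2

lemma sumIII (ht : t ^ (N + 1) = 0) (iv : ℕ → R) (hiv : ∀ j, (1 - t * (t ^ j * 1)) * iv j = 1) :
    ∑ k ∈ range (N + 1), kap t 1 iv k * (-2 * (AA t N - WW t N) +
      t ^ k * 1 * iv k * (2 * t * Ap t N + t * (1 - t) - (1 - t) * WW t N)) = 0 := by
  rw [tele (fun k => kap t 1 iv k) (fun k => ze t N (t ^ k * 1) (iv k))
    (fun k => t * (t * (t ^ k * 1)) * iv k ^ 2) _ (kap_succ 1 iv)]
  · rw [kap_zero ht 1 iv le_rfl]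
    have h0 : (1 - t) * iv 0 = 1 := by simpa using hiv 0
    simp only [kap, range_zero, prod_empty, pow_zero, mul_one, one_mul, zero_mul, sub_zero, ze, sg,
      h0, AA, WW]
    rw [BB_lin 1 0 1 1 1, BB_lin 1 1 1 0 1, BB_lin 1 1 1 1 1, BB_lin 1 1 0 1 1, BB_lin 1 1 1 1 0]
    ring
  · intro k
    have e1 := hiv (k + 1)
    have e3 : t ^ (k + 1) * 1 = t * (t ^ k * 1) := by ring
    rw [e3] at e1 ⊢
    exact stepIII ht (hiv _) e1

lemma xi_eps {ε i : R} (hε : ε * ε = 0) (hi : (1 - t) * i = 1) :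
    xi t N (1 + ε) (i + ε * t * i ^ 2) = 0 := by
  have h1 : (1 - t) * (i + ε * t * i ^ 2) = 1 + ε * t * i := by
    linear_combination (1 + ε * t * i) * hi
  have h2 : al t N (1 + ε) (i + ε * t * i ^ 2) = AA t N + ε * Ap t N + ε * t * i * WW t N := by
    rw [al, h1]
    simp only [AA, Ap, WW, BB, ← smul_eq_mul, ← map_smul, ← map_add]
    congr 1
    ext m f g
    have h3 : (1 + ε) ^ (m + 1) = 1 + (m + 1) * ε := by
      induction m with
      | zero => simp
      | succ m ih => rw [pow_succ, ih]; push_cast; linear_combination ((m : R) + 1) * hε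
    simp only [tf, h3, Pi.add_apply, Pi.smul_apply, smul_eq_mul, one_pow]
    cases f <;> cases g <;> simp only [bv, if_true, Bool.false_eq_true, if_false]
    · ring
    · linear_combination ((m : R) + 1) * t * i * hε
    · linear_combination ((m : R) + 1) * t * i * hε
    · linear_combination (2 * ((m : R) + 1) * t * i + t ^ 2 * i ^ 2 * (1 + (m + 1) * ε)) * hε
  rw [xi, h2, mul_assoc (WW t N * (1 - t)), mul_comm (t * (1 + ε)), ← mul_assoc,
    mul_assoc (WW t N), h1]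
  linear_combination -(WW t N * t * t * i) * hε + WW t N * ε * t * hi

def hR (t : R) (iv : ℕ → R) (n : ℕ) : R := n + 2 * ∑ j ∈ range n, t ^ (j + 1) * iv j

lemma hR_succ (iv : ℕ → R) (n : ℕ) : hR t iv (n + 1) = hR t iv n + 1 + 2 * (t ^ (n + 1) * iv n) := by
  simp only [hR, sum_range_succ]; push_cast; ring

lemma kap_eps {ε : R} (hε : ε * ε = 0) (iv : ℕ → R) (n : ℕ) :
    kap t (1 + ε) (fun j => iv j + ε * t ^ (j + 1) * iv j ^ 2) n =
      kap t 1 iv n * (1 + ε * hR t iv n) := by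
  induction n with
  | zero => simp [kap, hR]
  | succ n ih =>
    rw [kap_succ, kap_succ, ih, hR_succ]
    generalize hR t iv n = h
    generalize kap t 1 iv n = κ
    have e : (iv n + ε * t ^ (n + 1) * iv n ^ 2) ^ 2 =
        iv n ^ 2 * (1 + 2 * ε * t ^ (n + 1) * iv n) := by
      linear_combination (t ^ (n + 1) * iv n ^ 2) ^ 2 * hε
    rw [e]
    linear_combination κ * t ^ (n + 2) * iv n ^ 2 *
      (h + 2 * t ^ (n + 1) * iv n * (1 + h + ε * h)) * hε

/-- the three linear equations -/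
theorem core (ht : t ^ (N + 1) = 0) {ε : R} (hε : ε * ε = 0) (iv : ℕ → R)
    (hiv : ∀ j, (1 - t ^ (j + 1)) * iv j = 1) (u v θ : ℕ → R)
    (hu : ∀ k, u k = kap t 1 iv (2 * k)) (hv : ∀ k, v k = u k * t ^ (2 * k) * iv (2 * k) ^ 2)
    (hθ : ∀ k, θ k = kap t 1 iv k * t ^ k * iv k)
    (p0 p1 r0 r1 p0d p1d r0d r1d S T : R)
    (hp0 : p0 = ∑ k ∈ range (N + 1), u k) (hp1 : p1 = ∑ k ∈ range (N + 1), v k)
    (hr0 : r0 = ∑ k ∈ range (N + 1), u k * (1 - t ^ (2 * k)))
    (hr1 : r1 = ∑ k ∈ range (N + 1), v k * (1 - t ^ (2 * k + 1)))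
    (hp0d : p0d = ∑ k ∈ range (N + 1), u k * hR t iv (2 * k))
    (hp1d : p1d = ∑ k ∈ range (N + 1), v k * hR t iv (2 * k + 1))
    (hr0d : r0d = ∑ k ∈ range (N + 1), u k * (hR t iv (2 * k) * (1 - t ^ (2 * k)) - t ^ (2 * k)))
    (hr1d : r1d = ∑ k ∈ range (N + 1),
      v k * (hR t iv (2 * k + 1) * (1 - t ^ (2 * k + 1)) - t ^ (2 * k + 1)))
    (hS : S = ∑ k ∈ range (N + 1), kap t 1 iv k) (hT : T = ∑ k ∈ range (N + 1), θ k) :
    ε * ((∑ n ∈ range (N + 1), t ^ n * (dcp n : R)) * Matrix.det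
      !![t * (1 - 2 * t) * p1 - p0, t ^ 2 * p1 + t * p0 - t * (1 - t) * r1, t * r1 + r0;
        t * (1 - 2 * t) * p1d - p0d, t ^ 2 * p1d + t * p0d - t * (1 - t) * r1d, t * r1d + r0d;
        -2 * S, 2 * S - (1 - t) * T, 2 * t * T] - Matrix.det
      !![t ^ 2 * p1 + t * p0 - t * (1 - t) * r1, t * (1 - t) * r1, t * r1 + r0;
        t ^ 2 * p1d + t * p0d - t * (1 - t) * r1d, t * (1 - t) * r1d, t * r1d + r0d;
        2 * S - (1 - t) * T, t * (1 - t) * T, 2 * t * T]) = 0 := by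
  have hA : ∑ n ∈ range (N + 1), t ^ n * (dcp n : R) = AA t N := by
    rw [← Lam_one ht, AA, BB]
    congr 1
    ext m f g
    cases f <;> cases g <;> simp [tf, bv]
  have hi0 : (1 - t) * iv 0 = 1 := by simpa using hiv 0
  have hiv1 : ∀ j, (1 - t * (t ^ j * 1)) * iv j = 1 := fun j => by
    linear_combination hiv j
  have hiv2 : ∀ j, (1 - t * (t ^ j * (1 + ε))) * (iv j + ε * t ^ (j + 1) * iv j ^ 2) = 1 :=
    fun j => by
      linear_combination (1 + ε * t ^ (j + 1) * iv j) * hiv j -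
        (t ^ (j + 1)) ^ 2 * iv j ^ 2 * hε
  have s1 := sumI ht 1 iv hiv1
  have s2 := sumI ht (1 + ε) _ hiv2
  have s3 := sumIII ht iv hiv1
  have x1 := xi_eps (N := N) (mul_zero (0 : R)) hi0
  have x2 := xi_eps (N := N) hε hi0
  simp only [zero_mul, add_zero] at x1
  rw [x1] at s1
  rw [zero_add, pow_one, x2] at s2
  set A := AA t N
  set W := WW t N
  set A' := Ap t N
  have E1 : (t * (1 - 2 * t) * p1 - p0) * A + (t ^ 2 * p1 + t * p0 - t * (1 - t) * r1) * W +
      (t * r1 + r0) * A' + t * (1 - t) * r1 = 0 := by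
    rw [← s1, hp0, hp1, hr0, hr1]
    conv_lhs =>
      simp only [mul_sum, sum_mul, ← sum_add_distrib, ← sum_sub_distrib, add_mul, sub_mul]
    refine sum_congr rfl fun k _ => ?_
    rw [hv, hu]; ring
  have E2 : ε * ((t * (1 - 2 * t) * p1d - p0d) * A +
      (t ^ 2 * p1d + t * p0d - t * (1 - t) * r1d) * W +
      (t * r1d + r0d) * A' + t * (1 - t) * r1d) = 0 := by
    refine Eq.trans ?_ (sub_eq_zero.2 (s2.trans s1.symm))
    rw [hp0d, hp1d, hr0d, hr1d, ← sum_sub_distrib]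
    conv_lhs =>
      simp only [mul_sum, sum_mul, ← sum_add_distrib, ← sum_sub_distrib, add_mul, sub_mul]
    refine sum_congr rfl fun k _ => ?_
    rw [hv, hu, kap_eps hε, hR_succ]
    have e : (iv (2 * k) + ε * t ^ (2 * k + 1) * iv (2 * k) ^ 2) ^ 2 =
        iv (2 * k) ^ 2 * (1 + 2 * ε * t ^ (2 * k + 1) * iv (2 * k)) := by
      linear_combination (t ^ (2 * k + 1) * iv (2 * k) ^ 2) ^ 2 * hε
    rw [e, pow_succ t (2 * k)]
    generalize hR t iv (2 * k) = h
    generalize kap t 1 iv (2 * k) = κ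
    generalize t ^ (2 * k) = w
    generalize iv (2 * k) = i
    linear_combination (-(κ * w * i ^ 2 * t *
      ((h + 2 * w * t * i * (h + 1)) * ((1 - 2 * t) * A + t * W +
          (1 - t * w) * (A' + (1 - t) * (1 - W))) -
        (h + 1 + 2 * w * t * i) * (t * w * (A' + (1 - t) * (1 - W))) +
        ε * (h * (2 * w * t * i) * ((1 - 2 * t) * A + t * W +
          (1 - t * w) * (A' + (1 - t) * (1 - W))) -
          (h + 2 * w * t * i * (h + 1)) * (t * w * (A' + (1 - t) * (1 - W)))) -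
        ε ^ 2 * (h * (2 * w * t * i)) * (t * w * (A' + (1 - t) * (1 - W)))) -
      κ * h * w * A')) * hε
  have E3 : -2 * S * A + (2 * S - (1 - t) * T) * W + 2 * t * T * A' + t * (1 - t) * T = 0 := by
    rw [← s3, hS, hT]
    simp only [mul_sum, sum_mul, ← sum_add_distrib, ← sum_sub_distrib, add_mul, sub_mul]
    refine sum_congr rfl fun k _ => ?_
    rw [hθ]; ring
  rw [hA]
  simp only [Matrix.det_fin_three, Matrix.of_apply, Matrix.cons_val', Matrix.cons_val_zero,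
    Matrix.cons_val_one, Matrix.cons_val_two, Matrix.cons_val_fin_one, Matrix.head_cons,
    Matrix.tail_cons, Matrix.head_fin_const]
  generalize t * (1 - 2 * t) * p1 - p0 = a1 at *
  generalize t ^ 2 * p1 + t * p0 - t * (1 - t) * r1 = b1 at *
  generalize t * r1 + r0 = c1 at *
  generalize t * (1 - t) * r1 = d1 at *
  generalize t * (1 - 2 * t) * p1d - p0d = a2 at *
  generalize t ^ 2 * p1d + t * p0d - t * (1 - t) * r1d = b2 at *
  generalize t * r1d + r0d = c2 at *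
  generalize t * (1 - t) * r1d = d2 at *
  generalize -2 * S = a3 at *
  generalize 2 * S - (1 - t) * T = b3 at *
  generalize 2 * t * T = c3 at *
  generalize t * (1 - t) * T = d3 at *
  linear_combination ε * (b2 * c3 - c2 * b3) * E1 - (b1 * c3 - c1 * b3) * E2 +
    ε * (b1 * c2 - c1 * b2) * E3

end Pool.Agent.H134Z.Dcp
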