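import Mathlib

set_option autoImplicit false

namespace Pool.Agent.H134Z.Dcp
open Finset PowerSeries

/-- unit horizontal or vertical step -/
def Adj (p q : ℤ × ℤ) : Prop := |p.1 - q.1| + |p.2 - q.2| = 1

/-- any two points of `A` are joined by unit steps inside `A` -/
def Conn (A : Finset (ℤ × ℤ)) : Prop :=
  ∀ p ∈ A, ∀ q ∈ A, Relation.ReflTransGen (fun u v => u ∈ A ∧ v ∈ A ∧ Adj u v) p q

/-- on each line `x + y = k` the points of `A` are consecutive -/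
def DConv (A : Finset (ℤ × ℤ)) : Prop :=
  ∀ p ∈ A, ∀ q ∈ A, p.1 + p.2 = q.1 + q.2 →
    ∀ x : ℤ, p.1 ≤ x → x ≤ q.1 → (x, p.1 + p.2 - x) ∈ A

/-- the translation class of `A` -/
def cls (A : Finset (ℤ × ℤ)) : Set (Finset (ℤ × ℤ)) := {B | ∃ v : ℤ × ℤ, B = A.image (· + v)}

/-- number of diagonally convex polyominoes of area `n`, up to translation -/
noncomputable def dcp (n : ℕ) : ℕ :=
  Set.ncard {C : Set (Finset (ℤ × ℤ)) |
    ∃ A : Finset (ℤ × ℤ), A.Nonempty ∧ A.card = n ∧ Conn A ∧ DConv A ∧ C = cls A}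

/-- the sum of a sequence of power series whose `k`-th term is divisible by `X ^ k` -/
noncomputable def qsum (f : ℕ → ℚ⟦X⟧) : ℚ⟦X⟧ :=
  PowerSeries.mk fun N => coeff N (∑ k ∈ range (N + 1), f k)

/-- `(q;q)_n` -/
noncomputable def poch (n : ℕ) : ℚ⟦X⟧ := ∏ j ∈ range n, (1 - X ^ (j + 1))

noncomputable def uu (k : ℕ) : ℚ⟦X⟧ := X ^ (k * (2 * k + 3)) * (poch (2 * k) ^ 2)⁻¹
noncomputable def vv (k : ℕ) : ℚ⟦X⟧ := X ^ (k * (2 * k + 5)) * (poch (2 * k + 1) ^ 2)⁻¹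
noncomputable def hh (n : ℕ) : ℚ⟦X⟧ :=
  n + 2 * ∑ j ∈ range n, X ^ (j + 1) * (1 - X ^ (j + 1))⁻¹

noncomputable def P0 : ℚ⟦X⟧ := qsum uu
noncomputable def P1 : ℚ⟦X⟧ := qsum vv
noncomputable def R0 : ℚ⟦X⟧ := qsum fun k => uu k * (1 - X ^ (2 * k))
noncomputable def R1 : ℚ⟦X⟧ := qsum fun k => vv k * (1 - X ^ (2 * k + 1))
noncomputable def P0d : ℚ⟦X⟧ := qsum fun k => uu k * hh (2 * k)
noncomputable def P1d : ℚ⟦X⟧ := qsum fun k => vv k * hh (2 * k + 1)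
noncomputable def R0d : ℚ⟦X⟧ :=
  qsum fun k => uu k * (hh (2 * k) * (1 - X ^ (2 * k)) - X ^ (2 * k))
noncomputable def R1d : ℚ⟦X⟧ :=
  qsum fun k => vv k * (hh (2 * k + 1) * (1 - X ^ (2 * k + 1)) - X ^ (2 * k + 1))
noncomputable def SS : ℚ⟦X⟧ := qsum fun n => X ^ (n * (n + 3) / 2) * (poch n ^ 2)⁻¹
noncomputable def TT : ℚ⟦X⟧ := qsum fun n => X ^ (n * (n + 5) / 2) * (poch n * poch (n + 1))⁻¹

noncomputable def Den : ℚ⟦X⟧ := Matrix.det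
  !![X * (1 - 2 * X) * P1 - P0, X ^ 2 * P1 + X * P0 - X * (1 - X) * R1, X * R1 + R0;
     X * (1 - 2 * X) * P1d - P0d, X ^ 2 * P1d + X * P0d - X * (1 - X) * R1d, X * R1d + R0d;
     -2 * SS, 2 * SS - (1 - X) * TT, 2 * X * TT]

noncomputable def Num : ℚ⟦X⟧ := Matrix.det
  !![X ^ 2 * P1 + X * P0 - X * (1 - X) * R1, X * (1 - X) * R1, X * R1 + R0;
     X ^ 2 * P1d + X * P0d - X * (1 - X) * R1d, X * (1 - X) * R1d, X * R1d + R0d;
     2 * SS - (1 - X) * TT, X * (1 - X) * TT, 2 * X * TT]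

end Pool.Agent.H134Z.Dcp
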