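import Pool.Agent.H134Z.DcpD

set_option autoImplicit false

namespace Pool.Agent.H134Z.Dcp
open Finset PowerSeries

noncomputable def ivP (j : ℕ) : ℚ⟦X⟧ := (1 - X ^ (j + 1))⁻¹

lemma ivP_mul (j : ℕ) : (1 - X ^ (j + 1)) * ivP j = 1 :=
  PowerSeries.mul_inv_cancel _ (by simp)

lemma poch_inv (n : ℕ) : (poch n)⁻¹ = ∏ j ∈ range n, ivP j := by
  induction n with
  | zero => simp [poch]
  | succ n ih => rw [poch, prod_range_succ, PowerSeries.mul_inv_rev, prod_range_succ, ← ih, mul_comm]; rfl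

lemma tri (a n : ℕ) : (n + 1) * (n + 1 + (2 * a + 1)) / 2 = n * (n + (2 * a + 1)) / 2 + (n + a + 1) := by
  rw [← Nat.add_mul_div_right _ _ (by norm_num : 0 < 2)]
  congr 1; ring

lemma kapP (n : ℕ) : (X : ℚ⟦X⟧) ^ (n * (n + 3) / 2) * (poch n ^ 2)⁻¹ = kap X 1 ivP n := by
  rw [sq, PowerSeries.mul_inv_rev, poch_inv]
  induction n with
  | zero => simp [kap]
  | succ n ih => rw [kap_succ, ← ih, prod_range_succ, tri 1 n]; ring

lemma uuP (k : ℕ) : uu k = kap X 1 ivP (2 * k) := by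
  rw [← kapP, uu, mul_assoc 2, Nat.mul_div_cancel_left _ (by norm_num : 0 < 2)]

lemma vvP (k : ℕ) : vv k = uu k * X ^ (2 * k) * ivP (2 * k) ^ 2 := by
  rw [vv, uu, sq, sq, PowerSeries.mul_inv_rev, PowerSeries.mul_inv_rev, poch_inv, poch_inv,
    prod_range_succ, show k * (2 * k + 5) = k * (2 * k + 3) + 2 * k by ring]
  ring

lemma thP (n : ℕ) : (X : ℚ⟦X⟧) ^ (n * (n + 5) / 2) * (poch n * poch (n + 1))⁻¹ =
    kap X 1 ivP n * X ^ n * ivP n := by
  rw [← kapP, sq, PowerSeries.mul_inv_rev, PowerSeries.mul_inv_rev, poch_inv, poch_inv,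
    prod_range_succ, show n * (n + 5) = n * (n + 3) + n * 2 by ring,
    Nat.add_mul_div_right _ _ (by norm_num : 0 < 2)]
  ring

lemma hhP (n : ℕ) : hh n = hR X ivP n := rfl

lemma dvd_kap (n : ℕ) : (X : ℚ⟦X⟧) ^ n ∣ kap X 1 ivP n := by
  induction n with
  | zero => simp
  | succ n ih => rw [kap_succ, pow_succ, mul_assoc]; exact mul_dvd_mul ih (dvd_mul_right _ _)

lemma dvd_uu (k : ℕ) : (X : ℚ⟦X⟧) ^ k ∣ uu k :=
  uuP k ▸ (pow_dvd_pow _ (by omega)).trans (dvd_kap _)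

lemma dvd_vv (k : ℕ) : (X : ℚ⟦X⟧) ^ k ∣ vv k := by
  rw [vvP, mul_assoc]; exact (dvd_uu k).mul_right _

lemma qsum_dvd (f : ℕ → ℚ⟦X⟧) (hf : ∀ k, X ^ k ∣ f k) (N : ℕ) :
    X ^ (N + 1) ∣ qsum f - ∑ k ∈ range (N + 1), f k := by
  rw [X_pow_dvd_iff]
  intro m hm
  rw [map_sub, qsum, coeff_mk, map_sum, map_sum, sub_eq_zero]
  refine sum_subset (range_subset_range.2 (by omega)) fun k _ hk => ?_
  exact X_pow_dvd_iff.1 (hf k) m (by simpa using hk)

theorem main_eq : PowerSeries.mk (fun n => (dcp n : ℚ)) * Den = Num := by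
  rw [← sub_eq_zero]
  ext N
  let Q := ℚ⟦X⟧ ⧸ Ideal.span {(X : ℚ⟦X⟧) ^ (N + 1)}
  let φ : ℚ⟦X⟧ →+* DualNumber Q :=
    (algebraMap Q (DualNumber Q)).comp (Ideal.Quotient.mk (Ideal.span {(X : ℚ⟦X⟧) ^ (N + 1)}))
  have hφ : ∀ a, X ^ (N + 1) ∣ a → φ a = 0 := fun a ha => by
    simp only [φ, RingHom.comp_apply]
    rw [Ideal.Quotient.eq_zero_iff_dvd _ _ |>.2 ha, map_zero]
  have ht : φ X ^ (N + 1) = 0 := by rw [← map_pow]; exact hφ _ dvd_rfl
  have hq : ∀ f : ℕ → ℚ⟦X⟧, (∀ k, X ^ k ∣ f k) → φ (qsum f) = ∑ k ∈ range (N + 1), φ (f k) := by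
    intro f hf
    rw [← map_sum, ← sub_eq_zero, ← map_sub]
    exact hφ _ (qsum_dvd f hf N)
  have hk : ∀ n, φ (kap X 1 ivP n) = kap (φ X) 1 (fun j => φ (ivP j)) n := fun n => by
    simp [kap]
  have hh' : ∀ n, φ (hh n) = hR (φ X) (fun j => φ (ivP j)) n := fun n => by
    simp [hhP, hR, map_ofNat]
  have hA : φ (PowerSeries.mk fun n => (dcp n : ℚ)) =
      ∑ n ∈ range (N + 1), φ X ^ n * (dcp n : DualNumber Q) := by
    have : ∑ n ∈ range (N + 1), φ X ^ n * (dcp n : DualNumber Q) =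
        φ (∑ n ∈ range (N + 1), X ^ n * (dcp n : ℚ⟦X⟧)) := by simp
    rw [this, ← sub_eq_zero, ← map_sub]
    refine hφ _ (X_pow_dvd_iff.2 fun m hm => ?_)
    simp only [map_sub, coeff_mk, map_sum, ← map_natCast (C (R := ℚ)), coeff_mul_C, coeff_X_pow]
    simp [hm]
  have key := core ht DualNumber.eps_mul_eps (fun j => φ (ivP j))
    (fun j => by simpa using congrArg φ (ivP_mul j))
    (fun k => φ (uu k)) (fun k => φ (vv k))
    (fun n => φ (X ^ (n * (n + 5) / 2) * (poch n * poch (n + 1))⁻¹))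
    (fun k => by rw [uuP, hk]) (fun k => by simp [vvP]) (fun k => by rw [thP]; simp [hk])
    (φ P0) (φ P1) (φ R0) (φ R1) (φ P0d) (φ P1d) (φ R0d) (φ R1d) (φ SS) (φ TT)
    (hq _ dvd_uu) (hq _ dvd_vv)
    (by rw [R0, hq _ fun k => (dvd_uu k).mul_right _]; simp)
    (by rw [R1, hq _ fun k => (dvd_vv k).mul_right _]; simp)
    (by rw [P0d, hq _ fun k => (dvd_uu k).mul_right _]; simp [hh'])
    (by rw [P1d, hq _ fun k => (dvd_vv k).mul_right _]; simp [hh'])
    (by rw [R0d, hq _ fun k => (dvd_uu k).mul_right _]; simp [hh'])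
    (by rw [R1d, hq _ fun k => (dvd_vv k).mul_right _]; simp [hh'])
    (by rw [SS, hq _ fun k => by rw [kapP]; exact dvd_kap k]; simp only [kapP, hk])
    (by
      rw [TT, hq]
      intro k
      rw [thP, mul_assoc]; exact (dvd_kap k).mul_right _)
  have key2 : DualNumber.eps * φ (PowerSeries.mk (fun n => (dcp n : ℚ)) * Den - Num) = 0 := by
    rw [← key, ← hA]
    simp only [Den, Num, Matrix.det_fin_three, Matrix.of_apply, Matrix.cons_val',
      Matrix.cons_val_zero, Matrix.cons_val_one, Matrix.cons_val_two, Matrix.cons_val_fin_one,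
      Matrix.head_cons, Matrix.tail_cons, Matrix.head_fin_const, map_sub, map_add, map_mul,
      map_pow, map_one, map_neg, map_ofNat]
  have key3 := congrArg TrivSqZeroExt.snd key2
  simp only [φ, RingHom.comp_apply, TrivSqZeroExt.algebraMap_eq_inl, DualNumber.snd_mul,
    DualNumber.fst_eps, DualNumber.snd_eps, TrivSqZeroExt.fst_inl, zero_mul, one_mul, zero_add,
    TrivSqZeroExt.snd_zero] at key3
  rw [Ideal.Quotient.eq_zero_iff_dvd] at key3
  exact X_pow_dvd_iff.1 key3 N (by omega)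

lemma cc_qsum (f : ℕ → ℚ⟦X⟧) : constantCoeff (qsum f) = constantCoeff (f 0) := by
  rw [← coeff_zero_eq_constantCoeff_apply, qsum, coeff_mk]; simp

theorem den_const : constantCoeff Den = -1 := by
  simp [Den, Matrix.det_fin_three, P0, P1, R0, R1, P0d, P1d, R0d, R1d, SS, TT, cc_qsum, uu, vv,
    hh, poch, map_ofNat]
  norm_num

end Pool.Agent.H134Z.Dcp
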