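import Mathlib

set_option autoImplicit false

namespace Pool.Agent.H134Z.Dumont
open List

/-- descent top condition inside one block -/
def dt (S : ℕ → Prop) : List ℕ → Prop
  | [] => True
  | [x] => ¬ S x
  | x :: y :: r => (S x ↔ y < x) ∧ dt S (y :: r)

lemma dt_max (S : ℕ → Prop) (i : ℕ) (Y : List ℕ) (hY : ∀ y ∈ Y, y < i) :
    dt S (i :: Y) ↔ dt S Y ∧ (S i ↔ Y ≠ []) := by
  cases Y with
  | nil => simp [dt]
  | cons y r =>
    have := hY y (by simp)
    simp only [dt, this, iff_true, ne_eq, reduceCtorEq, not_false_eq_true]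
    tauto

lemma dt_append (S : ℕ → Prop) (i : ℕ) (Y : List ℕ) (hY : ∀ y ∈ Y, y < i) :
    ∀ X : List ℕ, (∀ x ∈ X, x < i) →
      (dt S (X ++ i :: Y) ↔ dt S X ∧ dt S Y ∧ (S i ↔ Y ≠ []))
  | [], _ => by simp [dt_max S i Y hY, dt]
  | [x], h => by
    have hx := h x (by simp)
    have : ¬ i < x := by omega
    simp only [List.cons_append, List.nil_append, dt, this, iff_false, dt_max S i Y hY]
  | x :: y :: r, h => by
    have ih := dt_append S i Y hY (y :: r) (fun z hz => h z (by simp [hz]))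
    simp only [List.cons_append, dt] at ih ⊢
    rw [ih]; tauto

def Valid (S : ℕ → Prop) (i k : ℕ) (B : List (List ℕ)) : Prop :=
  B.length = k ∧ (∀ L ∈ B, L ≠ [] ∧ dt S L) ∧ B.flatten ~ range i

/-- optional block -/
def ob (X : List ℕ) : List (List ℕ) := if X = [] then [] else [X]

@[simp] lemma ob_flatten (X : List ℕ) : (ob X).flatten = X := by
  unfold ob; split_ifs with h <;> simp [h]

def pop (l : Bool) (R : List (List ℕ)) : List ℕ × List (List ℕ) :=
  if l then (R.headD [], R.tail) else ([], R)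

def ins (i j : ℕ) (l r : Bool) (B : List (List ℕ)) : List (List ℕ) :=
  B.take j ++ ((pop l (B.drop j)).1 ++ i :: (pop r (pop l (B.drop j)).2).1) ::
    (pop r (pop l (B.drop j)).2).2

lemma pop_ob (X : List ℕ) (R : List (List ℕ)) (l : Bool) (h : l = true ↔ X ≠ []) :
    pop l (ob X ++ R) = (X, R) := by
  unfold pop ob
  cases l <;> simp_all

lemma ins_eq (i : ℕ) (B1 B2 : List (List ℕ)) (X Y : List ℕ) (l r : Bool)
    (hl : l = true ↔ X ≠ []) (hr : r = true ↔ Y ≠ []) :
    ins i B1.length l r (B1 ++ (ob X ++ (ob Y ++ B2))) = B1 ++ (X ++ i :: Y) :: B2 := by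
  unfold ins
  simp only [take_left', drop_left', pop_ob _ _ _ hl, pop_ob _ _ _ hr]

lemma pop_spec (l : Bool) (R : List (List ℕ)) (hR : ∀ L ∈ R, L ≠ []) (hlen : l.toNat ≤ R.length) :
    ∃ X R', R = ob X ++ R' ∧ (l = true ↔ X ≠ []) ∧ R'.length + l.toNat = R.length := by
  cases l with
  | false => exact ⟨[], R, by simp [ob], by simp, by simp⟩
  | true =>
    cases R with
    | nil => simp at hlen
    | cons X R' =>
      have := hR X (by simp)
      exact ⟨X, R', by simp [ob, this], by simp [this], by simp⟩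

/-- every list of nonempty blocks of the right length decomposes -/
lemma decomp (j : ℕ) (l r : Bool) (B : List (List ℕ)) (hB : ∀ L ∈ B, L ≠ [])
    (hlen : j + l.toNat + r.toNat ≤ B.length) :
    ∃ B1 X Y B2, B = B1 ++ (ob X ++ (ob Y ++ B2)) ∧ B1.length = j ∧ (l = true ↔ X ≠ []) ∧
      (r = true ↔ Y ≠ []) ∧ j + l.toNat + r.toNat + B2.length = B.length := by
  obtain ⟨X, R1, h1, hl, e1⟩ := pop_spec l (B.drop j) (fun L hL => hB L (mem_of_mem_drop hL))
    (by simp; omega)
  have hR1 : ∀ L ∈ R1, L ≠ [] := fun L hL => hB L (mem_of_mem_drop (i := j) (by rw [h1]; simp [hL]))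
  simp only [length_drop] at e1
  obtain ⟨Y, R2, h2, hr, e2⟩ := pop_spec r R1 hR1 (by omega)
  refine ⟨B.take j, X, Y, R2, ?_, by simp; omega, hl, hr, by omega⟩
  rw [← h2, ← h1, take_append_drop]

lemma ob_length (X : List ℕ) (l : Bool) (h : l = true ↔ X ≠ []) : (ob X).length = l.toNat := by
  unfold ob; cases l <;> simp_all

lemma mem_ob {X L : List ℕ} : L ∈ ob X ↔ L = X ∧ X ≠ [] := by
  unfold ob; split_ifs with h <;> simp [h]

lemma dt_nil (S : ℕ → Prop) : dt S [] := trivial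

lemma valid_iff (S : ℕ → Prop) (i k : ℕ) (B1 B2 : List (List ℕ)) (X Y : List ℕ) (l r : Bool)
    (hl : l = true ↔ X ≠ []) (hr : r = true ↔ Y ≠ []) :
    Valid S (i + 1) (k + 1) (B1 ++ (X ++ i :: Y) :: B2) ↔
      Valid S i (k + l.toNat + r.toNat) (B1 ++ (ob X ++ (ob Y ++ B2))) ∧ (S i ↔ r = true) := by
  unfold Valid
  have hp : (B1 ++ (X ++ i :: Y) :: B2).flatten ~ range (i + 1) ↔
      (B1 ++ (ob X ++ (ob Y ++ B2))).flatten ~ range i := by
    have h1 : (B1 ++ (X ++ i :: Y) :: B2).flatten ~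
        i :: (B1 ++ (ob X ++ (ob Y ++ B2))).flatten := by
      simp only [flatten_append, flatten_cons, ob_flatten, append_assoc, cons_append]
      rw [← append_assoc, ← append_assoc B1.flatten]
      exact perm_middle
    have h2 : range (i + 1) ~ i :: range i := by
      rw [range_succ]; exact perm_append_singleton _ _
    constructor
    · intro h; exact (h1.symm.trans (h.trans h2)).cons_inv
    · intro h; exact h1.trans ((h.cons i).trans h2.symm)
  rw [hp]
  simp only [length_append, length_cons, ob_length _ _ hl, ob_length _ _ hr]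
  by_cases hq : (B1 ++ (ob X ++ (ob Y ++ B2))).flatten ~ range i
  · have hX : ∀ x ∈ X, x < i := fun x hx => mem_range.1 (hq.subset (by simp [hx]))
    have hY : ∀ x ∈ Y, x < i := fun x hx => mem_range.1 (hq.subset (by simp [hx]))
    have hd := dt_append S i Y hY X hX
    simp only [hq, and_true, mem_append, mem_cons, mem_ob]
    constructor
    · rintro ⟨h1, h2⟩
      have h3 := hd.1 (h2 _ (Or.inr (Or.inl rfl))).2
      refine ⟨⟨by omega, ?_⟩, h3.2.2.trans hr.symm⟩
      rintro L (h | ⟨rfl, h⟩ | ⟨rfl, h⟩ | h)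
      · exact h2 L (Or.inl h)
      · exact ⟨h, h3.1⟩
      · exact ⟨h, h3.2.1⟩
      · exact h2 L (Or.inr (Or.inr h))
    · rintro ⟨⟨h1, h2⟩, h3⟩
      refine ⟨by omega, ?_⟩
      rintro L (h | rfl | h)
      · exact h2 L (Or.inl h)
      · refine ⟨by simp, hd.2 ⟨?_, ?_, h3.trans hr⟩⟩
        · by_cases h : X = []
          · rw [h]; trivial
          · exact (h2 X (Or.inr (Or.inl ⟨rfl, h⟩))).2
        · by_cases h : Y = []
          · rw [h]; trivial
          · exact (h2 Y (Or.inr (Or.inr (Or.inl ⟨rfl, h⟩)))).2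
      · exact h2 L (Or.inr (Or.inr (Or.inr h)))
  · simp [hq, -flatten_append]

lemma Valid.lt {S : ℕ → Prop} {i k : ℕ} {B : List (List ℕ)} (h : Valid S i k B) :
    ∀ x ∈ B.flatten, x < i := fun _ hx => mem_range.1 (h.2.2.subset hx)

lemma split_unique {α : Type} (p : α → Prop) {A C A' C' : List α} {a a' : α}
    (h : A ++ a :: C = A' ++ a' :: C') (hA : ∀ x ∈ A, ¬ p x) (hA' : ∀ x ∈ A', ¬ p x)
    (ha : p a) (ha' : p a') : A = A' ∧ a = a' ∧ C = C' := by
  induction A generalizing A' with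
  | nil =>
    cases A' with
    | nil => simpa using h
    | cons b A' =>
      simp only [nil_append, cons_append, cons.injEq] at h
      exact absurd (h.1 ▸ ha) (hA' b (by simp))
  | cons b A ih =>
    cases A' with
    | nil =>
      simp only [nil_append, cons_append, cons.injEq] at h
      exact absurd (h.1 ▸ ha') (hA b (by simp))
    | cons b' A' =>
      simp only [cons_append, cons.injEq] at h
      obtain ⟨h1, h2, h3⟩ := ih h.2 (fun x hx => hA x (by simp [hx])) (fun x hx => hA' x (by simp [hx]))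
      exact ⟨by rw [h.1, h1], h2, h3⟩

lemma step_equiv (S : ℕ → Prop) (i k : ℕ) (r : Bool) (hr : S i ↔ r = true)
    (G : List (List ℕ) → Prop) :
    Nonempty ((Σ p : Fin (k + 1) × Bool,
      {B // Valid S i (k + p.2.toNat + r.toNat) B ∧ G (ins i p.1 p.2 r B)}) ≃
      {B // Valid S (i + 1) (k + 1) B ∧ G B}) := by
  have key : ∀ (p : Fin (k + 1) × Bool) (B : List (List ℕ)),
      Valid S i (k + p.2.toNat + r.toNat) B → ∃ B1 X Y B2, B = B1 ++ (ob X ++ (ob Y ++ B2)) ∧
        B1.length = p.1 ∧ (p.2 = true ↔ X ≠ []) ∧ (r = true ↔ Y ≠ []) ∧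
        ins i p.1 p.2 r B = B1 ++ (X ++ i :: Y) :: B2 := by
    intro p B hB
    have := p.1.2
    obtain ⟨B1, X, Y, B2, h1, h2, h3, h4, -⟩ := decomp p.1 p.2 r B (fun L hL => (hB.2.1 L hL).1)
      (by rw [hB.1]; omega)
    exact ⟨B1, X, Y, B2, h1, h2, h3, h4, by rw [h1, ← h2, ins_eq i B1 B2 X Y _ _ h3 h4]⟩
  refine ⟨Equiv.ofBijective (fun q => ⟨ins i q.1.1 q.1.2 r q.2.1, ?_, q.2.2.2⟩) ⟨?_, ?_⟩⟩
  · obtain ⟨B1, X, Y, B2, h1, -, h3, h4, h5⟩ := key q.1 q.2.1 q.2.2.1
    rw [h5, valid_iff S i k B1 B2 X Y _ _ h3 h4, ← h1]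
    exact ⟨q.2.2.1, hr⟩
  · rintro ⟨p, B, hB, hG⟩ ⟨p', B', hB', hG'⟩ h
    simp only [Subtype.mk.injEq] at h
    obtain ⟨B1, X, Y, B2, h1, h2, h3, h4, h5⟩ := key p B hB
    obtain ⟨B1', X', Y', B2', h1', h2', h3', h4', h5'⟩ := key p' B' hB'
    rw [h5, h5'] at h
    have n1 : ∀ L ∈ B1, ¬ i ∈ L := fun L hL hi =>
      lt_irrefl _ (hB.lt i (by rw [h1]; simp only [flatten_append, mem_append, mem_flatten]; exact Or.inl ⟨L, hL, hi⟩))
    have n1' : ∀ L ∈ B1', ¬ i ∈ L := fun L hL hi =>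
      lt_irrefl _ (hB'.lt i (by rw [h1']; simp only [flatten_append, mem_append, mem_flatten]; exact Or.inl ⟨L, hL, hi⟩))
    obtain ⟨e1, e2, e3⟩ := split_unique (fun L => i ∈ L) h n1 n1' (by simp) (by simp)
    have n2 : ∀ x ∈ X, ¬ x = i := fun x hx hi =>
      lt_irrefl _ (hB.lt i (by rw [h1]; simp [← hi, hx]))
    have n2' : ∀ x ∈ X', ¬ x = i := fun x hx hi =>
      lt_irrefl _ (hB'.lt i (by rw [h1']; simp [← hi, hx]))
    obtain ⟨e4, -, e5⟩ := split_unique (fun x => x = i) e2 n2 n2' rfl rfl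
    subst e1 e3 e4 e5
    have hp : p = p' := by
      apply Prod.ext
      · exact Fin.ext (h2.symm.trans h2')
      · have := h3.trans h3'.symm
        revert this; cases p.2 <;> cases p'.2 <;> simp
    subst hp
    have : B = B' := h1.trans h1'.symm
    subst this
    rfl
  · rintro ⟨B, hB, hG⟩
    have hi : i ∈ B.flatten := hB.2.2.symm.subset (by simp)
    obtain ⟨L, hL, hiL⟩ := mem_flatten.1 hi
    obtain ⟨B1, B2, rfl⟩ := append_of_mem hL
    obtain ⟨X, Y, rfl⟩ := append_of_mem hiL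
    have hl : decide (X ≠ []) = true ↔ X ≠ [] := by simp
    have hr' : decide (Y ≠ []) = true ↔ Y ≠ [] := by simp
    have hv := (valid_iff S i k B1 B2 X Y _ _ hl hr').1 hB
    have e : r = decide (Y ≠ []) := by
      have := hr.symm.trans hv.2
      revert this; cases r <;> cases decide (Y ≠ []) <;> simp
    subst e
    have hlen : B1.length < k + 1 := by
      have := hB.1; simp at this; omega
    have e2 := ins_eq i B1 B2 X Y _ _ hl hr'
    exact ⟨⟨(⟨B1.length, hlen⟩, decide (X ≠ [])), _, hv.1, by simpa only [e2] using hG⟩,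
      Subtype.ext e2⟩

end Pool.Agent.H134Z.Dumont
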