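import Pool.Agent.H134Z.DumA

set_option autoImplicit false

namespace Pool.Agent.H134Z.Dumont
open List

lemma sub4 (c x y z u : ℕ) (U V : List ℕ) :
    [x, y, z, u] <+ U ++ c :: V ↔ [x, y, z, u] <+ U ++ V ∨ (x = c ∧ [y, z, u] <+ V) ∨
      (y = c ∧ x ∈ U ∧ [z, u] <+ V) ∨ (z = c ∧ [x, y] <+ U ∧ u ∈ V) ∨
      (u = c ∧ [x, y, z] <+ U) := by
  constructor
  · intro h
    obtain ⟨l1, l2, e, h1, h2⟩ := sublist_append_iff.1 h
    rcases sublist_cons_iff.1 h2 with h3 | ⟨l3, rfl, h3⟩
    · exact Or.inl (e ▸ h1.append h3)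
    · right
      match l1, e, h1 with
      | [], e, _ =>
        simp only [nil_append, cons.injEq] at e
        exact Or.inl ⟨e.1, e.2 ▸ h3⟩
      | [a], e, h1 =>
        simp only [cons_append, nil_append, cons.injEq] at e
        obtain ⟨rfl, rfl, rfl⟩ := e
        exact Or.inr (Or.inl ⟨rfl, singleton_sublist.1 h1, h3⟩)
      | [a, b], e, h1 =>
        simp only [cons_append, nil_append, cons.injEq] at e
        obtain ⟨rfl, rfl, rfl, rfl⟩ := e
        exact Or.inr (Or.inr (Or.inl ⟨rfl, h1, singleton_sublist.1 h3⟩))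
      | [a, b, d], e, h1 =>
        simp only [cons_append, nil_append, cons.injEq] at e
        obtain ⟨rfl, rfl, rfl, rfl, rfl⟩ := e
        exact Or.inr (Or.inr (Or.inr ⟨rfl, h1⟩))
      | a :: b :: d :: f :: t, e, _ =>
        simp at e
  · rintro (h | ⟨rfl, h⟩ | ⟨rfl, h1, h⟩ | ⟨rfl, h1, h⟩ | ⟨rfl, h⟩)
    · exact h.trans ((Sublist.refl U).append (sublist_cons_self c V))
    · exact (h.cons_cons x).trans (sublist_append_right _ _)
    · exact (singleton_sublist.2 h1).append (h.cons_cons y)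
    · exact h1.append ((singleton_sublist.2 h).cons_cons z)
    · exact h.append ((nil_sublist V).cons_cons u)

def AvA (w : List ℕ) : Prop := ∀ x y z u, [x, y, z, u] <+ w → ¬ (y < x ∧ x < u ∧ u < z)
def AvB (w : List ℕ) : Prop := ∀ x y z u, [x, y, z, u] <+ w → ¬ (u < z ∧ z < x ∧ x < y)

def W (M : ℕ) (B : List (List ℕ)) : List ℕ := B.flatMap (fun L => L ++ [M])

@[simp] lemma W_nil (M : ℕ) : W M [] = [] := rfl
@[simp] lemma W_cons (M : ℕ) (L : List ℕ) (B : List (List ℕ)) :
    W M (L :: B) = L ++ M :: W M B := by simp [W]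
@[simp] lemma W_append (M : ℕ) (A B : List (List ℕ)) : W M (A ++ B) = W M A ++ W M B := by
  simp [W]

lemma mem_W {M x : ℕ} {B : List (List ℕ)} (h : x ∈ W M B) : x ∈ B.flatten ∨ x = M := by
  induction B with
  | nil => simp at h
  | cons L B ih =>
    simp only [W_cons, mem_append, mem_cons, flatten_cons] at h ⊢
    rcases h with h | h | h
    · exact Or.inl (Or.inl h)
    · exact Or.inr h
    · rcases ih h with h | h
      · exact Or.inl (Or.inr h)
      · exact Or.inr h

lemma flatten_sub_W (M : ℕ) (B : List (List ℕ)) : B.flatten <+ W M B := by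
  induction B with
  | nil => simp
  | cons L B ih => simpa using (Sublist.refl L).append (ih.cons M)

lemma filter_W (M : ℕ) (B : List (List ℕ)) : (W M B).filter (fun x => x ≠ M) <+ B.flatten := by
  induction B with
  | nil => simp
  | cons L B ih =>
    simp only [W_cons, filter_append, flatten_cons]
    refine filter_sublist.append ?_
    simpa using ih

lemma pair_sub_W {M x y : ℕ} {B : List (List ℕ)} (h : [x, y] <+ W M B) (hx : x ≠ M) (hy : y ≠ M) :
    [x, y] <+ B.flatten := by
  have := (h.filter (fun x => x ≠ M)).trans (filter_W M B)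
  simpa [hx, hy] using this

/-- a word of blocks is empty or ends with the separator -/
lemma W_end (M : ℕ) (B : List (List ℕ)) : B = [] ∨ ∃ U, W M B = U ++ [M] ∧ B.flatten <+ U := by
  rcases eq_nil_or_concat B with h | ⟨B', L, rfl⟩
  · exact Or.inl h
  · refine Or.inr ⟨W M B' ++ L, by simp, ?_⟩
    simpa using (flatten_sub_W M B').append (Sublist.refl L)

lemma sub_dup {M : ℕ} {U V l : List ℕ} (h : l <+ U ++ M :: M :: V) (hl : l.Nodup) :
    l <+ U ++ M :: V := by
  obtain ⟨l1, l2, rfl, h1, h2⟩ := sublist_append_iff.1 h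
  refine h1.append ?_
  rcases sublist_cons_iff.1 h2 with h3 | ⟨l3, rfl, h3⟩
  · exact h3
  · rcases sublist_cons_iff.1 h3 with h4 | ⟨l4, rfl, h4⟩
    · exact h4.cons_cons M
    · have := (nodup_append.1 hl).2.1
      simp at this

lemma AvA.mono {v w : List ℕ} (h : AvA w) (hs : v <+ w) : AvA v :=
  fun x y z u h' => h x y z u (h'.trans hs)
lemma AvB.mono {v w : List ℕ} (h : AvB w) (hs : v <+ w) : AvB v :=
  fun x y z u h' => h x y z u (h'.trans hs)

lemma AvA_dup (M : ℕ) (U V : List ℕ) : AvA (U ++ M :: M :: V) ↔ AvA (U ++ M :: V) := by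
  refine ⟨fun h => h.mono ((Sublist.refl U).append (sublist_cons_self _ _)), ?_⟩
  intro h x y z u hs hp
  refine h x y z u (sub_dup hs ?_) hp
  simp; omega

lemma AvB_dup (M : ℕ) (U V : List ℕ) : AvB (U ++ M :: M :: V) ↔ AvB (U ++ M :: V) := by
  refine ⟨fun h => h.mono ((Sublist.refl U).append (sublist_cons_self _ _)), ?_⟩
  intro h x y z u hs hp
  refine h x y z u (sub_dup hs ?_) hp
  simp; omega

lemma AvA_head (M : ℕ) (V : List ℕ) (hV : ∀ x ∈ V, x ≤ M) : AvA (M :: V) ↔ AvA V := by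
  refine ⟨fun h => h.mono (sublist_cons_self _ _), ?_⟩
  intro h x y z u hs hp
  rcases sublist_cons_iff.1 hs with h3 | ⟨l3, e, h3⟩
  · exact h x y z u h3 hp
  · simp only [cons.injEq] at e
    obtain ⟨rfl, rfl⟩ := e
    have := hV u (h3.subset (by simp)); omega

lemma AvB_head (M : ℕ) (V : List ℕ) (hV : ∀ x ∈ V, x ≤ M) : AvB (M :: V) ↔ AvB V := by
  refine ⟨fun h => h.mono (sublist_cons_self _ _), ?_⟩
  intro h x y z u hs hp
  rcases sublist_cons_iff.1 hs with h3 | ⟨l3, e, h3⟩
  · exact h x y z u h3 hp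
  · simp only [cons.injEq] at e
    obtain ⟨rfl, rfl⟩ := e
    have := hV y (h3.subset (by simp)); omega

/-- empty blocks do not matter -/
lemma av_ob (Av : List ℕ → Prop) (M : ℕ)
    (hd : ∀ U V, Av (U ++ M :: M :: V) ↔ Av (U ++ M :: V))
    (hh : ∀ V, (∀ x ∈ V, x ≤ M) → (Av (M :: V) ↔ Av V))
    (B1 B2 : List (List ℕ)) (X : List ℕ) (h2 : ∀ x ∈ W M B2, x ≤ M) :
    Av (W M (B1 ++ X :: B2)) ↔ Av (W M (B1 ++ (ob X ++ B2))) := by
  unfold ob
  split_ifs with h
  · subst h
    rcases W_end M B1 with rfl | ⟨U, hU, -⟩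
    · simpa using hh _ h2
    · simp only [W_append, W_cons, nil_append, hU, append_assoc, cons_append]
      exact hd _ _
  · simp

lemma av_ob2 (Av : List ℕ → Prop) (M : ℕ)
    (hd : ∀ U V, Av (U ++ M :: M :: V) ↔ Av (U ++ M :: V))
    (hh : ∀ V, (∀ x ∈ V, x ≤ M) → (Av (M :: V) ↔ Av V))
    (B1 B2 : List (List ℕ)) (X Y : List ℕ) (h2 : ∀ x ∈ B2.flatten, x ≤ M) (hY : ∀ x ∈ Y, x ≤ M) :
    Av (W M (B1 ++ X :: Y :: B2)) ↔ Av (W M (B1 ++ (ob X ++ (ob Y ++ B2)))) := by
  have e1 := av_ob Av M hd hh (B1 ++ [X]) B2 Y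
    (fun x hx => (mem_W hx).elim (h2 x) le_of_eq)
  have e2 := av_ob Av M hd hh B1 (ob Y ++ B2) X (fun x hx => (mem_W hx).elim (fun h => by
    simp only [flatten_append, ob_flatten, mem_append] at h
    exact h.elim (hY x) (h2 x)) le_of_eq)
  simp only [append_assoc, cons_append, nil_append] at e1
  exact e1.trans e2

lemma avA_step (M i : ℕ) (hi : i < M) (B1 B2 : List (List ℕ)) (X Y : List ℕ)
    (hlt : ∀ x ∈ (B1 ++ (ob X ++ (ob Y ++ B2))).flatten, x < i) :
    AvA (W M (B1 ++ (X ++ i :: Y) :: B2)) ↔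
      AvA (W M (B1 ++ (ob X ++ (ob Y ++ B2)))) ∧ B1.flatten.Pairwise (· ≤ ·) := by
  simp only [flatten_append, ob_flatten, mem_append] at hlt
  rw [← av_ob2 AvA M (AvA_dup M) (AvA_head M) B1 B2 X Y
    (fun x hx => by have := hlt x (by tauto); omega) (fun x hx => by have := hlt x (by tauto); omega)]
  have e1 : W M (B1 ++ (X ++ i :: Y) :: B2) = (W M B1 ++ X) ++ i :: (Y ++ M :: W M B2) := by simp
  have e2 : W M (B1 ++ X :: Y :: B2) = (W M B1 ++ X) ++ M :: (Y ++ M :: W M B2) := by simp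
  have hP : ∀ x ∈ W M B1 ++ X, x < i ∨ x = M := by
    intro x hx
    rcases mem_append.1 hx with h | h
    · exact (mem_W h).imp_left (fun h => hlt x (by tauto))
    · exact Or.inl (hlt x (by tauto))
  have hQ : ∀ x ∈ Y ++ M :: W M B2, x < i ∨ x = M := by
    intro x hx
    rcases mem_append.1 hx with h | h
    · exact Or.inl (hlt x (by tauto))
    · rcases mem_cons.1 h with h | h
      · exact Or.inr h
      · exact (mem_W h).imp_left (fun h => hlt x (by tauto))
  rw [e1, e2, pairwise_iff_forall_sublist]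
  generalize Y ++ M :: W M B2 = Q at hQ ⊢
  constructor
  · intro h
    refine ⟨?_, ?_⟩
    · intro x y z u hs hp
      rcases (sub4 ..).1 hs with h1 | ⟨rfl, h1⟩ | ⟨rfl, h1, h2⟩ | ⟨rfl, h1, h2⟩ | ⟨rfl, h1⟩
      · exact h x y z u ((sub4 ..).2 (Or.inl h1)) hp
      · have := hQ u (h1.subset (by simp)); omega
      · have := hP x h1; omega
      · have := hQ u h2
        exact h x y i u ((sub4 ..).2 (Or.inr (Or.inr (Or.inr (Or.inl ⟨rfl, h1, h2⟩))))) (by omega)
      · have := hP z (h1.subset (by simp)); omega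
    · intro x y hs
      by_contra hxy
      rcases W_end M B1 with rfl | ⟨U, hU, hs2⟩
      · simp at hs
      · have h3 : [x, y, M] <+ W M B1 ++ X := by
          rw [hU]
          exact ((hs.trans hs2).append (Sublist.refl [M])).trans (sublist_append_left _ _)
        have := hlt x (Or.inl (hs.subset (by simp)))
        exact h x y M i ((sub4 ..).2 (Or.inr (Or.inr (Or.inr (Or.inr ⟨rfl, h3⟩))))) (by omega)
  · rintro ⟨h, hs0⟩ x y z u hs hp
    rcases (sub4 ..).1 hs with h1 | ⟨rfl, h1⟩ | ⟨rfl, h1, h2⟩ | ⟨rfl, h1, h2⟩ | ⟨rfl, h1⟩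
    · exact h x y z u ((sub4 ..).2 (Or.inl h1)) hp
    · have := hQ u (h1.subset (by simp)); have := hQ z (h1.subset (by simp)); omega
    · have := hQ u (h2.subset (by simp)); have := hQ z (h2.subset (by simp)); omega
    · exact h x y M u ((sub4 ..).2 (Or.inr (Or.inr (Or.inr (Or.inl ⟨rfl, h1, h2⟩))))) (by omega)
    · have hz : z = M := by have := hP z (h1.subset (by simp)); omega
      subst hz
      obtain ⟨l1, l2, e, h2, h3⟩ := sublist_append_iff.1 h1
      have hl2 : l2 = [] := by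
        rcases eq_nil_or_concat l2 with h4 | ⟨l3, a, rfl⟩
        · exact h4
        · have h5 : [x, y] ++ [z] = (l1 ++ l3) ++ [a] := by simpa using e
          have h6 := (append_inj' h5 rfl).2
          simp only [cons.injEq, and_true] at h6
          have := hlt a (Or.inr (Or.inl (h3.subset (by simp)))); omega
      subst hl2
      rw [append_nil] at e
      subst e
      have h4 : [x, y] <+ W z B1 := (sublist_append_left [x, y] [z]).trans h2
      have := hs0 (pair_sub_W h4 (by omega) (by omega)); omega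

lemma avB_step (M i : ℕ) (hi : i < M) (B1 B2 : List (List ℕ)) (X Y : List ℕ)
    (hlt : ∀ x ∈ (B1 ++ (ob X ++ (ob Y ++ B2))).flatten, x < i) :
    AvB (W M (B1 ++ (X ++ i :: Y) :: B2)) ↔
      AvB (W M (B1 ++ (ob X ++ (ob Y ++ B2)))) ∧ B2.flatten.Pairwise (· ≤ ·) := by
  simp only [flatten_append, ob_flatten, mem_append] at hlt
  rw [← av_ob2 AvB M (AvB_dup M) (AvB_head M) B1 B2 X Y
    (fun x hx => by have := hlt x (by tauto); omega) (fun x hx => by have := hlt x (by tauto); omega)]
  have e1 : W M (B1 ++ (X ++ i :: Y) :: B2) = (W M B1 ++ X) ++ i :: (Y ++ M :: W M B2) := by simp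
  have e2 : W M (B1 ++ X :: Y :: B2) = (W M B1 ++ X) ++ M :: (Y ++ M :: W M B2) := by simp
  have hP : ∀ x ∈ W M B1 ++ X, x < i ∨ x = M := by
    intro x hx
    rcases mem_append.1 hx with h | h
    · exact (mem_W h).imp_left (fun h => hlt x (by tauto))
    · exact Or.inl (hlt x (by tauto))
  have hQ : ∀ x ∈ Y ++ M :: W M B2, x < i ∨ x = M := by
    intro x hx
    rcases mem_append.1 hx with h | h
    · exact Or.inl (hlt x (by tauto))
    · rcases mem_cons.1 h with h | h
      · exact Or.inr h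
      · exact (mem_W h).imp_left (fun h => hlt x (by tauto))
  rw [e1, e2, pairwise_iff_forall_sublist]
  generalize W M B1 ++ X = P at hP ⊢
  constructor
  · intro h
    refine ⟨?_, ?_⟩
    · intro x y z u hs hp
      rcases (sub4 ..).1 hs with h1 | ⟨rfl, h1⟩ | ⟨rfl, h1, h2⟩ | ⟨rfl, h1, h2⟩ | ⟨rfl, h1⟩
      · exact h x y z u ((sub4 ..).2 (Or.inl h1)) hp
      · have := hQ y (h1.subset (by simp)); omega
      · have := hP x h1
        exact h x i z u ((sub4 ..).2 (Or.inr (Or.inr (Or.inl ⟨rfl, h1, h2⟩)))) (by omega)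
      · have := hP x (h1.subset (by simp)); omega
      · have := hP z (h1.subset (by simp)); omega
    · intro z u hs
      by_contra hxy
      have h3 : [M, z, u] <+ Y ++ M :: W M B2 :=
        ((hs.trans (flatten_sub_W M B2)).cons_cons M).trans (sublist_append_right _ _)
      have := hlt z (Or.inr (Or.inr (Or.inr (hs.subset (by simp)))))
      exact h i M z u ((sub4 ..).2 (Or.inr (Or.inl ⟨rfl, h3⟩))) (by omega)
  · rintro ⟨h, hs0⟩ x y z u hs hp
    rcases (sub4 ..).1 hs with h1 | ⟨rfl, h1⟩ | ⟨rfl, h1, h2⟩ | ⟨rfl, h1, h2⟩ | ⟨rfl, h1⟩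
    · exact h x y z u ((sub4 ..).2 (Or.inl h1)) hp
    · have hy : y = M := by have := hQ y (h1.subset (by simp)); omega
      subst hy
      obtain ⟨l1, l2, e, h2, h3⟩ := sublist_append_iff.1 h1
      have hl1 : l1 = [] := by
        cases l1 with
        | nil => rfl
        | cons a t =>
          simp only [cons_append, cons.injEq] at e
          have := hlt a (Or.inr (Or.inr (Or.inl (h2.subset (by simp))))); omega
      subst hl1
      rw [nil_append] at e
      subst e
      have h4 : [z, u] <+ W y B2 := h3.tail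
      have := hs0 (pair_sub_W h4 (by omega) (by omega)); omega
    · exact h x M z u ((sub4 ..).2 (Or.inr (Or.inr (Or.inl ⟨rfl, h1, h2⟩)))) (by omega)
    · have := hP x (h1.subset (by simp)); have := hP y (h1.subset (by simp)); omega
    · have := hP x (h1.subset (by simp)); have := hP y (h1.subset (by simp)); omega

end Pool.Agent.H134Z.Dumont
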