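import Pool.Agent.H134Z.DumB

set_option autoImplicit false

namespace Pool.Agent.H134Z.Dumont
open List

def GA (M a : ℕ) (B : List (List ℕ)) : Prop :=
  (B.take a).flatten.Pairwise (· ≤ ·) ∧ AvA (W M B)
def GB (M a : ℕ) (B : List (List ℕ)) : Prop :=
  (B.drop (B.length - a)).flatten.Pairwise (· ≤ ·) ∧ AvB (W M B)

lemma pw_max (i : ℕ) (U V : List ℕ) (hU : ∀ x ∈ U, x < i) (hV : ∀ x ∈ V, x < i) :
    (U ++ i :: V).Pairwise (· ≤ ·) ↔ U.Pairwise (· ≤ ·) ∧ V = [] := by
  constructor
  · intro h
    refine ⟨h.sublist (sublist_append_left _ _), ?_⟩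
    cases V with
    | nil => rfl
    | cons v t =>
      have h1 := (pairwise_cons.1 (h.sublist (sublist_append_right _ _))).1 v (by simp)
      have := hV v (by simp); omega
  · rintro ⟨h, rfl⟩
    rw [pairwise_append]
    exact ⟨h, by simp, fun a ha b hb => by have := hU a ha; simp at hb; omega⟩

lemma flatten_nil_of {B : List (List ℕ)} (h : ∀ L ∈ B, L ≠ []) (h2 : B.flatten = []) : B = [] := by
  cases B with
  | nil => rfl
  | cons L t =>
    simp only [flatten_cons, append_eq_nil_iff] at h2
    exact absurd h2.1 (h L (by simp))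

lemma GA_step (M i a : ℕ) (hi : i < M) (B1 B2 : List (List ℕ)) (X Y : List ℕ) (l r : Bool)
    (hl : l = true ↔ X ≠ []) (hr : r = true ↔ Y ≠ []) (hne : ∀ L ∈ B2, L ≠ [])
    (ha : a ≤ B1.length + 1 + B2.length)
    (hlt : ∀ x ∈ (B1 ++ (ob X ++ (ob Y ++ B2))).flatten, x < i) :
    GA M a (B1 ++ (X ++ i :: Y) :: B2) ↔
      (a ≤ B1.length ∧ GA M B1.length (B1 ++ (ob X ++ (ob Y ++ B2)))) ∨
      (B1.length + 1 = a ∧ r = false ∧ GA M (B1.length + l.toNat) (B1 ++ (ob X ++ (ob Y ++ B2)))) := by
  unfold GA
  rw [avA_step M i hi B1 B2 X Y hlt]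
  simp only [flatten_append, ob_flatten, mem_append] at hlt
  by_cases h : a ≤ B1.length
  · have h' : ¬ B1.length + 1 = a := by omega
    simp only [h, h', true_and, false_and, or_false, take_left', take_append_of_le_length h]
    constructor
    · rintro ⟨-, h2, h3⟩; exact ⟨h3, h2⟩
    · rintro ⟨h3, h2⟩
      exact ⟨h3.sublist (Sublist.flatten (take_sublist _ _)), h2, h3⟩
  · obtain ⟨c, rfl⟩ : ∃ c, a = B1.length + (c + 1) := ⟨a - B1.length - 1, by omega⟩
    have e : (take (B1.length + (c + 1)) (B1 ++ (X ++ i :: Y) :: B2)).flatten =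
        (B1.flatten ++ X) ++ i :: (Y ++ (B2.take c).flatten) := by
      rw [take_length_add_append]; simp
    have e2 : (take (B1.length + l.toNat) (B1 ++ (ob X ++ (ob Y ++ B2)))).flatten =
        B1.flatten ++ X := by
      rw [take_length_add_append, ← ob_length X l hl, take_left]; simp
    rw [e, e2, pw_max i _ _ (fun x hx => hlt x (by rcases mem_append.1 hx with h | h <;> tauto))
      (fun x hx => hlt x (by
        rcases mem_append.1 hx with h | h
        · tauto
        · have := (Sublist.flatten (take_sublist c B2)).subset h; tauto))]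
    simp only [h, false_and, false_or, append_eq_nil_iff]
    constructor
    · rintro ⟨⟨h1, h2, h3⟩, h4, h5⟩
      have h6 := flatten_nil_of (fun L hL => hne L (mem_of_mem_take hL)) h3
      have h7 := congrArg length h6
      simp only [length_take, length_nil] at h7
      refine ⟨by omega, ?_, h1, h4⟩
      cases r <;> simp_all
    · rintro ⟨h1, h2, h3, h4⟩
      have : c = 0 := by omega
      subst this
      refine ⟨⟨h3, ?_, by simp⟩, h4, h3.sublist (sublist_append_left _ _)⟩
      by_contra hY
      rw [hr.2 hY] at h2; simp at h2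

lemma GB_step (M i a : ℕ) (hi : i < M) (B1 B2 : List (List ℕ)) (X Y : List ℕ) (l r : Bool)
    (hl : l = true ↔ X ≠ []) (hr : r = true ↔ Y ≠ []) (hne : ∀ L ∈ B2, L ≠ [])
    (ha : a ≤ B1.length + 1 + B2.length)
    (hlt : ∀ x ∈ (B1 ++ (ob X ++ (ob Y ++ B2))).flatten, x < i) :
    GB M a (B1 ++ (X ++ i :: Y) :: B2) ↔
      (a ≤ B2.length ∧ GB M B2.length (B1 ++ (ob X ++ (ob Y ++ B2)))) ∨
      (B2.length = 0 ∧ 0 < a ∧ r = false ∧
        GB M (a - 1 + l.toNat) (B1 ++ (ob X ++ (ob Y ++ B2)))) := by
  unfold GB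
  rw [avB_step M i hi B1 B2 X Y hlt]
  simp only [flatten_append, ob_flatten, mem_append] at hlt
  have e0 : drop ((B1 ++ (ob X ++ (ob Y ++ B2))).length - B2.length) (B1 ++ (ob X ++ (ob Y ++ B2)))
      = B2 := by
    rw [← append_assoc, ← append_assoc]
    exact drop_left' (by simp; omega)
  rw [e0]
  by_cases h : a ≤ B2.length
  · have h' : ¬ (B2.length = 0 ∧ 0 < a ∧ r = false ∧
      ((drop ((B1 ++ (ob X ++ (ob Y ++ B2))).length - (a - 1 + l.toNat))
        (B1 ++ (ob X ++ (ob Y ++ B2)))).flatten.Pairwise (· ≤ ·) ∧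
          AvB (W M (B1 ++ (ob X ++ (ob Y ++ B2)))))) := by
      rintro ⟨h1, h2, -⟩; omega
    simp only [h, h', true_and, or_false]
    constructor
    · rintro ⟨-, h2, h3⟩; exact ⟨h3, h2⟩
    · rintro ⟨h3, h2⟩
      refine ⟨h3.sublist (Sublist.flatten ?_), h2, h3⟩
      have e : (B1 ++ (X ++ i :: Y) :: B2).length - a =
          (B1 ++ [X ++ i :: Y]).length + (B2.length - a) := by simp; omega
      rw [e, show B1 ++ (X ++ i :: Y) :: B2 = (B1 ++ [X ++ i :: Y]) ++ B2 by simp,
        drop_length_add_append]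
      exact drop_sublist _ _
  · have hc : (B1 ++ (X ++ i :: Y) :: B2).length - a ≤ B1.length := by simp; omega
    have e : (drop ((B1 ++ (X ++ i :: Y) :: B2).length - a) (B1 ++ (X ++ i :: Y) :: B2)).flatten =
        ((B1.drop ((B1 ++ (X ++ i :: Y) :: B2).length - a)).flatten ++ X) ++
          i :: (Y ++ B2.flatten) := by
      rw [drop_append_of_le_length hc]; simp
    rw [e, pw_max i _ _ (fun x hx => hlt x (by
        rcases mem_append.1 hx with h | h
        · have := (Sublist.flatten (drop_sublist _ B1)).subset h; tauto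
        · tauto))
      (fun x hx => hlt x (by rcases mem_append.1 hx with h | h <;> tauto))]
    simp only [h, false_and, false_or, append_eq_nil_iff]
    have key : B2 = [] → Y = [] →
        (drop ((B1 ++ (ob X ++ (ob Y ++ B2))).length - (a - 1 + l.toNat))
          (B1 ++ (ob X ++ (ob Y ++ B2)))).flatten =
        (B1.drop ((B1 ++ (X ++ i :: Y) :: B2).length - a)).flatten ++ X := by
      rintro rfl rfl
      have e3 : (B1 ++ (ob X ++ (ob [] ++ []))).length - (a - 1 + l.toNat) =
          (B1 ++ [X ++ [i]]).length - a := by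
        simp only [length_append, ob_length X l hl, length_cons, length_nil] at *
        simp [ob]; omega
      rw [e3, drop_append_of_le_length hc]; simp
    constructor
    · rintro ⟨⟨h1, h2, h3⟩, h4, h5⟩
      have h6 := flatten_nil_of hne h3
      refine ⟨by simp [h6], by omega, by cases r <;> simp_all, ?_, h4⟩
      rw [key h6 h2]; exact h1
    · rintro ⟨h1, h2, h3, h4, h5⟩
      have h6 : B2 = [] := length_eq_zero_iff.1 h1
      have h7 : Y = [] := by
        by_contra hY
        rw [hr.2 hY] at h3; simp at h3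
      rw [key h6 h7] at h4
      exact ⟨⟨h4, h7, by simp [h6]⟩, h5, by simp [h6]⟩

/-- the matching of slots -/
def sig (k a : ℕ) (ha : a ≤ k + 1) : Fin (k + 1) ≃ Fin (k + 1) where
  toFun j := ⟨if a ≤ j.1 then k - j.1 else j.1 + (k + 1 - a), by split_ifs <;> omega⟩
  invFun j := ⟨if j.1 + a ≤ k then k - j.1 else j.1 - (k + 1 - a), by split_ifs <;> omega⟩
  left_inv j := by
    have := j.2
    apply Fin.ext
    dsimp only
    split_ifs <;> omega
  right_inv j := by
    have := j.2
    apply Fin.ext
    dsimp only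
    split_ifs <;> omega

lemma sig_val (k a : ℕ) (ha : a ≤ k + 1) (j : Fin (k + 1)) :
    (sig k a ha j).1 = if a ≤ j.1 then k - j.1 else j.1 + (k + 1 - a) := rfl

theorem main (S : ℕ → Prop) (M : ℕ) : ∀ i, i ≤ M → ∀ k a, a ≤ k →
    Nonempty ({B // Valid S i k B ∧ GA M a B} ≃ {B // Valid S i k B ∧ GB M a B}) := by
  intro i
  induction i with
  | zero =>
    intro _ k a _
    refine ⟨Equiv.subtypeEquivRight fun B => ?_⟩
    refine and_congr_right fun hB => ?_
    have : B = [] := flatten_nil_of (fun L hL => (hB.2.1 L hL).1) (by simpa using hB.2.2)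
    subst this
    simp [GA, GB, AvA, AvB]
  | succ i ih =>
    intro hi k a ha
    cases k with
    | zero =>
      refine ⟨Equiv.subtypeEquivRight fun B => ?_⟩
      refine and_congr_right fun hB => ?_
      have : B = [] := length_eq_zero_iff.1 hB.1
      subst this
      simp [GA, GB, AvA, AvB]
    | succ k =>
      classical
      obtain ⟨r, hr⟩ : ∃ r : Bool, S i ↔ r = true := ⟨decide (S i), by simp⟩
      obtain ⟨eA⟩ := step_equiv S i k r hr (GA M a)
      obtain ⟨eB⟩ := step_equiv S i k r hr (GB M a)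
      have hA : ∀ (j : Fin (k + 1)) (l : Bool) (B : List (List ℕ)),
          Valid S i (k + l.toNat + r.toNat) B → (GA M a (ins i j l r B) ↔
            (a ≤ j.1 ∧ GA M j B) ∨ (j.1 + 1 = a ∧ r = false ∧ GA M (j + l.toNat) B)) := by
        intro j l B hB
        have := j.2
        obtain ⟨B1, X, Y, B2, h1, h2, h3, h4, h5⟩ := decomp j l r B (fun L hL => (hB.2.1 L hL).1)
          (by rw [hB.1]; omega)
        have h6 := hB.1
        have h7 := hB.lt
        have h8 : ∀ L ∈ B2, L ≠ [] := fun L hL => (hB.2.1 L (by rw [h1]; simp [hL])).1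
        rw [h1] at h7 ⊢
        rw [← h2, ins_eq i B1 B2 X Y l r h3 h4]
        exact GA_step M i a (by omega) B1 B2 X Y l r h3 h4 h8 (by omega) h7
      have hB : ∀ (j : Fin (k + 1)) (l : Bool) (B : List (List ℕ)),
          Valid S i (k + l.toNat + r.toNat) B → (GB M a (ins i j l r B) ↔
            (a ≤ k - j.1 ∧ GB M (k - j) B) ∨
              (k - j.1 = 0 ∧ 0 < a ∧ r = false ∧ GB M (a - 1 + l.toNat) B)) := by
        intro j l B hB
        have := j.2
        obtain ⟨B1, X, Y, B2, h1, h2, h3, h4, h5⟩ := decomp j l r B (fun L hL => (hB.2.1 L hL).1)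
          (by rw [hB.1]; omega)
        have h6 := hB.1
        have h7 := hB.lt
        have h8 : ∀ L ∈ B2, L ≠ [] := fun L hL => (hB.2.1 L (by rw [h1]; simp [hL])).1
        have h9 : k - j.1 = B2.length := by omega
        rw [h1] at h7 ⊢
        rw [h9, ← h2, ins_eq i B1 B2 X Y l r h3 h4]
        exact GB_step M i a (by omega) B1 B2 X Y l r h3 h4 h8 (by omega) h7
      have hfib : ∀ p : Fin (k + 1) × Bool,
          Nonempty ({B // Valid S i (k + p.2.toNat + r.toNat) B ∧ GA M a (ins i p.1 p.2 r B)} ≃
            {B // Valid S i (k + p.2.toNat + r.toNat) B ∧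
              GB M a (ins i (sig k a ha p.1) p.2 r B)}) := by
        rintro ⟨j, l⟩
        have hj := j.2
        have hs := sig_val k a ha j
        dsimp only
        by_cases h : a ≤ j.1
        · rw [if_pos h] at hs
          obtain ⟨e⟩ := ih (by omega) (k + l.toNat + r.toNat) j (by omega)
          refine ⟨(Equiv.subtypeEquivRight fun B => and_congr_right fun hv => ?_).trans
            (e.trans (Equiv.subtypeEquivRight fun B => and_congr_right fun hv => ?_))⟩
          · rw [hA j l B hv]
            have : ¬ j.1 + 1 = a := by omega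
            simp [h, this]
          · rw [hB _ l B hv, hs, show k - (k - j.1) = j.1 by omega]
            constructor
            · exact fun h1 => Or.inl ⟨h, h1⟩
            · rintro (h1 | h1)
              · exact h1.2
              · omega
        · rw [if_neg h] at hs
          by_cases h2 : j.1 + 1 = a ∧ r = false
          · obtain ⟨e⟩ := ih (by omega) (k + l.toNat + r.toNat) (j + l.toNat) (by omega)
            refine ⟨(Equiv.subtypeEquivRight fun B => and_congr_right fun hv => ?_).trans
              (e.trans (Equiv.subtypeEquivRight fun B => and_congr_right fun hv => ?_))⟩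
            · rw [hA j l B hv]
              simp [h, h2.1, h2.2]
            · rw [hB _ l B hv, hs, show a - 1 = j.1 by omega]
              constructor
              · exact fun h1 => Or.inr ⟨by omega, by omega, h2.2, h1⟩
              · rintro (h1 | h1)
                · omega
                · exact h1.2.2.2
          · refine ⟨Equiv.subtypeEquivRight fun B => and_congr_right fun hv => ?_⟩
            rw [hA j l B hv, hB _ l B hv, hs]
            constructor
            · rintro (h1 | h1)
              · omega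
              · exact absurd ⟨h1.1, h1.2.1⟩ h2
            · rintro (h1 | h1)
              · omega
              · exact absurd ⟨by omega, h1.2.2.1⟩ h2
      exact ⟨eA.symm.trans ((Equiv.sigmaCongr ((sig k a ha).prodCongr (Equiv.refl Bool))
        (fun p => (hfib p).some)).trans eB)⟩

/-- descent-top-set equidistribution on words -/
theorem words (S : ℕ → Prop) (m : ℕ) (hm : 0 < m) :
    Nonempty ({w : List ℕ // w ~ range m ∧ dt S w ∧ AvA w} ≃
      {w : List ℕ // w ~ range m ∧ dt S w ∧ AvB w}) := by
  obtain ⟨e⟩ := main S m m le_rfl 1 0 (by omega)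
  have gen : ∀ (Av : List ℕ → Prop) (G : List (List ℕ) → Prop),
      (∀ w, w ~ range m → (G [w] ↔ Av w)) →
      Nonempty ({w : List ℕ // w ~ range m ∧ dt S w ∧ Av w} ≃ {B // Valid S m 1 B ∧ G B}) := by
    intro Av G h
    refine ⟨Equiv.ofBijective (fun w => ⟨[w.1], ⟨rfl, ?_, by simpa using w.2.1⟩,
      (h _ w.2.1).2 w.2.2.2⟩) ⟨?_, ?_⟩⟩
    · intro L hL
      rw [mem_singleton.1 hL]
      refine ⟨fun h0 => ?_, w.2.2.1⟩
      have := w.2.1.length_eq
      rw [h0] at this; simp at this; omega
    · intro v w hvw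
      apply Subtype.ext
      simpa using hvw
    · rintro ⟨B, hB, hG⟩
      obtain ⟨w, rfl⟩ := length_eq_one_iff.1 hB.1
      have hw : w ~ range m := by simpa using hB.2.2
      exact ⟨⟨w, hw, (hB.2.1 w (by simp)).2, (h w hw).1 hG⟩, rfl⟩
  obtain ⟨e1⟩ := gen AvA (GA m 0) (fun w hw => by
    simp only [GA, take_zero, flatten_nil, Pairwise.nil, true_and, W_cons, W_nil]
    refine ⟨fun h => h.mono (sublist_append_left _ _), fun h x y z u hs hp => ?_⟩
    rcases (sub4 ..).1 hs with h1 | ⟨-, h1⟩ | ⟨-, -, h2⟩ | ⟨-, -, h2⟩ | ⟨rfl, h1⟩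
    · exact h x y z u (by simpa using h1) hp
    · simp at h1
    · simp at h2
    · simp at h2
    · have := mem_range.1 (hw.subset (h1.subset (show z ∈ [x, y, z] by simp))); omega)
  obtain ⟨e2⟩ := gen AvB (GB m 0) (fun w hw => by
    simp only [GB, Nat.sub_zero, drop_length, flatten_nil, Pairwise.nil, true_and, W_cons, W_nil]
    refine ⟨fun h => h.mono (sublist_append_left _ _), fun h x y z u hs hp => ?_⟩
    rcases (sub4 ..).1 hs with h1 | ⟨-, h1⟩ | ⟨-, -, h2⟩ | ⟨-, -, h2⟩ | ⟨rfl, h1⟩
    · exact h x y z u (by simpa using h1) hp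
    · simp at h1
    · simp at h2
    · simp at h2
    · have := mem_range.1 (hw.subset (h1.subset (show z ∈ [x, y, z] by simp))); omega)
  exact ⟨e1.trans (e.trans e2.symm)⟩

end Pool.Agent.H134Z.Dumont
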