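import Pool.Agent.H134Z.DumC

set_option autoImplicit false

namespace Pool.Agent.H134Z.Dumont
open List

/-- one-line notation -/
def word {m : ℕ} (π : Equiv.Perm (Fin m)) : List ℕ := List.ofFn fun i => (π i).val

lemma word_perm {m : ℕ} (π : Equiv.Perm (Fin m)) : word π ~ range m := by
  have h1 : (List.ofFn fun i => (π i).val) ~ List.ofFn (fun i : Fin m => i.val) :=
    Equiv.Perm.ofFn_comp_perm π (fun i : Fin m => i.val)
  have h2 : List.ofFn (fun i : Fin m => i.val) = range m := by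
    apply List.ext_getElem <;> simp
  exact h2 ▸ h1

lemma word_inj {m : ℕ} : Function.Injective (word (m := m)) := by
  intro π σ h
  have := List.ofFn_injective h
  ext i
  exact congrFun this i

lemma word_surj {m : ℕ} (w : List ℕ) (hw : w ~ range m) : ∃ π : Equiv.Perm (Fin m), word π = w := by
  have hl : w.length = m := by simpa using hw.length_eq
  subst hl
  have hn : w.Nodup := hw.nodup_iff.2 nodup_range
  let f : Fin w.length → Fin w.length := fun i =>
    ⟨w.get i, mem_range.1 (hw.subset (get_mem _ _))⟩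
  have hf : Function.Injective f := fun i j h =>
    (nodup_iff_injective_get.1 hn) (congrArg Fin.val h)
  refine ⟨Equiv.ofBijective f (Finite.injective_iff_bijective.1 hf), ?_⟩
  apply List.ext_getElem <;> simp [word, f]

lemma dt_iff (S : ℕ → Prop) : ∀ w : List ℕ,
    dt S w ↔ ∀ i (h : i < w.length), (S w[i] ↔ ∃ h' : i + 1 < w.length, w[i + 1] < w[i])
  | [] => by simp [dt]
  | [x] => by simp [dt]
  | x :: y :: r => by
    rw [dt, dt_iff S (y :: r)]
    constructor
    · rintro ⟨h1, h2⟩ i hi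
      cases i with
      | zero => simpa using h1
      | succ i => simpa using h2 i (by simpa using hi)
    · intro h
      refine ⟨?_, fun i hi => ?_⟩
      · have := h 0 (by simp)
        simp only [List.getElem_cons_zero, List.getElem_cons_succ, List.length_cons] at this
        simpa using this
      · have := h (i + 1) (by simpa using hi)
        simp only [List.getElem_cons_succ, List.length_cons] at this ⊢
        simpa using this

lemma sub4_word {m : ℕ} (π : Equiv.Perm (Fin m)) (x y z u : ℕ) :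
    [x, y, z, u] <+ word π ↔ ∃ f : Fin 4 → Fin m, StrictMono f ∧ x = π (f 0) ∧ y = π (f 1) ∧
      z = π (f 2) ∧ u = π (f 3) := by
  rw [List.sublist_iff_exists_fin_orderEmbedding_get_eq]
  have hl : (word π).length = m := by simp [word]
  have hg : ∀ j : Fin (word π).length, (word π).get j = (π (Fin.cast hl j)).val := by
    intro j; simp [word]; rfl
  constructor
  · rintro ⟨f, hf⟩
    refine ⟨fun i => Fin.cast hl (f i), fun a b hab => f.strictMono hab, ?_, ?_, ?_, ?_⟩
    · exact (hf ⟨0, by simp⟩).trans (hg _)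
    · exact (hf ⟨1, by simp⟩).trans (hg _)
    · exact (hf ⟨2, by simp⟩).trans (hg _)
    · exact (hf ⟨3, by simp⟩).trans (hg _)
  · rintro ⟨f, hf, rfl, rfl, rfl, rfl⟩
    refine ⟨OrderEmbedding.ofStrictMono (fun i : Fin 4 => Fin.cast hl.symm (f i))
      (fun a b hab => hf hab), fun i => ?_⟩
    rw [hg]
    fin_cases i <;> rfl

lemma avA_word {m : ℕ} (π : Equiv.Perm (Fin m)) :
    (¬ ∃ f : Fin 4 → Fin m, StrictMono f ∧ ∀ a b : Fin 4, (π (f a) < π (f b) ↔
      (![1, 0, 3, 2] : Fin 4 → ℕ) a < (![1, 0, 3, 2] : Fin 4 → ℕ) b)) ↔ AvA (word π) := by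
  constructor
  · intro h x y z u hs hp
    obtain ⟨f, hf, rfl, rfl, rfl, rfl⟩ := (sub4_word ..).1 hs
    refine h ⟨f, hf, fun a b => ?_⟩
    fin_cases a <;> fin_cases b <;> simp [Fin.lt_def, -Fin.val_fin_lt] <;> omega
  · rintro h ⟨f, hf, h2⟩
    refine h _ _ _ _ ((sub4_word ..).2 ⟨f, hf, rfl, rfl, rfl, rfl⟩) ⟨?_, ?_, ?_⟩
    · exact (h2 1 0).2 (by simp)
    · exact (h2 0 3).2 (by simp)
    · exact (h2 3 2).2 (by simp)

lemma avB_word {m : ℕ} (π : Equiv.Perm (Fin m)) :
    (¬ ∃ f : Fin 4 → Fin m, StrictMono f ∧ ∀ a b : Fin 4, (π (f a) < π (f b) ↔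
      (![2, 3, 1, 0] : Fin 4 → ℕ) a < (![2, 3, 1, 0] : Fin 4 → ℕ) b)) ↔ AvB (word π) := by
  constructor
  · intro h x y z u hs hp
    obtain ⟨f, hf, rfl, rfl, rfl, rfl⟩ := (sub4_word ..).1 hs
    refine h ⟨f, hf, fun a b => ?_⟩
    fin_cases a <;> fin_cases b <;> simp [Fin.lt_def, -Fin.val_fin_lt] <;> omega
  · rintro h ⟨f, hf, h2⟩
    refine h _ _ _ _ ((sub4_word ..).2 ⟨f, hf, rfl, rfl, rfl, rfl⟩) ⟨?_, ?_, ?_⟩
    · exact (h2 3 2).2 (by simp)
    · exact (h2 2 0).2 (by simp)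
    · exact (h2 0 1).2 (by simp)

lemma dumont_word {m : ℕ} (π : Equiv.Perm (Fin m)) :
    (∀ i : Fin m,
      (Even ((π i).val + 1) → ∃ j : Fin m, j.val = i.val + 1 ∧ π j < π i) ∧
      (Odd ((π i).val + 1) → (i.val + 1 = m ∨ ∃ j : Fin m, j.val = i.val + 1 ∧ π i < π j))) ↔
    dt (fun x => Even (x + 1)) (word π) := by
  rw [dt_iff]
  have hl : (word π).length = m := by simp [word]
  constructor
  · intro h i hi
    have hi' : i < m := hl ▸ hi
    obtain ⟨h1, h2⟩ := h ⟨i, hi'⟩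
    simp only [word, List.getElem_ofFn, List.length_ofFn]
    constructor
    · intro he
      obtain ⟨⟨j, hj⟩, rfl, h3⟩ := h1 he
      exact ⟨hj, h3⟩
    · rintro ⟨hj, h3⟩
      by_contra he
      rcases h2 (Nat.not_even_iff_odd.1 he) with h4 | ⟨⟨j, hj'⟩, rfl, h4⟩
      · simp at h4; omega
      · exact absurd h3 (not_lt.2 (le_of_lt h4))
  · rintro h ⟨i, hi⟩
    have h1 := h i (hl.symm ▸ hi)
    simp only [word, List.getElem_ofFn, List.length_ofFn] at h1
    constructor
    · intro he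
      obtain ⟨hj, h3⟩ := h1.1 he
      exact ⟨⟨i + 1, hj⟩, rfl, h3⟩
    · intro ho
      by_cases hj : i + 1 < m
      · refine Or.inr ⟨⟨i + 1, hj⟩, rfl, ?_⟩
        have h2 : ¬ (π ⟨i + 1, hj⟩).val < (π ⟨i, hi⟩).val := fun h3 =>
          Nat.not_even_iff_odd.2 ho (h1.2 ⟨hj, h3⟩)
        have h3 : π ⟨i, hi⟩ ≠ π ⟨i + 1, hj⟩ := fun h4 => by simpa using π.injective h4
        exact lt_of_le_of_ne (not_lt.1 h2) h3
      · left; simp only; omega

theorem ncard_eq (S : ℕ → Prop) (m : ℕ) :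
    {π : Equiv.Perm (Fin m) | dt S (word π) ∧ AvA (word π)}.ncard =
      {π : Equiv.Perm (Fin m) | dt S (word π) ∧ AvB (word π)}.ncard := by
  rcases Nat.eq_zero_or_pos m with rfl | hm
  · congr 1
    ext π
    simp [word, AvA, AvB]
  obtain ⟨e⟩ := words S m hm
  have gen : ∀ Av : List ℕ → Prop,
      Nonempty ({π : Equiv.Perm (Fin m) | dt S (word π) ∧ Av (word π)} ≃
        {w : List ℕ // w ~ range m ∧ dt S w ∧ Av w}) := by
    intro Av
    refine ⟨Equiv.ofBijective (fun π => ⟨word π.1, word_perm _, π.2⟩) ⟨?_, ?_⟩⟩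
    · intro π σ h
      exact Subtype.ext (word_inj (congrArg Subtype.val h))
    · rintro ⟨w, hw, h⟩
      obtain ⟨π, rfl⟩ := word_surj w hw
      exact ⟨⟨π, h⟩, rfl⟩
  obtain ⟨e1⟩ := gen AvA
  obtain ⟨e2⟩ := gen AvB
  exact Set.ncard_congr' (e1.trans (e.trans e2.symm))

end Pool.Agent.H134Z.Dumont
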