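import Pool.Agent.H134Z.MacAlg

set_option autoImplicit false

namespace Pool.Agent.H134Z.Mac
open Finset

variable {R : Type} [CommRing R] {t : R} {N : ℕ}
variable {M : Type} [AddCommGroup M] [Module R M]

lemma yy_mul (ht : t ^ (N + 1) = 0) : (1 - t) * yy t N = 1 := by
  have := yy_eq ht; linear_combination this

noncomputable def DD (M : Type) [AddCommGroup M] [Module R M] (t : R) (N : ℕ) :
    Module.End R (F2 M) := row (D1 M t N)
noncomputable def T0 (M : Type) [AddCommGroup M] [Module R M] (t : R) (N : ℕ) :
    Module.End R (F2 M) := aa R M * MM R M * DD M t N - aa R M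
noncomputable def Vc (t : R) (N : ℕ) (w : Module.End R M) : Module.End R (F2 M) :=
  yy t N • 1 + val w * Ec R M
noncomputable def Vg (t : R) (N : ℕ) (w : Module.End R M) : Module.End R (F2 M) :=
  yy t N • 1 + val w * Eg R M
noncomputable def Tl (t : R) (N : ℕ) (w : Module.End R M) : Module.End R (F2 M) :=
  aa R M * MM R M * Vc t N w * (DD M t N - 1) + yy t N • (aa R M * MM R M - aa R M)
noncomputable def UU (t : R) (N : ℕ) (w : Module.End R M) : Module.End R (F2 M) :=
  (DD M t N - Ec R M) * aa R M * MM R M * Vc t N w - yy t N • ((1 - Ec R M) * aa R M)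
noncomputable def ZZ (M : Type) [AddCommGroup M] [Module R M] (t : R) (N : ℕ) :
    Module.End R (F2 M) := DD M t N - 1 + NN R M
noncomputable def JJ (R M : Type) [CommRing R] [AddCommGroup M] [Module R M] :
    Module.End R (F2 M) := 1 - Eg R M - aa R M * row (L1 R M)
noncomputable def YY (t : R) (w : Module.End R M) : Module.End R (F2 M) :=
  1 + (t * (1 - t)) • (row (K1 R M) * val w * JJ R M)

lemma aa_Vc (w : Module.End R M) (F : F2 M) : aa R M (Vc t N w F) = yy t N • aa R M F := by
  simp [Vc, val_aa, aa_Ec]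
lemma Vc_NN (w : Module.End R M) (F : F2 M) : Vc t N w (NN R M F) = yy t N • NN R M F := by
  simp [Vc, Ec_NN]

lemma ident2 (w : Module.End R M) (F : F2 M) :
    ZZ M t N (Tl t N w F) = UU t N w (ZZ M t N F) := by
  simp only [ZZ, Tl, UU, LinearMap.add_apply, LinearMap.sub_apply, Module.End.mul_apply,
    Module.End.one_apply, LinearMap.smul_apply, map_add, map_sub, map_smul, Vc_NN, MM_NN,
    NN_aa_MM, aa_Vc]
  rw [NN_aa F]
  module

lemma JJ_aa_MM (F : F2 M) :
    JJ R M (aa R M (MM R M F)) = - aa R M (aa R M (row (L1 R M) F)) := by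
  have := J_aa_MM (R := R) F
  simpa [JJ] using this

lemma JJ_aa (F : F2 M) : JJ R M (aa R M F) =
    aa R M F - aa R M (Eg R M F) - aa R M (aa R M (row (L1 R M) F)) := by
  simp [JJ, Eg_aa, row_aa]

lemma Eg_K_J (w : Module.End R M) (F : F2 M) :
    Eg R M (row (K1 R M) (val w (JJ R M F))) = 0 := by
  ext c g
  cases g <;> simp [K1_apply, JJ]

lemma L_Vc (w : Module.End R M) (F : F2 M) :
    aa R M (aa R M (row (L1 R M) (Vc t N w F))) = yy t N • aa R M (aa R M (row (L1 R M) F)) := by
  rw [← row_aa, ← row_aa, aa_Vc]; simp [row_aa]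

lemma ident1 (ht : t ^ (N + 1) = 0) (w : Module.End R M) (H : F2 M) :
    YY t w (Tl t N w H) = T0 M t N (Vg t N w (YY t w H)) := by
  have hy := yy_mul ht
  set y := yy t N with hydef
  set P := DD M t N H with hP
  have hS : P = H + t • row (K1 R M) P := row_D ht H
  -- value of `Vg Y H`
  have e1 : Vg t N w (YY t w H) =
      y • H + t • row (K1 R M) (val w (JJ R M H)) + val w (Eg R M H) := by
    simp only [Vg, YY, LinearMap.add_apply, Module.End.mul_apply, Module.End.one_apply,
      LinearMap.smul_apply, map_add, map_smul, Eg_K_J, map_zero, smul_zero, add_zero, smul_add,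
      smul_smul, ← hydef]
    rw [show t * (1 - t) * y = t by linear_combination t * hy]
    abel
  have e2 : ∀ G : F2 M, t • DD M t N (row (K1 R M) G) = DD M t N G - G := by
    intro G
    have := row_D ht G
    unfold DD
    rw [D_K]
    conv_rhs => rw [this]
    abel
  have e3 : DD M t N (Vg t N w (YY t w H)) =
      y • P + val w (P - H - aa R M (row (L1 R M) (P - H)) + Eg R M H) := by
    rw [e1, map_add, map_add, map_smul, map_smul, e2]
    simp only [DD, val_D ht, JJ, LinearMap.sub_apply, Module.End.mul_apply, Module.End.one_apply,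
      map_sub, map_add, row_aa, D_L]
    simp only [hP, DD]
    abel
  have e4 : t • row (K1 R M) (val w (aa R M (aa R M (row (L1 R M) P)))) =
      val w (aa R M (aa R M (row (L1 R M) (P - H)))) := by
    have : P - H = t • row (K1 R M) P := by rw [sub_eq_iff_eq_add']; exact hS
    rw [this]
    simp only [map_smul, val_K, row_aa, K_L]
  have e5 : Tl t N w H = aa R M (MM R M (Vc t N w (P - H))) +
      y • (aa R M (MM R M H) - aa R M H) := by
    simp [Tl, hP, hydef]
  have e6 : (t * (1 - t)) • row (K1 R M) (val w (JJ R M (Tl t N w H))) =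
      - t • row (K1 R M) (val w (aa R M (aa R M (row (L1 R M) (P - H))))) -
        t • row (K1 R M) (val w (aa R M H - aa R M (Eg R M H))) := by
    rw [e5]
    simp only [map_add, map_smul, JJ_aa_MM, L_Vc, map_neg, ← hydef]
    rw [map_sub (JJ R M), JJ_aa_MM, JJ_aa]
    simp only [map_sub, map_neg, smul_add, smul_smul, smul_neg]
    rw [show t * (1 - t) * y = t by linear_combination t * hy]
    module
  have e7 : YY t w (Tl t N w H) = Tl t N w H +
      (t * (1 - t)) • row (K1 R M) (val w (JJ R M (Tl t N w H))) := by simp [YY]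
  have e8 : aa R M (row (K1 R M) (val w (JJ R M H))) = row (K1 R M) (val w (aa R M H -
      aa R M (Eg R M H) - aa R M (aa R M (row (L1 R M) H)))) := by
    rw [← JJ_aa]; rfl
  rw [e7, e6, e5]
  simp only [T0, LinearMap.sub_apply, Module.End.mul_apply]
  rw [e3, e1]
  simp only [map_add, map_smul, val_MM, val_aa, e8, Vc, LinearMap.add_apply, LinearMap.smul_apply,
    Module.End.mul_apply, Module.End.one_apply, ← hydef, MM_Eg]
  rw [map_sub (MM R M) (P - H), MM_tel]
  simp only [map_add, map_sub, val_aa] at e4 ⊢
  linear_combination (norm := module) -e4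

end Pool.Agent.H134Z.Mac
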