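import Pool.Agent.H134Z.MacAlg2

set_option autoImplicit false

namespace Pool.Agent.H134Z.Mac
open Finset

variable {R : Type} [CommRing R] {t : R} {N : ℕ}
variable {M : Type} [AddCommGroup M] [Module R M]

def ev (φ : ℕ → M) : F2 M := fun c g => φ (c + g + 1)

def evp (R M : Type) [CommRing R] [AddCommGroup M] [Module R M] : (ℕ → M) →ₗ[R] F2 M where
  toFun ρ c g := ρ (c + g + 2)
  map_add' _ _ := rfl
  map_smul' _ _ := rfl

noncomputable def Th (M : Type) [AddCommGroup M] [Module R M] (t : R) (N : ℕ) :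
    (ℕ → M) →ₗ[R] F2 M := (geo N (t • (yy t N • T0 M t N))) ∘ₗ evp R M

lemma Th_eq (ht : t ^ (N + 1) = 0) (ρ : ℕ → M) :
    Th M t N ρ = evp R M ρ + t • (yy t N • T0 M t N) (Th M t N ρ) :=
  geo_apply ht _ _

noncomputable def RR (M : Type) [AddCommGroup M] [Module R M] (t : R) (N : ℕ) :
    Module.End R (ℕ → M) where
  toFun ρ := (D1 M t N - 1) (fun g => ρ (g + 1) + (t * yy t N) • DD M t N (Th M t N ρ) 0 g)
  map_add' ρ ρ' := by
    rw [← map_add]; congr 1; ext g; simp only [map_add, Pi.add_apply, smul_add]; abel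
  map_smul' r ρ := by
    rw [RingHom.id_apply, ← map_smul]; congr 1; ext g
    simp only [map_smul, Pi.smul_apply, smul_add, smul_comm r (t * yy t N)]

lemma RR_apply (ρ : ℕ → M) : RR M t N ρ =
    (D1 M t N - 1) (fun g => ρ (g + 1) + (t * yy t N) • DD M t N (Th M t N ρ) 0 g) := rfl

lemma JJ_ev (φ : ℕ → M) : JJ R M (ev φ) = 0 := by
  ext c g
  cases g with
  | zero => simp [JJ, ev]
  | succ g => simp [JJ, ev, show c + (g + 1) + 1 = c + 1 + g + 1 by omega]

lemma ZZ_ev (φ : ℕ → M) : ZZ M t N (ev φ) = DD M t N (ev φ) - Ec R M (ev φ) := by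
  have : NN R M (ev φ) = ev φ - Ec R M (ev φ) := by
    ext c g
    cases c with
    | zero => simp
    | succ c => simp [ev, show c + (g + 1) + 1 = c + 1 + g + 1 by omega]
  simp [ZZ, this]

lemma alpha (ht : t ^ (N + 1) = 0) (w : Module.End R M) (φ ρ : ℕ → M) (Φ : F2 M)
    (hρ : ∀ k, ρ k = φ k + t • (yy t N • RR M t N ρ k + w (RR M t N ρ k)))
    (hΦ : Φ = ev φ + t • (T0 M t N * Vg t N w) Φ) :
    (t * yy t N) • Φ 0 0 = RR M t N ρ 0 := by
  set Φ' := geo N (t • Tl t N w) (ev φ) with hΦ'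
  have h1 : Φ' = ev φ + t • Tl t N w Φ' := geo_apply ht _ _
  have h2 : YY t w (ev φ) = ev φ := by simp [YY, JJ_ev]
  have h3 : Φ = YY t w Φ' := by
    refine uniq ht _ hΦ ?_
    conv_lhs => rw [h1]
    rw [map_add, map_smul, h2, ident1 ht]; rfl
  have h4 : Φ 0 0 = Φ' 0 0 := by
    rw [h3]; simp [YY, JJ, K1_apply]
  have h5 : ZZ M t N Φ' = (DD M t N (ev φ) - Ec R M (ev φ)) + t • UU t N w (ZZ M t N Φ') := by
    conv_lhs => rw [h1]
    rw [map_add, map_smul, ZZ_ev, ident2]
  have h6 : ZZ M t N Φ' 0 0 = (t * yy t N) • Φ' 0 0 := by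
    have := yy_eq ht
    simp only [ZZ, DD, LinearMap.add_apply, LinearMap.sub_apply, Module.End.one_apply,
      Pi.add_apply, Pi.sub_apply, row_apply, D1_zero ht, NN_zero, add_zero]
    conv_lhs => rw [this]
    rw [add_smul, one_smul]; abel
  let Ψ : F2 M := fun c => Nat.casesOn c (RR M t N ρ) fun c => DD M t N (Th M t N ρ) c
  have hΨ0 : Ψ 0 = RR M t N ρ := rfl
  have hΨ1 : ∀ c, Ψ (c + 1) = DD M t N (Th M t N ρ) c := fun _ => rfl
  have h7 : ev φ + t • aa R M (MM R M (Vc t N w Ψ)) =
      ev ρ + (t * yy t N) • MM R M (DD M t N (Th M t N ρ)) := by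
    ext c g
    simp only [Pi.add_apply, Pi.smul_apply, aa_apply, ev, MM_apply]
    rw [sum_range_succ, hρ (c + g + 1), smul_add, Nat.sub_self]
    have : ∑ j ∈ range (c + 1), Vc t N w Ψ (c + 1 - j) (g + j) =
        yy t N • ∑ j ∈ range (c + 1), DD M t N (Th M t N ρ) (c - j) (g + j) := by
      rw [smul_sum]
      refine sum_congr rfl fun j hj => ?_
      rw [show c + 1 - j = (c - j) + 1 by have := mem_range.1 hj; omega]
      simp [Vc, hΨ1]
    rw [this, smul_smul]
    simp only [Vc, LinearMap.add_apply, LinearMap.smul_apply, Module.End.one_apply,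
      Module.End.mul_apply, Pi.add_apply, Pi.smul_apply, val_apply, Ec_zero, hΨ0,
      show g + (c + 1) = c + g + 1 by omega]
    module
  have h8 : Ψ = (DD M t N (ev φ) - Ec R M (ev φ)) + t • UU t N w Ψ := by
    have e : (DD M t N (ev φ) - Ec R M (ev φ)) + t • UU t N w Ψ =
        (DD M t N - Ec R M) (ev φ + t • aa R M (MM R M (Vc t N w Ψ))) -
          (t * yy t N) • (1 - Ec R M) (aa R M Ψ) := by
      simp only [UU, LinearMap.sub_apply, LinearMap.smul_apply, Module.End.mul_apply, map_add,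
        map_smul, Module.End.one_apply]
      module
    rw [e, h7]
    ext1 c
    cases c with
    | zero =>
      rw [hΨ0, RR_apply]
      simp only [LinearMap.sub_apply, Module.End.one_apply, Pi.sub_apply, Pi.smul_apply, Ec_zero,
        sub_self, smul_zero, sub_zero, DD, row_apply]
      have : (ev ρ + (t * yy t N) • MM R M (row (D1 M t N) (Th M t N ρ))) 0 =
          fun g => ρ (g + 1) + (t * yy t N) • D1 M t N (Th M t N ρ 0) g := by
        ext g; simp [ev, MM_zero]
      rw [this]
    | succ c =>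
      have e2 := congrFun (Th_eq ht ρ) c
      simp only [LinearMap.sub_apply, Module.End.one_apply, Pi.sub_apply, Pi.smul_apply, Ec_succ,
        sub_zero, aa_apply, hΨ1]
      simp only [DD, row_apply]
      rw [← map_smul (D1 M t N), ← map_sub]
      congr 1
      rw [e2]
      ext g
      simp only [T0, DD, ev, evp, LinearMap.smul_apply, LinearMap.sub_apply, Module.End.mul_apply,
        Pi.add_apply, Pi.smul_apply, Pi.sub_apply, aa_apply, LinearMap.coe_mk, AddHom.coe_mk,
        show c + 1 + g + 1 = c + g + 2 by omega]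
      module
  rw [h4, ← h6, uniq ht _ h5 h8, hΨ0]

/-- naturality -/
def lift2 {M' : Type} [AddCommGroup M'] [Module R M'] (l : M →ₗ[R] M') : F2 M →ₗ[R] F2 M' :=
  (l.compLeft ℕ).compLeft ℕ

section nat
variable {M' : Type} [AddCommGroup M'] [Module R M'] (l : M →ₗ[R] M')

@[simp] lemma lift2_apply (F : F2 M) (c g : ℕ) : lift2 l F c g = l (F c g) := rfl

lemma DD_nat (ht : t ^ (N + 1) = 0) (F : F2 M) :
    DD M' t N (lift2 l F) = lift2 l (DD M t N F) := by
  ext c g
  exact (congrFun (D1_nat ht l (F c)) g).symm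

lemma T0_nat (ht : t ^ (N + 1) = 0) (F : F2 M) :
    T0 M' t N (lift2 l F) = lift2 l (T0 M t N F) := by
  simp only [T0, LinearMap.sub_apply, Module.End.mul_apply, DD_nat l ht, map_sub]
  ext c g
  simp [MM_apply]

lemma Th_nat (ht : t ^ (N + 1) = 0) (ρ : ℕ → M) :
    Th M' t N (fun k => l (ρ k)) = lift2 l (Th M t N ρ) := by
  refine uniq ht _ (Th_eq ht _) ?_
  conv_lhs => rw [Th_eq ht ρ]
  simp only [map_add, map_smul, LinearMap.smul_apply, T0_nat l ht]
  rfl

lemma RR_nat (ht : t ^ (N + 1) = 0) (ρ : ℕ → M) :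
    RR M' t N (fun k => l (ρ k)) = fun k => l (RR M t N ρ k) := by
  simp only [RR_apply, Th_nat l ht, DD_nat l ht, LinearMap.sub_apply, Module.End.one_apply,
    Pi.sub_apply, map_sub]
  ext k
  rw [congrFun (D1_nat ht l _) k]
  simp

lemma Q_nat (ht : t ^ (N + 1) = 0) (b : ℕ) (ρ : ℕ → M) :
    ((1 + RR M' t N) ^ b) (fun k => l (ρ k)) = fun k => l (((1 + RR M t N) ^ b) ρ k) := by
  induction b with
  | zero => simp
  | succ b ih =>
    rw [pow_succ', pow_succ', Module.End.mul_apply, Module.End.mul_apply, ih]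
    simp only [LinearMap.add_apply, Module.End.one_apply, RR_nat l ht]
    ext k; simp
end nat

def io (R M : Type) [CommRing R] [AddCommGroup M] [Module R M] : F2 M →ₗ[R] F2 (ℕ → M) where
  toFun F c g h := F c (g + h)
  map_add' _ _ := rfl
  map_smul' _ _ := rfl

@[simp] lemma io_apply (F : F2 M) (c g h : ℕ) : io R M F c g h = F c (g + h) := rfl

noncomputable def wB (M : Type) [AddCommGroup M] [Module R M] (t : R) (N : ℕ) :
    Module.End R (ℕ → M) := K1 R M * D1 M t N - yy t N • 1

lemma DD_Vg_io (ht : t ^ (N + 1) = 0) (F : F2 M) :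
    DD (ℕ → M) t N (Vg t N (wB M t N) (io R M F)) =
      Vg t N (wB M t N) (io R M F) + yy t N • io R M (DD M t N F - F) := by
  refine uniq ht (row (K1 R (ℕ → M))) (row_D ht _) ?_
  rw [add_right_inj]
  ext c g h
  have hy := yy_eq ht
  set y := yy t N with hydef
  set u := D1 M t N (F c) with hu
  have hu2 : ∀ k, u k - F c k = t • K1 R M u k := fun k => by
    have := congrFun (D1_eq ht (F c)) k
    rw [← hu] at this
    rw [this]; simp
  have e1 : ∀ j, (Vg t N (wB M t N) (io R M F) + y • io R M (DD M t N F - F)) c j h =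
      y • u (j + h) + (if j = 0 then K1 R M u h - y • F c h else 0) := by
    intro j
    cases j with
    | zero =>
      have : io R M F c 0 = F c := by ext k; simp
      simp [Vg, wB, DD, this, ← hu, ← hydef, smul_sub]; abel
    | succ j => simp [Vg, DD, ← hu, ← hydef, smul_sub]
  simp only [Pi.smul_apply, row_apply, K1_apply, Finset.sum_apply, e1, sum_add_distrib,
    sum_ite_eq', mem_range, Nat.succ_pos, if_true, io_apply, Pi.sub_apply]
  simp only [DD, row_apply, ← hu, hu2, K1_apply]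
  rw [← smul_sum, show g + h + 1 = h + (g + 1) by omega, sum_range_add]
  have e2 := hu2 h
  rw [K1_apply, sum_range_succ] at e2
  rw [sum_range_succ u h]
  simp only [add_comm h]
  have e3 : F c h = u h - t • (∑ j ∈ range h, u j + u h) := by rw [← e2]; abel
  rw [e3]
  generalize ∑ j ∈ range h, u j = A
  generalize ∑ j ∈ range (g + 1), u (j + h) = B
  have hy2 : t * y = t + t * (t * y) := by linear_combination t * hy
  have : (y * t) • A = t • (A + u h) + (t * y * t) • (A + u h) - (t * y) • u h := by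
    rw [← add_smul, show t + t * y * t = y * t by linear_combination -hy2]; module
  linear_combination (norm := module) this

lemma T0_Vg_io (ht : t ^ (N + 1) = 0) (F : F2 M) :
    T0 (ℕ → M) t N (Vg t N (wB M t N) (io R M F)) = io R M (yy t N • T0 M t N F) := by
  have e1 : ∀ G : F2 M, MM R (ℕ → M) (io R M G) = io R M (MM R M G) := by
    intro G; ext c g h
    simp [MM_apply, add_right_comm]
  have e2 : ∀ G : F2 M, aa R (ℕ → M) (io R M G) = io R M (aa R M G) := fun _ => rfl
  simp only [T0, LinearMap.sub_apply, Module.End.mul_apply, DD_Vg_io ht]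
  simp only [Vg, LinearMap.add_apply, LinearMap.smul_apply, Module.End.one_apply,
    Module.End.mul_apply, map_add, map_smul, map_sub, val_MM, MM_Eg, e1, e2]
  module

lemma beta (ht : t ^ (N + 1) = 0) (ρ : ℕ → M) :
    ρ + RR M t N ρ = ρ - (fun h => ρ (h + 1)) +
      geo N (t • ((K1 R M).compLeft ℕ * (1 + RR (ℕ → M) t N))) (fun k h => ρ (k + h + 1)) 0 := by
  set φ : ℕ → ℕ → M := fun k h => ρ (k + h + 1) with hφ
  set S := geo N (t • ((K1 R M).compLeft ℕ * (1 + RR (ℕ → M) t N))) φ with hSdef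
  have hS : S = φ + t • ((K1 R M).compLeft ℕ * (1 + RR (ℕ → M) t N)) S := geo_apply ht _ _
  have hS' : ∀ k, S k = φ k + t • K1 R M (S k + RR (ℕ → M) t N S k) := fun k => congrFun hS k
  have hD : ∀ f : ℕ → M, D1 M t N (f - t • K1 R M f) = f := by
    intro f
    refine uniq ht (K1 R M) (D1_eq ht _) ?_
    abel
  let l : (ℕ → M) →ₗ[R] (ℕ → M) := 1 - t • K1 R M
  have hl : ∀ f, l f = f - t • K1 R M f := fun _ => rfl
  have hR := RR_nat l ht S
  have hΞ : io R M (Th M t N ρ) = ev φ +
      t • (T0 (ℕ → M) t N * Vg t N (wB M t N)) (io R M (Th M t N ρ)) := by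
    rw [Module.End.mul_apply, T0_Vg_io ht]
    conv_lhs => rw [Th_eq ht ρ]
    rw [map_add, map_smul]
    congr 1
    ext c g h
    simp [evp, ev, hφ, show c + (g + h) + 2 = c + g + 1 + h + 1 by omega]
  have h1 := alpha ht (wB M t N) φ (fun k => l (S k)) _ (by
    intro k
    rw [hR]
    simp only [wB, LinearMap.sub_apply, Module.End.mul_apply, LinearMap.smul_apply,
      Module.End.one_apply, hl, hD]
    have e := hS' k
    rw [map_add] at e
    linear_combination (norm := module) e) hΞ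
  rw [hR] at h1
  have h2 : (t * yy t N) • Th M t N ρ 0 = l (RR (ℕ → M) t N S 0) := by
    refine Eq.trans ?_ h1
    ext h; simp
  have h3 : (fun g => ρ (g + 1) + (t * yy t N) • DD M t N (Th M t N ρ) 0 g) =
      l (S 0 + RR (ℕ → M) t N S 0) := by
    have : (t * yy t N) • DD M t N (Th M t N ρ) 0 = RR (ℕ → M) t N S 0 := by
      simp only [DD, row_apply]
      rw [← map_smul, h2, hl, hD]
    rw [hl, ← this]
    have e := hS' 0
    rw [← this] at e
    have e' : t • K1 R M (S 0 + (t * yy t N) • DD M t N (Th M t N ρ) 0) = S 0 - φ 0 := by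
      rw [eq_sub_iff_add_eq', ← e]
    rw [e']
    ext g
    simp [hφ]; abel
  rw [RR_apply, h3, LinearMap.sub_apply, hl, hD, Module.End.one_apply]
  have e := hS' 0
  have e' : t • K1 R M (S 0 + RR (ℕ → M) t N S 0) = S 0 - φ 0 := by
    rw [eq_sub_iff_add_eq', ← e]
  rw [e']
  ext g
  simp [hφ]; abel

end Pool.Agent.H134Z.Mac
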