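import Pool.Agent.H134Z.MacAlg3

set_option autoImplicit false

namespace Pool.Agent.H134Z.Mac
open Finset

variable {R : Type} [CommRing R] {t : R} {N : ℕ}

lemma sum_shift {V : Type} [AddCommMonoid V] (f : ℕ → V) (h : f (N + 1) = 0) :
    ∑ e ∈ range (N + 1), f e = f 0 + ∑ e ∈ range (N + 1), f (e + 1) := by
  have h1 := sum_range_succ f (N + 1)
  rw [h, add_zero] at h1
  rw [← h1, sum_range_succ', add_comm]

def ph (R : Type) [CommRing R] (c : ℕ) : ℕ → R := (K1 R R ^ c) fun _ => 1

lemma ph_zero (k : ℕ) : ph R 0 k = 1 := rfl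
lemma K_ph (c : ℕ) : K1 R R (ph R c) = ph R (c + 1) := by
  simp [ph, pow_succ']
lemma Kp_ph (b c : ℕ) : (K1 R R ^ b) (ph R c) = ph R (c + b) := by
  rw [ph, ph, add_comm, pow_add]; rfl
lemma ph_at0 (c : ℕ) : ph R c 0 = 1 := by
  induction c with
  | zero => rfl
  | succ c ih => rw [← K_ph, K1_apply]; simpa using ih
lemma ph_succ (c k : ℕ) : ph R (c + 1) (k + 1) = ph R (c + 1) k + ph R c (k + 1) := by
  rw [← K_ph, K1_apply, K1_apply, sum_range_succ]

lemma vander (h k c : ℕ) :
    ph R c (k + h + 1) = ∑ i ∈ range (c + 1), ph R (c - i) k * ph R i h := by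
  induction k generalizing c with
  | zero =>
    simp only [ph_at0, one_mul, zero_add]
    induction c with
    | zero => simp [ph_zero]
    | succ c ih => rw [ph_succ, ih, sum_range_succ _ (c + 1), add_comm]
  | succ k ihk =>
    induction c with
    | zero => simp [ph_zero]
    | succ c ih =>
      rw [show k + 1 + h + 1 = (k + h + 1) + 1 by omega, ph_succ, ihk,
        show k + h + 1 + 1 = k + 1 + h + 1 by omega, ih, sum_range_succ _ (c + 1),
        sum_range_succ _ (c + 1), Nat.sub_self, ph_zero, ph_zero, add_right_comm,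
        ← sum_add_distrib]
      congr 1
      refine sum_congr rfl fun i hi => ?_
      rw [show c + 1 - i = (c - i) + 1 by have := mem_range.1 hi; omega, ph_succ]
      ring

noncomputable def gam (t : R) (N c b : ℕ) : R := ((1 + RR R t N) ^ b) (ph R c) 0

lemma gam_zero (c : ℕ) : gam t N c 0 = 1 := ph_at0 c

lemma Q_ph (ht : t ^ (N + 1) = 0) (c : ℕ) : (1 + RR R t N) (ph R c) = ph R c +
    ∑ e ∈ range (N + 1), ∑ i ∈ range (c + 1),
      (t ^ (e + 1) * gam t N (c - i) (e + 1)) • ph R (i + (e + 1)) := by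
  have hb := beta ht (ph R c)
  set φ : ℕ → ℕ → R := fun k h => ph R c (k + h + 1) with hφ
  have hcomm : Commute ((K1 R R).compLeft ℕ) (1 + RR (ℕ → R) t N) := by
    ext1 f
    have := Q_nat (K1 R R) ht 1 f
    rw [pow_one] at this
    exact this.symm
  have hK : ∀ (b : ℕ) (f : ℕ → ℕ → R), (((K1 R R).compLeft ℕ) ^ b) f 0 = (K1 R R ^ b) (f 0) := by
    intro b
    induction b with
    | zero => intro f; rfl
    | succ b ih => intro f; rw [pow_succ, pow_succ, Module.End.mul_apply, ih]; rfl
  have hφ2 : φ = ∑ i ∈ range (c + 1),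
      fun k => LinearMap.toSpanSingleton R (ℕ → R) (ph R i) (ph R (c - i) k) := by
    ext k h
    simp [hφ, vander, Finset.sum_apply]
  have hterm : ∀ b : ℕ, ((t • ((K1 R R).compLeft ℕ * (1 + RR (ℕ → R) t N))) ^ b) φ 0 =
      ∑ i ∈ range (c + 1), (t ^ b * gam t N (c - i) b) • ph R (i + b) := by
    intro b
    rw [smul_pow, hcomm.mul_pow, LinearMap.smul_apply, Pi.smul_apply, Module.End.mul_apply, hK,
      hφ2, map_sum, Finset.sum_apply, map_sum, smul_sum]
    refine sum_congr rfl fun i _ => ?_
    rw [Q_nat _ ht]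
    simp [gam, Kp_ph, mul_smul]
  rw [LinearMap.add_apply, Module.End.one_apply, hb, geo, LinearMap.sum_apply, Finset.sum_apply,
    sum_shift _ (by rw [nil_smul ht]; rfl)]
  simp only [hterm]
  have : ∑ i ∈ range (c + 1), (t ^ 0 * gam t N (c - i) 0) • ph R (i + 0) =
      fun h => ph R c (h + 1) := by
    rw [← hterm]; ext h; simp [hφ]
  rw [this]; abel

lemma gam_succ (ht : t ^ (N + 1) = 0) (c b : ℕ) : gam t N c (b + 1) = gam t N c b +
    ∑ e ∈ range (N + 1), ∑ i ∈ range (c + 1),
      t ^ (e + 1) * gam t N (c - i) (e + 1) * gam t N (i + (e + 1)) b := by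
  rw [gam, pow_succ, Module.End.mul_apply, Q_ph ht]
  simp only [map_add, map_sum, map_smul, Pi.add_apply, Finset.sum_apply, Pi.smul_apply,
    smul_eq_mul]
  rfl

lemma gam_01 (ht : t ^ (N + 1) = 0) : gam t N 0 1 =
    1 + t * yy t N * (1 + t * yy t N * (yy t N * Th R t N (fun _ => 1) 0 0)) := by
  have hy := yy_eq ht
  have : ph R 0 = fun _ => 1 := rfl
  simp only [gam, pow_one, this, LinearMap.add_apply, Module.End.one_apply, Pi.add_apply, RR_apply,
    LinearMap.sub_apply, Pi.sub_apply, D1_zero ht, DD, row_apply, smul_eq_mul]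
  linear_combination (1 + t * yy t N * (yy t N * Th R t N (fun _ => 1) 0 0)) * hy

/-! the two counting recursions -/

def extN (F : List ℕ → ℕ → ℕ) : List ℕ → ℕ → ℕ
  | [], _ => 0
  | w :: L, c => F ((w + 1) :: L) c + extN F L w

def cnt : ℕ → List ℕ → ℕ → ℕ
  | 0 => fun _ _ => 1
  | n + 1 => fun L c => ∑ i ∈ range (c + 1), cnt n ((i + 1) :: L) (c - i) + extN (cnt n) L c

def acnt : ℕ → Bool → ℕ → ℕ → ℕ
  | 0 => fun _ _ _ => 1
  | n + 1 => fun f k c => ∑ j ∈ range k, acnt n false (j + 1) c +
      acnt n true k (if f then c else c + 1) + ∑ i ∈ range (c + 1), acnt n true (k + i + 1) (c - i)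

def extR (F : List ℕ → ℕ → R) : List ℕ → ℕ → R
  | [], _ => 0
  | w :: L, c => F ((w + 1) :: L) c + extR F L w

def AM (R : Type) [CommRing R] : Module.End R (List ℕ → ℕ → R) where
  toFun F L c := ∑ i ∈ range (c + 1), F ((i + 1) :: L) (c - i) + extR F L c
  map_add' F G := by
    have : ∀ L c, extR (F + G) L c = extR F L c + extR G L c := by
      intro L; induction L with
      | nil => simp [extR]
      | cons w L ih => intro c; simp [extR, ih]; abel
    ext L c; simp [this, sum_add_distrib]; abel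
  map_smul' r F := by
    have : ∀ L c, extR (r • F) L c = r * extR F L c := by
      intro L; induction L with
      | nil => simp [extR]
      | cons w L ih => intro c; simp [extR, ih, mul_add]
    ext L c; simp [this, mul_add, mul_sum]

lemma AM_apply (F : List ℕ → ℕ → R) (L : List ℕ) (c : ℕ) :
    AM R F L c = ∑ i ∈ range (c + 1), F ((i + 1) :: L) (c - i) + extR F L c := rfl

lemma AM_pow (n : ℕ) : (AM R ^ n) (fun _ _ => 1) = fun L c => (cnt n L c : R) := by
  induction n with
  | zero => ext L c; simp [cnt]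
  | succ n ih =>
    rw [pow_succ', Module.End.mul_apply, ih]
    have : ∀ L c, extR (fun L c => (cnt n L c : R)) L c = (extN (cnt n) L c : R) := by
      intro L; induction L with
      | nil => simp [extR, extN]
      | cons w L ih => intro c; simp [extR, extN, ih]
    ext L c
    simp [AM_apply, cnt, this]

noncomputable def kap (t : R) (N : ℕ) : List ℕ → ℕ → R
  | [], e => if e = 0 then 1 else 0
  | w :: L, e => ∑ e' ∈ range (N + 1), t ^ e' * gam t N (w + e) e' * kap t N L e'

noncomputable def EE (t : R) (N : ℕ) (L : List ℕ) (c : ℕ) : R :=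
  ∑ e ∈ range (N + 1), t ^ e * gam t N c e * kap t N L e
noncomputable def VV (t : R) (N : ℕ) (L : List ℕ) (c : ℕ) : R :=
  ∑ e ∈ range (N + 1), t ^ e * gam t N c (e + 1) * kap t N L e

lemma kap_cons (w : ℕ) (L : List ℕ) (e : ℕ) : kap t N (w :: L) e = EE t N L (w + e) := rfl

lemma EE_eq (ht : t ^ (N + 1) = 0) (L : List ℕ) (c : ℕ) :
    EE t N L c = 1 + t * extR (VV t N) L c := by
  induction L generalizing c with
  | nil =>
    rw [EE, sum_range_succ']
    simp [kap, extR, gam_zero]
  | cons w L ih =>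
    rw [EE, sum_shift _ (by rw [ht]; ring), extR, kap_cons, add_zero, ih, gam_zero, VV]
    have : ∀ e, t ^ (e + 1) * gam t N c (e + 1) * kap t N (w :: L) (e + 1) =
        t * (t ^ e * gam t N c (e + 1) * kap t N ((w + 1) :: L) e) := by
      intro e
      rw [kap_cons, kap_cons, show w + (e + 1) = w + 1 + e by omega]; ring
    simp only [this, ← mul_sum]; ring

lemma VV_eq (ht : t ^ (N + 1) = 0) : VV t N = (fun _ _ => 1) + t • AM R (VV t N) := by
  ext L c
  have h1 : VV t N L c = EE t N L c + t * ∑ i ∈ range (c + 1), VV t N ((i + 1) :: L) (c - i) := by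
    simp only [VV, EE, kap_cons, gam_succ ht c, mul_add, add_mul, sum_add_distrib, mul_sum,
      sum_mul]
    congr 1
    rw [sum_comm]
    conv_rhs => rw [sum_comm]
    refine sum_congr rfl fun e _ => ?_
    rw [sum_comm]
    refine sum_congr rfl fun i _ => sum_congr rfl fun e' _ => ?_
    rw [show i + (e + 1) = i + 1 + e by omega]; ring
  rw [h1, EE_eq ht]
  simp [AM_apply]; ring

lemma machine_gf (ht : t ^ (N + 1) = 0) :
    ∑ n ∈ range (N + 1), t ^ n * (cnt n [] 0 : R) = gam t N 0 1 := by
  have h := uniq ht _ (geo_apply ht (AM R) (fun _ _ => 1)) (VV_eq ht)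
  have h2 := congrFun (congrFun h []) 0
  rw [VV, sum_range_succ'] at h2
  simp only [geo, LinearMap.sum_apply, Finset.sum_apply, smul_pow, LinearMap.smul_apply, AM_pow,
    Pi.smul_apply, smul_eq_mul] at h2
  rw [h2]; simp [kap]

def AA (R : Type) [CommRing R] : Module.End R (Bool → ℕ → ℕ → R) where
  toFun F f k c := ∑ j ∈ range k, F false (j + 1) c +
      F true k (if f then c else c + 1) + ∑ i ∈ range (c + 1), F true (k + i + 1) (c - i)
  map_add' F G := by ext f k c; simp [sum_add_distrib]; abel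
  map_smul' r F := by ext f k c; simp [mul_add, mul_sum]

lemma AA_apply (F : Bool → ℕ → ℕ → R) (f : Bool) (k c : ℕ) :
    AA R F f k c = ∑ j ∈ range k, F false (j + 1) c +
      F true k (if f then c else c + 1) + ∑ i ∈ range (c + 1), F true (k + i + 1) (c - i) := rfl

lemma AA_pow (n : ℕ) : (AA R ^ n) (fun _ _ _ => 1) = fun f k c => (acnt n f k c : R) := by
  induction n with
  | zero => ext f k c; simp [acnt]
  | succ n ih =>
    rw [pow_succ', Module.End.mul_apply, ih]
    ext f k c
    simp [AA_apply, acnt]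

lemma ascent_gf (ht : t ^ (N + 1) = 0) :
    1 + t * ∑ n ∈ range (N + 1), t ^ n * (acnt n true 0 0 : R) = gam t N 0 1 := by
  set F := geo N (t • AA R) (fun _ _ _ => 1) with hF
  have h0 : F true 0 0 = ∑ n ∈ range (N + 1), t ^ n * (acnt n true 0 0 : R) := by
    simp only [hF, geo, LinearMap.sum_apply, Finset.sum_apply, smul_pow, LinearMap.smul_apply,
      AA_pow, Pi.smul_apply, smul_eq_mul]
  have h1 : ∀ f k c, F f k c = 1 + t * AA R F f k c := fun f k c =>
    congrFun (congrFun (congrFun (geo_apply ht (AA R) (fun _ _ _ => 1)) f) k) c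
  have hy := yy_eq ht
  have hy2 := yy_mul ht
  set y := yy t N with hydef
  let G1 : F2 R := fun c g => F true (g + 1) c
  let G0 : F2 R := fun c g => F false (g + 1) c
  let one : F2 R := fun _ _ => 1
  have hM : ∀ c g, MM R R G1 (c + 1) g =
      G1 (c + 1) g + ∑ i ∈ range (c + 1), F true (g + 1 + i + 1) (c - i) := by
    intro c g
    rw [MM_succ, MM_apply]
  have h2 : G0 = (one + t • aa R R (MM R R G1)) + t • row (K1 R R) G0 := by
    ext c g
    simp only [Pi.add_apply, Pi.smul_apply, aa_apply, hM, row_apply, K1_apply, smul_eq_mul, G0,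
      G1, one]
    rw [h1 false (g + 1) c, AA_apply]
    simp; ring
  have h3 : G0 = DD R t N (one + t • aa R R (MM R R G1)) := uniq ht _ h2 (row_D ht _)
  have h4 : G1 = y • (G0 - t • aa R R G1) := by
    ext c g
    have e1 := h1 true (g + 1) c
    have e0 := h1 false (g + 1) c
    rw [AA_apply] at e1 e0
    simp only [if_true, Bool.false_eq_true, if_false] at e1 e0
    simp only [Pi.smul_apply, Pi.sub_apply, aa_apply, smul_eq_mul, G0, G1]
    linear_combination y * e1 - y * e0 - F true (g + 1) c * hy2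
  set Θ := Th R t N (fun _ => 1) with hΘ
  have h5 : G1 = y • DD R t N Θ := by
    refine uniq ht (y • (DD R t N * aa R R * MM R R - aa R R)) (F0 := y • DD R t N one) ?_ ?_
    · conv_lhs => rw [h4, h3]
      simp only [LinearMap.smul_apply, LinearMap.sub_apply, Module.End.mul_apply, map_add,
        map_smul]
      module
    · have e : Θ = one + t • (y • T0 R t N) Θ := Th_eq ht _
      conv_lhs => rw [e]
      have e' : DD R t N (aa R R Θ) = aa R R (DD R t N Θ) := rfl
      simp only [T0, LinearMap.smul_apply, LinearMap.sub_apply, Module.End.mul_apply, map_add,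
        map_smul, map_sub, e']
      module
  have h6 : F true 1 0 = y * (y * Θ 0 0) := by
    have := congrFun (congrFun h5 0) 0
    simpa [G1, DD, D1_zero ht] using this
  have h7 := h1 true 0 0
  rw [AA_apply] at h7
  simp only [range_zero, sum_empty, if_true, zero_add, sum_range_one, Nat.sub_self, h6] at h7
  rw [← h0, gam_01 ht, ← hydef, ← hΘ]
  linear_combination t * y * h7 - t * F true 0 0 * hy2

theorem cnt_eq_acnt (n : ℕ) : cnt (n + 1) [] 0 = acnt n true 0 0 := by
  classical
  let p : Polynomial ℤ := Polynomial.X ^ (n + 1 + 1)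
  have ht : (AdjoinRoot.mk p Polynomial.X) ^ (n + 1 + 1) = 0 := by
    rw [← map_pow]; exact AdjoinRoot.mk_self
  have h := (machine_gf ht).trans (ascent_gf ht).symm
  have h2 : AdjoinRoot.mk p (∑ m ∈ range (n + 1 + 1), Polynomial.X ^ m * (cnt m [] 0 : Polynomial ℤ))
      = AdjoinRoot.mk p (1 + Polynomial.X *
        ∑ m ∈ range (n + 1 + 1), Polynomial.X ^ m * (acnt m true 0 0 : Polynomial ℤ)) := by
    simpa [map_sum] using h
  rw [AdjoinRoot.mk_eq_mk] at h2
  have h3 := Polynomial.X_pow_dvd_iff.1 h2 (n + 1) (by omega)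
  simp only [Polynomial.coeff_sub, Polynomial.coeff_add, Polynomial.coeff_X_mul,
    Polynomial.finset_sum_coeff, ← Polynomial.C_eq_natCast, Polynomial.coeff_mul_C,
    Polynomial.coeff_X_pow, Polynomial.coeff_one] at h3
  simp at h3
  omega

end Pool.Agent.H134Z.Mac
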