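import Pool.Agent.H134Z.MacAlg4

set_option autoImplicit false

namespace Pool.Agent.H134Z.Mac
open Finset

theorem tree_count {X S : Type} (G : ℕ → Set X) (grow : ℕ → X → ℕ → X) (P : ℕ → X → S → Prop)
    (c : ℕ → S → ℕ) (m0 : ℕ)
    (hinj : ∀ m x x' s s', x ∈ G m → x' ∈ G m → grow m x s = grow m x' s' → x = x' ∧ s = s')
    (hsurj : ∀ m y, y ∈ G (m + 1) → ∃ x ∈ G m, ∃ s, y = grow m x s)
    (c0 : ∀ σ, c 0 σ = 1)
    (hstep : ∀ m x σ, x ∈ G m → P m x σ → ∃ (T : Finset ℕ) (nx : ℕ → S),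
      (∀ s, s ∈ T ↔ grow m x s ∈ G (m + 1)) ∧ (∀ s ∈ T, P (m + 1) (grow m x s) (nx s)) ∧
      ∀ n, c (n + 1) σ = ∑ s ∈ T, c n (nx s))
    (x0 : X) (σ0 : S) (h0 : G m0 = {x0}) (hP : P m0 x0 σ0) (j : ℕ) :
    (G (m0 + j)).ncard = c j σ0 := by
  have key : ∃ (ι : Type) (_ : Fintype ι) (e : ι → X) (st : ι → S), Function.Injective e ∧
      Set.range e = G (m0 + j) ∧ (∀ i, P (m0 + j) (e i) (st i)) ∧
      ∀ n, c (n + j) σ0 = ∑ i, c n (st i) := by
    induction j with
    | zero =>
      exact ⟨Unit, inferInstance, fun _ => x0, fun _ => σ0, fun _ _ _ => rfl, by simp [h0],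
        fun _ => hP, fun n => by simp⟩
    | succ j ih =>
      obtain ⟨ι, _, e, st, h1, h2, h3, h4⟩ := ih
      have hm : ∀ i, e i ∈ G (m0 + j) := fun i => h2 ▸ Set.mem_range_self i
      choose T nx hT hN hc using fun i => hstep _ _ _ (hm i) (h3 i)
      refine ⟨Σ i, T i, inferInstance, fun q => grow (m0 + j) (e q.1) q.2,
        fun q => nx q.1 q.2, ?_, ?_, fun q => hN _ _ q.2.2, fun n => ?_⟩
      · rintro ⟨i, s, hs⟩ ⟨i', s', hs'⟩ h
        obtain ⟨h5, h6⟩ := hinj _ _ _ _ _ (hm i) (hm i') h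
        obtain rfl := h1 h5
        obtain rfl : s = s' := h6
        rfl
      · ext y
        constructor
        · rintro ⟨⟨i, s, hs⟩, rfl⟩
          exact (hT i s).1 hs
        · intro hy
          obtain ⟨x, hx, s, rfl⟩ := hsurj _ _ hy
          obtain ⟨i, rfl⟩ : x ∈ Set.range e := h2 ▸ hx
          exact ⟨⟨i, s, (hT i s).2 hy⟩, rfl⟩
      · rw [show n + (j + 1) = n + 1 + j by omega, h4, Fintype.sum_sigma]
        refine sum_congr rfl fun i _ => ?_
        rw [hc, ← sum_coe_sort]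
  obtain ⟨ι, _, e, st, h1, h2, -, h4⟩ := key
  have := h4 0
  rw [zero_add] at this
  rw [this, ← h2, Set.ncard_range_of_injective h1]
  simp [c0]

lemma sum_rank (g : ℕ → ℕ) (A : Finset ℕ) :
    ∑ s ∈ A, g (A.filter (· ≤ s)).card = ∑ j ∈ range A.card, g (j + 1) := by
  induction A using Finset.induction_on_max with
  | empty => simp
  | insert a A ha ih =>
    have hn : a ∉ A := fun h => lt_irrefl _ (ha a h)
    rw [sum_insert hn, card_insert_of_notMem hn, sum_range_succ, ← ih, add_comm]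
    congr 1
    · refine sum_congr rfl fun s hs => ?_
      rw [filter_insert, if_neg (by have := ha s hs; omega)]
    · rw [filter_true_of_mem, card_insert_of_notMem hn]
      intro x hx
      rcases mem_insert.1 hx with rfl | hx
      · exact le_rfl
      · exact (ha x hx).le

def asc (x : ℕ → ℕ) (i : ℕ) : ℕ := ((range i).filter fun j => j + 1 < i ∧ x j < x (j + 1)).card

def Bad (x : ℕ → ℕ) (m z : ℕ) : Prop := ∃ i j, i < j ∧ j < m ∧ x j < z ∧ z < x i

def GA (m : ℕ) : Set (ℕ → ℕ) := {x | (∀ i, m ≤ i → x i = 0) ∧ x 0 = 0 ∧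
  (∀ i < m, x i ≤ asc x i + 1) ∧ ∀ k < m, ¬ Bad x k (x k)}

lemma asc_congr {x y : ℕ → ℕ} {i : ℕ} (h : ∀ j < i, x j = y j) : asc x i = asc y i := by
  unfold asc
  congr 1
  refine filter_congr fun j hj => ?_
  constructor
  · rintro ⟨h1, h2⟩; exact ⟨h1, by rwa [← h j (by omega), ← h _ h1]⟩
  · rintro ⟨h1, h2⟩; exact ⟨h1, by rwa [h j (by omega), h _ h1]⟩

lemma Bad_congr {x y : ℕ → ℕ} {m : ℕ} (h : ∀ j < m, x j = y j) (z : ℕ) :
    Bad x m z ↔ Bad y m z := by
  constructor
  · rintro ⟨i, j, h1, h2, h3⟩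
    exact ⟨i, j, h1, h2, by rwa [← h j h2, ← h i (by omega)]⟩
  · rintro ⟨i, j, h1, h2, h3⟩
    exact ⟨i, j, h1, h2, by rwa [h j h2, h i (by omega)]⟩

lemma asc_succ (x : ℕ → ℕ) (m : ℕ) :
    asc x (m + 2) = asc x (m + 1) + if x m < x (m + 1) then 1 else 0 := by
  unfold asc
  have h1 : ∀ k, ((range (k + 1)).filter fun j => j + 1 < k + 1 ∧ x j < x (j + 1)) =
      (range k).filter fun j => x j < x (j + 1) := by
    intro k; ext j; simp only [mem_filter, mem_range]; omega
  rw [h1, h1, range_add_one, filter_insert]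
  split_ifs
  · rw [card_insert_of_notMem (by simp)]
  · rfl

lemma upd_lt (x : ℕ → ℕ) (m s : ℕ) : ∀ j < m, Function.update x m s j = x j :=
  fun _ hj => Function.update_of_ne hj.ne _ _

lemma mem_GA_upd {m : ℕ} {x : ℕ → ℕ} (hx : x ∈ GA (m + 1)) (s : ℕ) :
    Function.update x (m + 1) s ∈ GA (m + 1 + 1) ↔ s ≤ asc x (m + 1) + 1 ∧ ¬ Bad x (m + 1) s := by
  have hu := upd_lt x (m + 1) s
  constructor
  · rintro ⟨-, -, h3, h4⟩
    have h5 := h3 (m + 1) (by omega)
    have h6 := h4 (m + 1) (by omega)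
    rw [asc_congr hu, Function.update_self] at h5
    rw [Bad_congr hu, Function.update_self] at h6
    exact ⟨h5, h6⟩
  · rintro ⟨h5, h6⟩
    obtain ⟨h1, h2, h3, h4⟩ := hx
    refine ⟨fun i hi => ?_, ?_, fun i hi => ?_, fun i hi => ?_⟩
    · rw [Function.update_of_ne (by omega)]; exact h1 i (by omega)
    · rw [hu 0 (by omega)]; exact h2
    · rw [asc_congr (y := x) fun j hj => hu j (by omega)]
      rcases Nat.lt_succ_iff_lt_or_eq.1 hi with h | rfl
      · rw [hu i h]; exact h3 i h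
      · rw [Function.update_self]; exact h5
    · rw [Bad_congr (y := x) fun j hj => hu j (by omega)]
      rcases Nat.lt_succ_iff_lt_or_eq.1 hi with h | rfl
      · rw [hu i h]; exact h4 i h
      · rw [Function.update_self]; exact h6

lemma Bad_upd (x : ℕ → ℕ) (m s z : ℕ) :
    Bad (Function.update x m s) (m + 1) z ↔ Bad x m z ∨ (s < z ∧ ∃ i < m, z < x i) := by
  have hu := upd_lt x m s
  constructor
  · rintro ⟨i, j, h1, h2, h3, h4⟩
    rw [hu i (by omega)] at h4
    rcases Nat.lt_succ_iff_lt_or_eq.1 h2 with h | rfl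
    · rw [hu j h] at h3; exact Or.inl ⟨i, j, h1, h, h3, h4⟩
    · rw [Function.update_self] at h3; exact Or.inr ⟨h3, i, h1, h4⟩
  · rintro (⟨i, j, h1, h2, h3, h4⟩ | ⟨h1, i, h2, h3⟩)
    · exact ⟨i, j, h1, by omega, by rwa [hu j h2], by rwa [hu i (by omega)]⟩
    · exact ⟨i, m, h2, by omega, by rwa [Function.update_self], by rwa [hu i h2]⟩

open Classical in
noncomputable def AS (x : ℕ → ℕ) (m mx : ℕ) : Finset ℕ := (range mx).filter fun z => ¬ Bad x m z

lemma mem_AS {x : ℕ → ℕ} {m mx z : ℕ} : z ∈ AS x m mx ↔ z < mx ∧ ¬ Bad x m z := by simp [AS]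

def PA (m : ℕ) (x : ℕ → ℕ) (σ : Bool × ℕ × ℕ) : Prop :=
  ∃ mx, (∀ i < m + 1, x i ≤ mx) ∧ (∃ i < m + 1, x i = mx) ∧ asc x (m + 1) = mx + σ.2.2 ∧
    (σ.1 = true ↔ x m = mx) ∧ (AS x (m + 1) mx).card = σ.2.1

lemma asc_step (m : ℕ) (x : ℕ → ℕ) (σ : Bool × ℕ × ℕ) (hx : x ∈ GA (m + 1)) (hP : PA m x σ) :
    ∃ (T : Finset ℕ) (nx : ℕ → Bool × ℕ × ℕ),
      (∀ s, s ∈ T ↔ Function.update x (m + 1) s ∈ GA (m + 1 + 1)) ∧
      (∀ s ∈ T, PA (m + 1) (Function.update x (m + 1) s) (nx s)) ∧
      ∀ n, acnt (n + 1) σ.1 σ.2.1 σ.2.2 = ∑ s ∈ T, acnt n (nx s).1 (nx s).2.1 (nx s).2.2 := by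
  obtain ⟨f, k, c⟩ := σ
  obtain ⟨mx, h1, ⟨i0, hi0, h2⟩, h3, h4, h5⟩ := hP
  simp only at h3 h4 h5 ⊢
  set A := AS x (m + 1) mx with hA
  have hnb : ∀ z, mx ≤ z → ¬ Bad x (m + 1) z := by
    rintro z hz ⟨i, j, e1, e2, -, e4⟩
    have := h1 i (by omega); omega
  have hasc : ∀ s, asc (Function.update x (m + 1) s) (m + 1 + 1) =
      mx + c + if x m < s then 1 else 0 := by
    intro s
    rw [asc_succ, asc_congr (upd_lt x (m + 1) s), h3, upd_lt x (m + 1) s m (by omega),
      Function.update_self]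
  have hle : ∀ s M, mx ≤ M → s ≤ M → ∀ i < m + 1 + 1, Function.update x (m + 1) s i ≤ M := by
    intro s M e1 e2 i hi
    rcases Nat.lt_succ_iff_lt_or_eq.1 hi with h | rfl
    · rw [upd_lt _ _ _ i h]; exact (h1 i h).trans e1
    · rwa [Function.update_self]
  have hxm := h1 m (by omega)
  refine ⟨A ∪ insert mx (Ico (mx + 1) (mx + 1 + (c + 1))), fun s =>
    if s < mx then (false, (A.filter (· ≤ s)).card, c) else
      if s = mx then (true, k, if f then c else c + 1) else
        (true, k + (s - (mx + 1)) + 1, c - (s - (mx + 1))), fun s => ?_, fun s hs => ?_,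
    fun n => ?_⟩
  · rw [mem_GA_upd hx, h3, mem_union, mem_insert, mem_Ico, hA, mem_AS]
    have := hnb s
    by_cases hb : Bad x (m + 1) s
    · simp only [hb, not_true, imp_false, and_false, false_or, iff_false] at this ⊢; omega
    · simp only [hb, not_false_iff, and_true]; omega
  · rw [mem_union, mem_insert, mem_Ico, hA, mem_AS] at hs
    beta_reduce
    rcases hs with ⟨e1, e2⟩ | rfl | ⟨e1, e2⟩
    · rw [if_pos e1]
      refine ⟨mx, hle s mx le_rfl e1.le, ⟨i0, by omega, by rw [upd_lt _ _ _ _ hi0, h2]⟩, ?_, ?_, ?_⟩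
      · rw [hasc, if_neg, add_zero]
        intro e3
        refine e2 ⟨i0, m, ?_, by omega, e3, by omega⟩
        rcases Nat.lt_succ_iff_lt_or_eq.1 hi0 with h | rfl
        · exact h
        · omega
      · simp only [Function.update_self]; simp; omega
      · refine congrArg Finset.card (?_ : _ = A.filter (· ≤ s))
        ext z
        rw [mem_AS, mem_filter, hA, mem_AS, Bad_upd]
        constructor
        · rintro ⟨e3, e4⟩
          refine ⟨⟨e3, fun h => e4 (Or.inl h)⟩, ?_⟩
          by_contra e5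
          exact e4 (Or.inr ⟨by omega, i0, hi0, by omega⟩)
        · rintro ⟨⟨e3, e4⟩, e5⟩
          exact ⟨e3, fun h => h.elim e4 fun h => by omega⟩
    · rw [if_neg (lt_irrefl _), if_pos rfl]
      refine ⟨s, hle s s le_rfl le_rfl, ⟨i0, by omega, by rw [upd_lt _ _ _ _ hi0, h2]⟩, ?_, ?_, ?_⟩
      · rw [hasc]
        cases f
        · have : x m ≠ s := fun h => by simpa using h4.2 h
          rw [if_pos (by omega)]; simp; omega
        · rw [if_neg (by have := h4.1 rfl; omega)]; simp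
      · simp
      · refine Eq.trans (congrArg Finset.card ?_) h5
        ext z
        rw [mem_AS, hA, mem_AS, Bad_upd]
        constructor
        · rintro ⟨e3, e4⟩
          exact ⟨e3, fun h => e4 (Or.inl h)⟩
        · rintro ⟨e3, e4⟩
          exact ⟨e3, fun h => h.elim e4 fun h => by omega⟩
    · rw [if_neg (show ¬ s < mx by omega), if_neg (show ¬ s = mx by omega)]
      refine ⟨s, hle s s (by omega) le_rfl, ⟨m + 1, by omega, by simp⟩, ?_, by simp, ?_⟩
      · rw [hasc, if_pos (by omega)]; simp only; omega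
      · have : AS (Function.update x (m + 1) s) (m + 1 + 1) s = A ∪ Ico mx s := by
          ext z
          rw [mem_AS, mem_union, hA, mem_AS, Bad_upd, mem_Ico]
          constructor
          · rintro ⟨e3, e4⟩
            by_cases e5 : z < mx
            · exact Or.inl ⟨e5, fun h => e4 (Or.inl h)⟩
            · exact Or.inr ⟨by omega, e3⟩
          · rintro (⟨e3, e4⟩ | ⟨e3, e4⟩)
            · exact ⟨by omega, fun h => h.elim e4 fun h => by omega⟩
            · exact ⟨e4, fun h => h.elim (hnb z e3) fun h => by omega⟩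
        rw [this, card_union_of_disjoint, h5, Nat.card_Ico]
        · simp only; omega
        · rw [disjoint_left]
          intro z hz hz'
          rw [hA, mem_AS] at hz; rw [mem_Ico] at hz'; omega
  · rw [sum_union, sum_insert (by simp), sum_Ico_eq_sum_range]
    · simp only [acnt]
      rw [add_assoc]
      congr 1
      · rw [← h5, ← sum_rank fun j => acnt n false j c]
        refine sum_congr rfl fun s hs => ?_
        rw [hA, mem_AS] at hs
        rw [if_pos hs.1]
      · congr 1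
        · rw [if_neg (lt_irrefl _), if_pos trivial]
        · rw [Nat.add_sub_cancel_left]
          refine sum_congr rfl fun i _ => ?_
          rw [if_neg (show ¬ mx + 1 + i < mx by omega), if_neg (show ¬ mx + 1 + i = mx by omega),
            Nat.add_sub_cancel_left]
    · rw [disjoint_left]
      intro z hz hz'
      rw [hA, mem_AS] at hz; rw [mem_insert, mem_Ico] at hz'; omega

theorem GA_count (n : ℕ) : (GA (n + 1)).ncard = acnt n true 0 0 := by
  have := tree_count (fun m => GA (m + 1)) (fun m x s => Function.update x (m + 1) s) PA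
    (fun n σ => acnt n σ.1 σ.2.1 σ.2.2) 0 ?_ ?_ (fun _ => rfl) asc_step (fun _ => 0)
    (true, 0, 0) ?_ ?_ n
  · simpa using this
  · intro m x x' s s' hx hx' h
    have h1 : s = s' := by simpa using congrFun h (m + 1)
    refine ⟨funext fun i => ?_, h1⟩
    by_cases hi : i = m + 1
    · rw [hx.1 i hi.ge, hx'.1 i hi.ge]
    · simpa [Function.update_of_ne hi] using congrFun h i
  · intro m y hy
    obtain ⟨h1, h2, h3, h4⟩ := hy
    have hu := upd_lt y (m + 1) 0
    refine ⟨Function.update y (m + 1) 0, ⟨fun i hi => ?_, ?_, fun i hi => ?_, fun i hi => ?_⟩,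
      y (m + 1), by simp⟩
    · rcases Nat.eq_or_lt_of_le hi with rfl | h
      · simp
      · rw [Function.update_of_ne (by omega)]; exact h1 i h
    · rw [hu 0 (by omega)]; exact h2
    · rw [asc_congr (y := y) fun j hj => hu j (by omega), hu i hi]; exact h3 i (by omega)
    · rw [Bad_congr (y := y) fun j hj => hu j (by omega), hu i hi]; exact h4 i (by omega)
  · ext x
    constructor
    · rintro ⟨h1, h2, -⟩
      ext i
      cases i with
      | zero => exact h2
      | succ i => exact h1 _ (by omega)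
    · rintro rfl
      exact ⟨fun _ _ => rfl, rfl, fun _ _ => by simp, fun k _ ⟨_, _, _, _, h, _⟩ => by simp at h⟩
  · exact ⟨0, fun _ _ => le_rfl, ⟨0, by omega, rfl⟩, by simp [asc], by simp, by simp [AS]⟩

theorem asc_ncard (n : ℕ) :
    Set.ncard {x : Fin n → ℕ |
      (∀ i : Fin n, i.val = 0 → x i = 0) ∧
      (∀ i : Fin n, x i ≤ (Finset.univ.filter (fun j : Fin n =>
          j.val + 1 < i.val ∧ ∃ k : Fin n, k.val = j.val + 1 ∧ x j < x k)).card + 1) ∧
      ¬ ∃ i j k : Fin n, i < j ∧ j < k ∧ x j < x k ∧ x k < x i} = (GA n).ncard := by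
  let e : (Fin n → ℕ) → ℕ → ℕ := fun x i => if h : i < n then x ⟨i, h⟩ else 0
  have he : ∀ x (i : Fin n), e x i = x i := fun x i => by simp [e]
  have hinj : Function.Injective e := fun x y h => funext fun i => by
    rw [← he x, ← he y, h]
  have hasc : ∀ x (i : Fin n), (Finset.univ.filter (fun j : Fin n =>
      j.val + 1 < i.val ∧ ∃ k : Fin n, k.val = j.val + 1 ∧ x j < x k)).card = asc (e x) i := by
    intro x i
    unfold asc
    refine card_bij (fun j _ => j.val) ?_ (fun a _ b _ h => Fin.ext h) ?_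
    · intro j hj
      simp only [mem_filter, mem_univ, true_and, mem_range] at hj ⊢
      obtain ⟨h1, k, h2, h3⟩ := hj
      exact ⟨by omega, h1, by rwa [← h2, he, he]⟩
    · intro j hj
      simp only [mem_filter, mem_univ, true_and, mem_range] at hj ⊢
      obtain ⟨h1, h2, h3⟩ := hj
      refine ⟨⟨j, by omega⟩, ⟨h2, ⟨j + 1, by omega⟩, rfl, ?_⟩, rfl⟩
      rw [← he x, ← he x]; exact h3
  rw [← Set.ncard_image_of_injective _ hinj]
  congr 1
  ext y
  constructor
  · rintro ⟨x, ⟨h1, h2, h3⟩, rfl⟩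
    refine ⟨fun i hi => by simp [e, not_lt.2 hi], ?_, fun i hi => ?_, ?_⟩
    · by_cases h : 0 < n
      · exact (he x ⟨0, h⟩).trans (h1 _ rfl)
      · simp [e, h]
    · have := h2 ⟨i, hi⟩
      rwa [hasc, ← he x] at this
    · rintro k hk ⟨i, j, e1, e2, e3, e4⟩
      refine h3 ⟨⟨i, by omega⟩, ⟨j, by omega⟩, ⟨k, hk⟩, e1, e2, ?_, ?_⟩
      · rw [← he x, ← he x]; exact e3
      · rw [← he x, ← he x]; exact e4
  · rintro ⟨h1, h2, h3, h4⟩
    have hy : e (fun i => y i) = y := by
      ext i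
      by_cases h : i < n
      · simp [e, h]
      · simp [e, h, h1 i (not_lt.1 h)]
    refine ⟨fun i => y i, ⟨fun i hi => by simp only [hi, h2], fun i => ?_, ?_⟩, hy⟩
    · rw [hasc, hy]; exact h3 i i.2
    · rintro ⟨i, j, k, e1, e2, e3, e4⟩
      exact h4 k k.2 ⟨i, j, e1, e2, e3, e4⟩

end Pool.Agent.H134Z.Mac
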