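import Pool.Agent.H134Z.MacRun

set_option autoImplicit false

namespace Pool.Agent.H134Z.Mac
open List

/-- the block `p+b-1, ..., p` -/
def blk (p b : ℕ) : List ℕ := (range' p b).reverse

lemma mem_blk {p b x : ℕ} : x ∈ blk p b ↔ p ≤ x ∧ x < p + b := by simp [blk]

lemma blk_succ (p b : ℕ) : blk p (b + 1) = (p + b) :: blk p b := by
  simp [blk, range'_concat]

lemma blk_desc {p b x y : ℕ} (h : [x, y] <+ blk p b) : y < x := by
  have h1 : (blk p b).Pairwise (fun a b => b < a) := by
    rw [blk, pairwise_reverse]; exact pairwise_lt_range'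
  simpa using h1.sublist h

lemma blk_pair {p b : ℕ} (h : 2 ≤ b) : [p + b - 1, p] <+ blk p b := by
  obtain ⟨b, rfl⟩ : ∃ k, b = k + 1 := ⟨b - 1, by omega⟩
  rw [blk_succ]
  exact (singleton_sublist.2 (mem_blk.2 (by omega))).cons_cons _

lemma blk_bump_lt {p b s : ℕ} (h : p + b ≤ s) : (blk p b).map (bump s) = blk p b := by
  conv_rhs => rw [← map_id (blk p b)]
  exact map_congr_left fun a ha => bump_lt (by have := mem_blk.1 ha; omega)

lemma blk_bump_ge {p s : ℕ} (h : s ≤ p) : ∀ b, (blk p b).map (bump s) = blk (p + 1) b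
  | 0 => rfl
  | b + 1 => by
    rw [blk_succ, blk_succ, map_cons, blk_bump_ge h b, bump_ge (by omega)]
    congr 1; omega

def stk : ℕ → List (ℕ × ℕ) → List ℕ
  | _, [] => []
  | p, q :: r => blk p q.1 ++ stk (p + q.1 + q.2) r

lemma stk_ge : ∀ (B : List (ℕ × ℕ)) (p : ℕ), ∀ x ∈ stk p B, p ≤ x
  | [], _, _, h => by simp [stk] at h
  | q :: r, p, x, h => by
    rcases mem_append.1 h with h | h
    · exact (mem_blk.1 h).1
    · have := stk_ge r _ x h; omega

lemma stk_bump {s : ℕ} : ∀ (B : List (ℕ × ℕ)) (p : ℕ), s ≤ p →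
    (stk p B).map (bump s) = stk (p + 1) B
  | [], _, _ => rfl
  | q :: r, p, h => by
    rw [stk, stk, map_append, blk_bump_ge h, stk_bump r _ (by omega)]
    congr 2; omega

lemma stk_asc {p : ℕ} {q : ℕ × ℕ} {r : List (ℕ × ℕ)} {x y : ℕ} (h : [x, y] <+ stk p (q :: r))
    (hxy : x < y) : p + q.1 + q.2 ≤ y := by
  rcases sub2 h with h | ⟨-, h⟩ | h
  · have := blk_desc h; omega
  · exact stk_ge _ _ _ h
  · exact stk_ge _ _ _ (h.subset (by simp))

lemma stk_312 : ∀ (B : List (ℕ × ℕ)) (p : ℕ), ¬ has312 (stk p B)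
  | [], _ => by rintro ⟨x, y, z, h, -⟩; simp [stk] at h
  | q :: r, p => by
    rintro ⟨x, y, z, h, h1, h2⟩
    have h3 := stk_asc ((sublist_cons_self x _).trans h) h1
    obtain ⟨l1, l2, e, h4, h5⟩ := sublist_append_iff.1 h
    cases l1 with
    | nil => exact stk_312 r _ ⟨x, y, z, (show [x, y, z] = l2 from e) ▸ h5, h1, h2⟩
    | cons a l1 =>
      obtain ⟨rfl, -⟩ := cons.inj e
      have := mem_blk.1 (h4.subset mem_cons_self)
      omega

def wt (q : ℕ × ℕ) : ℕ := q.1 + q.2

def tops : ℕ → List (ℕ × ℕ) → Finset ℕ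
  | _, [] => ∅
  | p, q :: r => insert (p + q.1) (tops (p + q.1 + q.2) r)

def nxt : ℕ → ℕ → List (ℕ × ℕ) → ℕ → List ℕ × ℕ
  | _, _, [], _ => ([], 0)
  | p, c, q :: r, s =>
    if s = p + q.1 then ((wt q + 1) :: r.map wt, c) else nxt (p + q.1 + q.2) (wt q) r s

lemma tops_gt : ∀ (B : List (ℕ × ℕ)) (p : ℕ), (∀ q ∈ B, 1 ≤ q.1) → ∀ s ∈ tops p B,
    p < s ∧ s ≤ p + (B.map wt).sum
  | [], _, _, _, h => by simp [tops] at h
  | q :: r, p, hB, s, h => by
    have h1 := hB q mem_cons_self
    simp only [map_cons, sum_cons, wt]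
    rcases Finset.mem_insert.1 h with rfl | h
    · omega
    · have := tops_gt r _ (fun x hx => hB x (mem_cons_of_mem _ hx)) s h
      omega

lemma sum_tops (F : List ℕ → ℕ → ℕ) : ∀ (B : List (ℕ × ℕ)) (p c : ℕ), (∀ q ∈ B, 1 ≤ q.1) →
    ∑ s ∈ tops p B, F (nxt p c B s).1 (nxt p c B s).2 = extN F (B.map wt) c
  | [], _, _, _ => by simp [tops, extN]
  | q :: r, p, c, hB => by
    have hr : ∀ x ∈ r, 1 ≤ x.1 := fun x hx => hB x (mem_cons_of_mem _ hx)
    have h1 := tops_gt r (p + q.1 + q.2) hr
    rw [tops, Finset.sum_insert (fun h => by have := h1 _ h; omega), map_cons, extN,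
      ← sum_tops F r (p + q.1 + q.2) (wt q) hr]
    congr 1
    · rw [nxt, if_pos rfl]
    · refine Finset.sum_congr rfl fun s hs => ?_
      rw [nxt, if_neg (by have := h1 _ hs; omega)]

def Inv (O : List ℕ) (d : ℕ) (B : List (ℕ × ℕ)) : Prop :=
  (∀ q ∈ B, 1 ≤ q.1) ∧ (d = 0 ∨ ∃ b, d ≤ b ∧ [d - 1, b] <+ O) ∧
    ∀ a b, [a, b] <+ O → a < b → a < d

lemma Inv.bump {O : List ℕ} {d s : ℕ} {B B' : List (ℕ × ℕ)} (h : Inv O d B) (hs : d ≤ s)
    (hB : ∀ q ∈ B', 1 ≤ q.1) : Inv (O.map (bump s)) d B' := by
  obtain ⟨-, h2, h3⟩ := h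
  refine ⟨hB, ?_, fun a b h hab => ?_⟩
  · rcases Nat.eq_zero_or_pos d with h0 | h0
    · exact Or.inl h0
    · rcases h2 with h2 | ⟨b, h4, h5⟩
      · exact Or.inl h2
      · refine Or.inr ⟨Mac.bump s b, by unfold Mac.bump; split_ifs <;> omega, ?_⟩
        have := h5.map (Mac.bump s)
        rwa [map_cons, bump_lt (show d - 1 < s by omega)] at this
  · obtain ⟨x, y, h0, rfl, rfl⟩ := sub2_map h
    have := h3 x y h0 ((bump_mono s).lt_iff_lt.1 hab)
    rw [bump_lt (by omega)]; exact this

lemma no_pop {p s : ℕ} {B : List (ℕ × ℕ)} (h : ∀ q r, B = q :: r → s ≤ p + q.1 + q.2) :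
    ¬ has312 (s :: (stk p B).map (bump s)) := by
  intro h1
  rcases has312_ins _ _ h1 with h2 | ⟨x, y, h2, h3, h4⟩
  · exact stk_312 _ _ h2
  · cases B with
    | nil => simp [stk] at h2
    | cons q r => have := stk_asc h2 h3; have := h q r rfl; omega

/-- the state reached -/
def Good (m : ℕ) (St O : List ℕ) (σ : List ℕ × ℕ) : Prop :=
  ∃ d B, St = stk (d + σ.2) B ∧ σ.1 = B.map wt ∧ m = d + σ.2 + σ.1.sum ∧ Inv O d B

lemma high_step (m s : ℕ) (hs : s ≤ m) : ∀ (B : List (ℕ × ℕ)) (O : List ℕ) (d c : ℕ),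
    O ++ stk (d + c) B ~ range m → ¬ has231 (O ++ stk (d + c) B) →
    m = d + c + (B.map wt).sum → Inv O d B → d + c < s →
    (¬ has231 ((popW s ((stk (d + c) B).map (bump s)) (O.map (bump s))).2 ++
        s :: (popW s ((stk (d + c) B).map (bump s)) (O.map (bump s))).1) ↔
      s ∈ tops (d + c) B) ∧
    (s ∈ tops (d + c) B → Good (m + 1)
      (s :: (popW s ((stk (d + c) B).map (bump s)) (O.map (bump s))).1)
      (popW s ((stk (d + c) B).map (bump s)) (O.map (bump s))).2 (nxt (d + c) c B s))
  | [], O, d, c, _, _, hm, _, h => by simp at hm; omega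
  | (b, g) :: r, O, d, c, hp, hav, hm, hI, h => by
    have hb : 1 ≤ b := hI.1 _ mem_cons_self
    have hr : ∀ x ∈ r, 1 ≤ x.1 := fun x hx => hI.1 x (mem_cons_of_mem _ hx)
    have hnd := hp.nodup_iff.2 nodup_range
    have hdis : ∀ a ∈ O, a ∉ stk (d + c) ((b, g) :: r) := fun a ha ha' =>
      (nodup_append.1 hnd).2.2 a ha a ha' rfl
    have hO : ∀ a < m, a ∉ stk (d + c) ((b, g) :: r) → a ∈ O := fun a ha ha' =>
      (mem_append.1 (hp.symm.subset (mem_range.2 ha))).resolve_right ha'
    have ht := tops_gt r (d + c + b + g) hr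
    simp only [map_cons, sum_cons, wt] at hm
    have hbot : d + c ∈ stk (d + c) ((b, g) :: r) := mem_append_left _ (mem_blk.2 (by simp; omega))
    by_cases hle : s ≤ d + c + b + g
    · rw [popW_no _ (no_pop fun q r' e => by obtain ⟨rfl, -⟩ := cons.inj e; exact hle)]
      have hmem : s ∈ tops (d + c) ((b, g) :: r) ↔ s = d + c + b := by
        rw [tops, Finset.mem_insert]
        exact ⟨fun h => h.elim id fun h => by have := ht _ h; omega, Or.inl⟩
      simp only [hmem, has231_ins]
      refine ⟨⟨fun h1 => ?_, ?_⟩, ?_⟩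
      · by_contra h2
        rcases lt_or_gt_of_ne h2 with h3 | h3
        · exact h1 (Or.inr (Or.inl ⟨_, _, (blk_pair (p := d + c) (b := b) (by omega)).trans
            (sublist_append_left _ _), h, by omega⟩))
        · refine h1 (Or.inr (Or.inr (Or.inl ⟨d + c + b, hO _ (by omega) fun h4 => ?_, _, hbot,
            by omega, h3⟩)))
          rcases mem_append.1 h4 with h4 | h4
          · have := mem_blk.1 h4; simp at this
          · have := stk_ge _ _ _ h4; simp only at this; omega
      · rintro rfl (h1 | ⟨x, y, h1, h2, h3⟩ | ⟨x, hx, y, hy, h1, h2⟩ | ⟨x, y, h1, h2, h3⟩)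
        · exact hav h1
        · rcases sub2 h1 with h1 | ⟨h1, -⟩ | h1
          · have := mem_blk.1 (h1.subset mem_cons_self); simp only at this; omega
          · have := mem_blk.1 h1; simp only at this; omega
          · have := stk_ge _ _ y (h1.subset (by simp)); simp only at this; omega
        · have := stk_ge _ _ _ hy
          exact hdis x hx (mem_append_left _ (mem_blk.2 ⟨by omega, h2⟩))
        · have := hI.2.2 _ _ h1 h3; omega
      · rintro rfl
        rw [nxt, if_pos rfl]
        refine ⟨d, (b + 1, g) :: r, ?_, ?_, ?_, hI.bump (by omega) ?_⟩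
        · simp only [stk, blk_succ, map_append, cons_append]
          rw [blk_bump_lt le_rfl, stk_bump _ _ (by omega)]
          congr 3; omega
        · simp only [wt, map_cons]; congr 1; omega
        · simp only [wt, sum_cons]; omega
        · intro q hq
          rcases mem_cons.1 hq with rfl | hq
          · simp
          · exact hr q hq
    · match r, hp, hav, hm, hI, hr, hnd, hdis, hO, ht, hbot with
      | [], _, _, hm, _, _, _, _, _, _, _ => simp at hm; omega
      | q :: r, hp, hav, hm, hI, hr, hnd, hdis, hO, ht, hbot =>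
        have hq := hr q mem_cons_self
        have e1 : popW s ((stk (d + c) ((b, g) :: q :: r)).map (bump s)) (O.map (bump s)) =
            popW s ((stk (d + c + (b + g)) (q :: r)).map (bump s))
              ((O ++ blk (d + c) b).map (bump s)) := by
          rw [stk, map_append, map_append (l₁ := O), ← add_assoc]
          refine popW_block s (bump s (d + c + b + g)) _
            (mem_map_of_mem (mem_append_left _ (mem_blk.2 (by omega))))
            (bump_lt_iff.2 (by omega)) _ _ fun a ha => ?_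
          obtain ⟨x, hx, rfl⟩ := mem_map.1 ha
          exact bump_mono s (by have := mem_blk.1 hx; simp only at this; omega)
        have e2 : O ++ stk (d + c) ((b, g) :: q :: r) =
            (O ++ blk (d + c) b) ++ stk (d + c + (b + g)) (q :: r) := by
          rw [append_assoc, ← add_assoc]; rfl
        have hI' : Inv (O ++ blk (d + c) b) (d + c) (q :: r) := by
          refine ⟨hr, ?_, fun x y h1 h2 => ?_⟩
          · rcases Nat.eq_zero_or_pos (d + c) with h0 | h0
            · exact Or.inl h0
            · refine Or.inr ⟨d + c, le_rfl, (singleton_sublist.2 (hO _ (by omega) fun h1 => ?_)).append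
                (singleton_sublist.2 (mem_blk.2 (by omega)))⟩
              have := stk_ge _ _ _ h1; omega
          · rcases sub2 h1 with h1 | ⟨h1, h3⟩ | h1
            · have := hI.2.2 _ _ h1 h2; omega
            · by_contra h4
              have := mem_blk.1 h3
              exact hdis x h1 (mem_append_left _ (mem_blk.2 ⟨by omega, by simp only; omega⟩))
            · have := blk_desc h1; omega
        have ih := high_step m s hs (q :: r) (O ++ blk (d + c) b) (d + c) (b + g) (e2 ▸ hp)
          (e2 ▸ hav) (by omega) hI' (by omega)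
        have e3 : s ∈ tops (d + c) ((b, g) :: q :: r) ↔ s ∈ tops (d + c + (b + g)) (q :: r) := by
          rw [tops, Finset.mem_insert, ← add_assoc]
          exact ⟨fun h => h.elim (fun h => by simp only at h; omega) id, Or.inr⟩
        have e4 : nxt (d + c) c ((b, g) :: q :: r) s =
            nxt (d + c + (b + g)) (b + g) (q :: r) s := by
          rw [nxt, if_neg (by simp only; omega), ← add_assoc]; rfl
        rw [e1, e3, e4]
        exact ih

def PM (m : ℕ) (p : List ℕ) (σ : List ℕ × ℕ) : Prop := Good m (run p).1 (run p).2 σ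

lemma mach_step (m : ℕ) (p : List ℕ) (σ : List ℕ × ℕ) (hp : p ∈ GM m) (hP : PM m p σ) :
    ∃ (T : Finset ℕ) (nx : ℕ → List ℕ × ℕ),
      (∀ s, s ∈ T ↔ grow p s ∈ GM (m + 1)) ∧ (∀ s ∈ T, PM (m + 1) (grow p s) (nx s)) ∧
      ∀ n, cnt (n + 1) σ.1 σ.2 = ∑ s ∈ T, cnt n (nx s).1 (nx s).2 := by
  obtain ⟨L, c⟩ := σ
  obtain ⟨d, B, h1, h2, h3, hI⟩ := hP
  simp only at h1 h2 h3 ⊢
  subst h2
  obtain ⟨hp, hav⟩ := hp
  have hperm := (final_perm p).trans hp
  rw [final, h1] at hperm hav
  set O := (run p).2 with hO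
  have hG : ∀ s, grow p s ∈ GM (m + 1) ↔ s ≤ m ∧
      ¬ has231 ((popW s ((stk (d + c) B).map (bump s)) (O.map (bump s))).2 ++
        s :: (popW s ((stk (d + c) B).map (bump s)) (O.map (bump s))).1) := by
    intro s
    rw [GM, Set.mem_setOf_eq, grow_perm hp, final, run_grow, h1]
  have hlow : ∀ s, s ≤ d + c → popW s ((stk (d + c) B).map (bump s)) (O.map (bump s)) =
      ((stk (d + c) B).map (bump s), O.map (bump s)) :=
    fun s hs => popW_no _ (no_pop fun q r _ => by omega)
  have ht := tops_gt B (d + c) hI.1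
  refine ⟨Finset.Ico d (d + (c + 1)) ∪ tops (d + c) B, fun s =>
    if s ≤ d + c then ((d + c - s + 1) :: B.map wt, s - d) else nxt (d + c) c B s,
    fun s => ?_, fun s hs => ?_, fun n => ?_⟩
  · rw [hG, Finset.mem_union, Finset.mem_Ico]
    by_cases hs : s ≤ d + c
    · rw [hlow s hs, has231_ins]
      constructor
      · rintro (h | h)
        · refine ⟨by omega, ?_⟩
          rintro (h4 | ⟨x, y, h4, h5, h6⟩ | ⟨x, hx, y, hy, h4, h5⟩ | ⟨x, y, h4, h5, h6⟩)
          · exact hav h4
          · have := stk_ge _ _ y (h4.subset (by simp)); omega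
          · have := stk_ge _ _ y hy; omega
          · have := hI.2.2 _ _ h4 h6; omega
        · have := ht s h; omega
      · rintro ⟨-, h⟩
        refine Or.inl ⟨?_, by omega⟩
        by_contra h4
        rcases hI.2.1 with h5 | ⟨b, h5, h6⟩
        · omega
        · exact h (Or.inr (Or.inr (Or.inr ⟨_, _, h6, by omega, by omega⟩)))
    · constructor
      · rintro (h | h)
        · omega
        · have hsm : s ≤ m := by have := ht s h; omega
          exact ⟨hsm, (high_step m s hsm B O d c hperm hav h3 hI (by omega)).1.2 h⟩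
      · rintro ⟨hsm, h⟩
        exact Or.inr ((high_step m s hsm B O d c hperm hav h3 hI (by omega)).1.1 h)
  · rw [PM, run_grow, h1]
    beta_reduce
    rw [Finset.mem_union, Finset.mem_Ico] at hs
    rcases hs with hs | hs
    · rw [if_pos (by omega), ← hO, hlow s (by omega)]
      refine ⟨d, (1, d + c - s) :: B, ?_, ?_, ?_, hI.bump hs.1 ?_⟩
      · simp only [stk]
        rw [stk_bump _ _ (by omega), show d + (s - d) = s by omega,
          show s + 1 + (d + c - s) = d + c + 1 by omega]
        rfl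
      · simp only [wt, map_cons]; congr 1; omega
      · simp only [sum_cons]; omega
      · intro q hq
        rcases mem_cons.1 hq with rfl | hq
        · exact le_rfl
        · exact hI.1 q hq
    · have := ht s hs
      rw [if_neg (by omega)]
      exact (high_step m s (by omega) B O d c hperm hav h3 hI (by omega)).2 hs
  · rw [Finset.sum_union, Finset.sum_Ico_eq_sum_range, Nat.add_sub_cancel_left, cnt]
    · beta_reduce
      refine congrArg₂ (· + ·) ?_ ?_
      · rw [← Finset.sum_range_reflect (fun i => cnt n ((i + 1) :: B.map wt) (c - i))]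
        refine Finset.sum_congr rfl fun i hi => ?_
        have := Finset.mem_range.1 hi
        rw [if_pos (by omega), show d + c - (d + i) = c + 1 - 1 - i by omega,
          show d + i - d = c - (c + 1 - 1 - i) by omega]
      · rw [← sum_tops (cnt n) B (d + c) c hI.1]
        refine Finset.sum_congr rfl fun s hs => ?_
        have := ht s hs
        rw [if_neg (by omega)]
    · rw [Finset.disjoint_left]
      intro z hz hz'
      have := ht z hz'
      rw [Finset.mem_Ico] at hz; omega

theorem GM_count (n : ℕ) : (GM n).ncard = cnt n [] 0 := by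
  have := tree_count GM (fun _ => grow) PM (fun n σ => cnt n σ.1 σ.2) 0
    (fun _ _ _ _ _ _ _ h => grow_inj h) (fun _ _ => grow_surj) (fun _ => rfl) mach_step []
    ([], 0) ?_ ?_ n
  · simpa using this
  · ext p
    constructor
    · rintro ⟨h, -⟩
      simpa using h
    · rintro rfl
      refine ⟨Perm.refl _, ?_⟩
      rintro ⟨a, b, c, h, -⟩
      simp [final, run] at h
  · exact ⟨0, [], rfl, rfl, rfl, by simp, Or.inl rfl, fun a b h => by simp [run] at h⟩

theorem GA_GM (n : ℕ) : (GA n).ncard = (GM n).ncard := by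
  cases n with
  | zero =>
    rw [GM_count]
    have : GA 0 = {fun _ => 0} := by
      ext x
      constructor
      · rintro ⟨h, -⟩
        ext i; exact h i (Nat.zero_le _)
      · rintro rfl
        exact ⟨fun _ _ => rfl, rfl, fun _ h => by omega, fun _ h => by omega⟩
    rw [this]; simp [cnt]
  | succ n => rw [GM_count, GA_count, cnt_eq_acnt]

end Pool.Agent.H134Z.Mac
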