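import Pool.Agent.H134Z.MacAsc

set_option autoImplicit false

namespace Pool.Agent.H134Z.Mac
open List

def has312 (l : List ℕ) : Prop := ∃ p q u : ℕ, [p, q, u] <+ l ∧ q < u ∧ u < p
def has231 (l : List ℕ) : Prop := ∃ a b c : ℕ, [a, b, c] <+ l ∧ c < a ∧ a < b

def step (s t : List ℕ × List ℕ × List ℕ) : Prop :=
  (∃ (a : ℕ) (r : List ℕ), s.1 = a :: r ∧ ¬ has312 (a :: s.2.1) ∧ t = (r, a :: s.2.1, s.2.2)) ∨
  (∃ (b : ℕ) (m : List ℕ), s.2.1 = b :: m ∧
    (s.1 = [] ∨ ∃ (a : ℕ) (r : List ℕ), s.1 = a :: r ∧ has312 (a :: s.2.1)) ∧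
    t = (s.1, m, s.2.2 ++ [b]))

open Classical in
noncomputable def popW (a : ℕ) : List ℕ → List ℕ → List ℕ × List ℕ
  | [], o => ([], o)
  | b :: m, o => if has312 (a :: b :: m) then popW a m (o ++ [b]) else (b :: m, o)

noncomputable def push (s : List ℕ × List ℕ) (a : ℕ) : List ℕ × List ℕ :=
  (a :: (popW a s.1 s.2).1, (popW a s.1 s.2).2)

noncomputable def run (p : List ℕ) : List ℕ × List ℕ := p.foldl push ([], [])

noncomputable def final (p : List ℕ) : List ℕ := (run p).2 ++ (run p).1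

lemma not_has312_single (a : ℕ) : ¬ has312 [a] := by
  rintro ⟨p, q, u, h, -⟩
  have := h.length_le
  simp at this

lemma popW_no {a : ℕ} {st : List ℕ} (o : List ℕ) (h : ¬ has312 (a :: st)) :
    popW a st o = (st, o) := by
  cases st with
  | nil => rfl
  | cons b m => rw [popW, if_neg h]

lemma popW_yes {a b : ℕ} {m : List ℕ} (o : List ℕ) (h : has312 (a :: b :: m)) :
    popW a (b :: m) o = popW a m (o ++ [b]) := by rw [popW, if_pos h]

lemma rtg_push (a : ℕ) (r : List ℕ) : ∀ st o : List ℕ,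
    Relation.ReflTransGen step (a :: r, st, o) (r, (push (st, o) a).1, (push (st, o) a).2)
  | [], o => Relation.ReflTransGen.single (Or.inl ⟨a, r, rfl, not_has312_single a, rfl⟩)
  | b :: m, o => by
    by_cases h : has312 (a :: b :: m)
    · have := rtg_push a r m (o ++ [b])
      simp only [push] at this ⊢
      rw [popW_yes o h]
      exact this.head (Or.inr ⟨b, m, rfl, Or.inr ⟨a, r, rfl, h⟩, rfl⟩)
    · simp only [push]
      rw [popW_no o h]
      exact Relation.ReflTransGen.single (Or.inl ⟨a, r, rfl, h, rfl⟩)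

lemma rtg_flush : ∀ st o : List ℕ, Relation.ReflTransGen step ([], st, o) ([], [], o ++ st)
  | [], o => by rw [append_nil]
  | b :: m, o => by
    have := rtg_flush m (o ++ [b])
    rw [append_assoc, singleton_append] at this
    exact this.head (Or.inr ⟨b, m, rfl, Or.inl rfl, rfl⟩)

lemma rtg_run : ∀ (r : List ℕ) (s : List ℕ × List ℕ), Relation.ReflTransGen step (r, s.1, s.2)
    ([], [], (r.foldl push s).2 ++ (r.foldl push s).1)
  | [], s => rtg_flush _ _
  | a :: r, s => (rtg_push a r s.1 s.2).trans (rtg_run r (push s a))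

lemma step_unique : Relator.RightUnique step := by
  rintro s t t' (⟨a, r, h1, h2, rfl⟩ | ⟨b, m, h1, h2, rfl⟩)
    (⟨a', r', h1', h2', rfl⟩ | ⟨b', m', h1', h2', rfl⟩)
  · rw [h1] at h1'; obtain ⟨rfl, rfl⟩ := cons.inj h1'; rfl
  · rcases h2' with h | ⟨a', r', h3, h4⟩
    · rw [h1] at h; cases h
    · rw [h1] at h3; obtain ⟨rfl, rfl⟩ := cons.inj h3; exact absurd h4 h2
  · rcases h2 with h | ⟨a, r, h3, h4⟩
    · rw [h1'] at h; cases h
    · rw [h1'] at h3; obtain ⟨rfl, rfl⟩ := cons.inj h3; exact absurd h4 h2'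
  · rw [h1] at h1'; obtain ⟨rfl, rfl⟩ := cons.inj h1'; rfl

lemma rtg_term {w : List ℕ} {t : List ℕ × List ℕ × List ℕ}
    (h : Relation.ReflTransGen step ([], [], w) t) : t = ([], [], w) := by
  rcases h.cases_head with h | ⟨c, (⟨a, r, h1, -⟩ | ⟨b, m, h1, -⟩), -⟩
  · exact h.symm
  · cases h1
  · cases h1

lemma rtg_iff (p w : List ℕ) :
    Relation.ReflTransGen step (p, [], []) ([], [], w) ↔ w = final p := by
  have h := rtg_run p ([], [])
  constructor
  · intro h'
    rcases Relation.ReflTransGen.total_of_right_unique step_unique h h' with h2 | h2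
    · exact congrArg (fun t => t.2.2) (rtg_term h2)
    · exact (congrArg (fun t => t.2.2) (rtg_term h2)).symm
  · rintro rfl; exact h

lemma popW_append (a : ℕ) : ∀ st o : List ℕ, (popW a st o).2 ++ (popW a st o).1 = o ++ st
  | [], o => rfl
  | b :: m, o => by
    by_cases h : has312 (a :: b :: m)
    · rw [popW_yes o h, popW_append a m]; simp
    · rw [popW_no o h]

lemma run_snoc (p : List ℕ) (a : ℕ) : run (p ++ [a]) = push (run p) a := by
  simp [run]

lemma final_sub (p : List ℕ) (a : ℕ) : final p <+ final (p ++ [a]) := by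
  rw [final, final, run_snoc, ← popW_append a]
  exact (Sublist.refl _).append (sublist_cons_self _ _)

lemma final_perm (p : List ℕ) : final p ~ p := by
  induction p using List.reverseRecOn with
  | nil => rfl
  | append_singleton p a ih =>
    rw [final, run_snoc]
    refine perm_middle.trans (Perm.trans ?_ (perm_append_singleton a p).symm)
    simp only [push]
    rw [popW_append]
    exact ih.cons a

lemma sub3_map {f : ℕ → ℕ} {x y z : ℕ} {l : List ℕ} (h : [x, y, z] <+ l.map f) :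
    ∃ a b c, [a, b, c] <+ l ∧ x = f a ∧ y = f b ∧ z = f c := by
  obtain ⟨l', h1, h2⟩ := sublist_map_iff.1 h
  match l', h1, h2 with
  | [a, b, c], h1, h2 => exact ⟨a, b, c, h1, by simpa using h2⟩
  | [], _, h2 => simp at h2
  | [_], _, h2 => simp at h2
  | [_, _], _, h2 => simp at h2
  | _ :: _ :: _ :: _ :: _, _, h2 => simp at h2

lemma sub2_map {f : ℕ → ℕ} {x y : ℕ} {l : List ℕ} (h : [x, y] <+ l.map f) :
    ∃ a b, [a, b] <+ l ∧ x = f a ∧ y = f b := by
  obtain ⟨l', h1, h2⟩ := sublist_map_iff.1 h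
  match l', h1, h2 with
  | [a, b], h1, h2 => exact ⟨a, b, h1, by simpa using h2⟩
  | [], _, h2 => simp at h2
  | [_], _, h2 => simp at h2
  | _ :: _ :: _ :: _, _, h2 => simp at h2

lemma has312_map {f : ℕ → ℕ} (hf : StrictMono f) (l : List ℕ) : has312 (l.map f) ↔ has312 l := by
  constructor
  · rintro ⟨p, q, u, h, h1, h2⟩
    obtain ⟨a, b, c, h0, rfl, rfl, rfl⟩ := sub3_map h
    exact ⟨a, b, c, h0, hf.lt_iff_lt.1 h1, hf.lt_iff_lt.1 h2⟩
  · rintro ⟨p, q, u, h, h1, h2⟩
    exact ⟨_, _, _, h.map f, hf h1, hf h2⟩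

lemma has231_map {f : ℕ → ℕ} (hf : StrictMono f) (l : List ℕ) : has231 (l.map f) ↔ has231 l := by
  constructor
  · rintro ⟨p, q, u, h, h1, h2⟩
    obtain ⟨a, b, c, h0, rfl, rfl, rfl⟩ := sub3_map h
    exact ⟨a, b, c, h0, hf.lt_iff_lt.1 h1, hf.lt_iff_lt.1 h2⟩
  · rintro ⟨p, q, u, h, h1, h2⟩
    exact ⟨_, _, _, h.map f, hf h1, hf h2⟩

lemma popW_map {f : ℕ → ℕ} (hf : StrictMono f) (a : ℕ) : ∀ st o : List ℕ,
    popW (f a) (st.map f) (o.map f) = ((popW a st o).1.map f, (popW a st o).2.map f)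
  | [], o => rfl
  | b :: m, o => by
    have e := has312_map hf (a :: b :: m)
    by_cases h : has312 (a :: b :: m)
    · rw [popW_yes o h, ← popW_map hf a m, map_cons, popW_yes _ (e.2 h)]; simp
    · rw [popW_no o h, popW_no _ (fun h' => h (e.1 h'))]

lemma run_map {f : ℕ → ℕ} (hf : StrictMono f) (p : List ℕ) :
    run (p.map f) = ((run p).1.map f, (run p).2.map f) := by
  induction p using List.reverseRecOn with
  | nil => rfl
  | append_singleton p a ih =>
    rw [map_append, map_singleton, run_snoc, run_snoc, ih]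
    simp only [push, popW_map hf, map_cons]

lemma final_map {f : ℕ → ℕ} (hf : StrictMono f) (p : List ℕ) :
    final (p.map f) = (final p).map f := by
  simp [final, run_map hf]

def bump (s a : ℕ) : ℕ := if a < s then a else a + 1

lemma bump_mono (s : ℕ) : StrictMono (bump s) := by
  intro a b h; unfold bump; split_ifs <;> omega

lemma bump_lt {s a : ℕ} (h : a < s) : bump s a = a := if_pos h
lemma bump_ge {s a : ℕ} (h : s ≤ a) : bump s a = a + 1 := if_neg (by omega)
lemma bump_lt_iff {s a : ℕ} : bump s a < s ↔ a < s := by unfold bump; split_ifs <;> omega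
lemma lt_bump_iff {s a : ℕ} : s < bump s a ↔ s ≤ a := by unfold bump; split_ifs <;> omega

def grow (p : List ℕ) (s : ℕ) : List ℕ := p.map (bump s) ++ [s]

def GM (m : ℕ) : Set (List ℕ) := {p | p ~ range m ∧ ¬ has231 (final p)}

lemma range_bump {m s : ℕ} (h : s ≤ m) : (range m).map (bump s) ++ [s] ~ range (m + 1) := by
  refine (perm_ext_iff_of_nodup ?_ nodup_range).2 fun a => ?_
  · rw [nodup_append]
    refine ⟨nodup_range.map (bump_mono s).injective, nodup_singleton _, ?_⟩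
    intro a ha b hb
    obtain ⟨c, -, rfl⟩ := mem_map.1 ha
    rw [mem_singleton.1 hb]
    unfold bump; split_ifs <;> omega
  · simp only [mem_append, mem_map, mem_range, mem_singleton]
    constructor
    · rintro (⟨c, h1, rfl⟩ | rfl)
      · unfold bump; split_ifs <;> omega
      · omega
    · intro ha
      rcases lt_trichotomy a s with h1 | h1 | h1
      · exact Or.inl ⟨a, by omega, bump_lt h1⟩
      · exact Or.inr h1
      · exact Or.inl ⟨a - 1, by omega, by rw [bump_ge (by omega)]; omega⟩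

lemma grow_perm {p : List ℕ} {m : ℕ} (hp : p ~ range m) (s : ℕ) :
    grow p s ~ range (m + 1) ↔ s ≤ m := by
  constructor
  · intro h
    have := mem_range.1 (h.subset (show s ∈ grow p s by simp [grow]))
    omega
  · intro h
    exact ((hp.map _).append_right _).trans (range_bump h)

lemma grow_inj {p p' : List ℕ} {s s' : ℕ} (h : grow p s = grow p' s') : p = p' ∧ s = s' := by
  obtain ⟨h1, h2⟩ := append_inj' h rfl
  obtain rfl : s = s' := by simpa using h2
  exact ⟨map_injective_iff.2 (bump_mono s).injective h1, rfl⟩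

lemma grow_surj {m : ℕ} {y : List ℕ} (hy : y ∈ GM (m + 1)) : ∃ x ∈ GM m, ∃ s, y = grow x s := by
  obtain ⟨h1, h2⟩ := hy
  have hne : y ≠ [] := by rintro rfl; simpa using h1.length_eq
  obtain ⟨y', s, rfl⟩ : ∃ y' s, y = y' ++ [s] := ⟨_, _, (dropLast_append_getLast hne).symm⟩
  have hs : s ≤ m := by
    have := mem_range.1 (h1.subset (show s ∈ y' ++ [s] by simp)); omega
  have h3 : y' ~ (range m).map (bump s) :=
    (perm_append_right_iff _).1 (h1.trans (range_bump hs).symm)
  let u : ℕ → ℕ := fun a => if a < s then a else a - 1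
  have hu : ∀ a, u (bump s a) = a := by
    intro a; simp only [u, bump]; split_ifs <;> omega
  have h4 : (y'.map u).map (bump s) = y' := by
    rw [map_map]
    conv_rhs => rw [← map_id y']
    refine map_congr_left fun a ha => ?_
    obtain ⟨c, -, rfl⟩ := mem_map.1 (h3.subset ha)
    simp [hu]
  refine ⟨y'.map u, ⟨?_, fun h => h2 ?_⟩, s, by rw [grow, h4]⟩
  · have := h3.map u
    rwa [map_map, show u ∘ bump s = id from funext hu, map_id] at this
  · rw [← has231_map (bump_mono s), ← final_map (bump_mono s), h4] at h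
    obtain ⟨a, b, c, h5, h6⟩ := h
    exact ⟨a, b, c, h5.trans (final_sub _ _), h6⟩

lemma run_grow (p : List ℕ) (s : ℕ) : run (grow p s) =
    (s :: (popW s ((run p).1.map (bump s)) ((run p).2.map (bump s))).1,
      (popW s ((run p).1.map (bump s)) ((run p).2.map (bump s))).2) := by
  rw [grow, run_snoc, run_map (bump_mono s)]; rfl

lemma sub3 (c x y z : ℕ) (U V : List ℕ) (h : [x, y, z] <+ U ++ c :: V) :
    [x, y, z] <+ U ++ V ∨ (x = c ∧ [y, z] <+ V) ∨
      (y = c ∧ x ∈ U ∧ z ∈ V) ∨ (z = c ∧ [x, y] <+ U) := by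
  obtain ⟨l1, l2, e, h1, h2⟩ := sublist_append_iff.1 h
  rcases sublist_cons_iff.1 h2 with h3 | ⟨l3, rfl, h3⟩
  · exact Or.inl (e ▸ h1.append h3)
  · right
    match l1, e, h1 with
    | [], e, _ =>
      simp only [nil_append, cons.injEq] at e
      exact Or.inl ⟨e.1, e.2 ▸ h3⟩
    | [a], e, h1 =>
      simp only [cons_append, nil_append, cons.injEq] at e
      obtain ⟨rfl, rfl, rfl⟩ := e
      exact Or.inr (Or.inl ⟨rfl, singleton_sublist.1 h1, singleton_sublist.1 h3⟩)
    | [a, b], e, h1 =>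
      simp only [cons_append, nil_append, cons.injEq] at e
      obtain ⟨rfl, rfl, rfl, rfl⟩ := e
      exact Or.inr (Or.inr ⟨rfl, h1⟩)
    | a :: b :: d :: t, e, _ =>
      simp at e

lemma sub2 {x y : ℕ} {U V : List ℕ} (h : [x, y] <+ U ++ V) :
    [x, y] <+ U ∨ (x ∈ U ∧ y ∈ V) ∨ [x, y] <+ V := by
  obtain ⟨l1, l2, e, h1, h2⟩ := sublist_append_iff.1 h
  match l1, e, h1 with
  | [], e, _ =>
    simp only [nil_append] at e
    exact Or.inr (Or.inr (e ▸ h2))
  | [a], e, h1 =>
    simp only [cons_append, nil_append, cons.injEq] at e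
    obtain ⟨rfl, rfl⟩ := e
    exact Or.inr (Or.inl ⟨singleton_sublist.1 h1, singleton_sublist.1 h2⟩)
  | [a, b], e, h1 =>
    simp only [cons_append, nil_append, cons.injEq] at e
    obtain ⟨rfl, rfl, rfl⟩ := e
    exact Or.inl h1
  | a :: b :: d :: t, e, _ =>
    simp at e

/-- when the new entry creates a `231` -/
lemma has231_ins (s : ℕ) (O St : List ℕ) :
    has231 (O.map (bump s) ++ s :: St.map (bump s)) ↔ has231 (O ++ St) ∨
      (∃ b c, [b, c] <+ St ∧ c < s ∧ s ≤ b) ∨ (∃ a ∈ O, ∃ c ∈ St, c < a ∧ a < s) ∨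
      (∃ a b, [a, b] <+ O ∧ s ≤ a ∧ a < b) := by
  have hf := bump_mono s
  constructor
  · rintro ⟨x, y, z, h, h1, h2⟩
    rcases sub3 _ _ _ _ _ _ h with h | ⟨rfl, h⟩ | ⟨rfl, h, h'⟩ | ⟨rfl, h⟩
    · rw [← map_append] at h
      exact Or.inl ((has231_map hf _).1 ⟨x, y, z, h, h1, h2⟩)
    · obtain ⟨b, c, h0, rfl, rfl⟩ := sub2_map h
      exact Or.inr (Or.inl ⟨b, c, h0, bump_lt_iff.1 h1, lt_bump_iff.1 h2⟩)
    · obtain ⟨a, ha, rfl⟩ := mem_map.1 h
      obtain ⟨c, hc, rfl⟩ := mem_map.1 h'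
      exact Or.inr (Or.inr (Or.inl ⟨a, ha, c, hc, hf.lt_iff_lt.1 h1, bump_lt_iff.1 h2⟩))
    · obtain ⟨a, b, h0, rfl, rfl⟩ := sub2_map h
      exact Or.inr (Or.inr (Or.inr ⟨a, b, h0, lt_bump_iff.1 h1, hf.lt_iff_lt.1 h2⟩))
  · rintro (h | ⟨b, c, h, h1, h2⟩ | ⟨a, ha, c, hc, h1, h2⟩ | ⟨a, b, h, h1, h2⟩)
    · obtain ⟨x, y, z, h, h1⟩ := (has231_map hf _).2 h
      rw [map_append] at h
      exact ⟨x, y, z, h.trans ((Sublist.refl _).append (sublist_cons_self _ _)), h1⟩
    · exact ⟨s, _, _, ((h.map (bump s)).cons_cons s).trans (sublist_append_right _ _),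
        bump_lt_iff.2 h1, lt_bump_iff.2 h2⟩
    · exact ⟨_, s, _, (singleton_sublist.2 (mem_map_of_mem ha)).append
        ((singleton_sublist.2 (mem_map_of_mem hc)).cons_cons s), hf h1, bump_lt_iff.2 h2⟩
    · exact ⟨_, _, s, (h.map (bump s)).append ((nil_sublist _).cons_cons s),
        lt_bump_iff.2 h1, hf h2⟩

lemma has312_ins (s : ℕ) (St : List ℕ) (h : has312 (s :: St.map (bump s))) :
    has312 St ∨ ∃ q u, [q, u] <+ St ∧ q < u ∧ u < s := by
  have hf := bump_mono s
  obtain ⟨x, y, z, h, h1, h2⟩ := h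
  rcases sublist_cons_iff.1 h with h3 | ⟨l3, e, h3⟩
  · exact Or.inl ((has312_map hf _).1 ⟨x, y, z, h3, h1, h2⟩)
  · obtain ⟨rfl, rfl⟩ := cons.inj e
    obtain ⟨q, u, h0, rfl, rfl⟩ := sub2_map h3
    exact Or.inr ⟨q, u, h0, hf.lt_iff_lt.1 h1, bump_lt_iff.1 h2⟩

lemma popW_block (s u : ℕ) (C : List ℕ) (hu : u ∈ C) (hs : u < s) : ∀ A O : List ℕ,
    (∀ a ∈ A, a < u) → popW s (A ++ C) O = popW s C (O ++ A)
  | [], O, _ => by simp
  | a :: A, O, h => by
    rw [cons_append, popW_yes, popW_block s u C hu hs A _ fun x hx => h x (mem_cons_of_mem _ hx)]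
    · simp
    · exact ⟨s, a, u, ((singleton_sublist.2 (mem_append_right A hu)).cons_cons a).cons_cons s,
        h a mem_cons_self, hs⟩

end Pool.Agent.H134Z.Mac
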